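import Mathlib

set_option autoImplicit false
set_option linter.unusedSectionVars false

namespace Pool.Agent.Lib.MP_44ed1d_co

open Finset

variable {V E : Type} [DecidableEq V] [DecidableEq E]

/-- arcs of `A` entering `U` -/
def ent (t h : E → V) (A : Finset E) (U : Finset V) : Finset E :=
  A.filter (fun e => h e ∈ U ∧ t e ∉ U)

lemma mem_ent {t h : E → V} {A : Finset E} {U : Finset V} {e : E} :
    e ∈ ent t h A U ↔ e ∈ A ∧ h e ∈ U ∧ t e ∉ U := by
  simp [ent]

lemma ent_submod (t h : E → V) (A : Finset E) (U X : Finset V) :
    (ent t h A (U ∩ X)).card + (ent t h A (U ∪ X)).card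
      ≤ (ent t h A U).card + (ent t h A X).card := by
  unfold ent
  simp only [card_filter]
  rw [← sum_add_distrib, ← sum_add_distrib]
  apply sum_le_sum
  intro e _
  by_cases h1 : h e ∈ U <;> by_cases h2 : h e ∈ X <;> by_cases h3 : t e ∈ U <;>
    by_cases h4 : t e ∈ X <;> simp [h1, h2, h3, h4]

/-- number of colours whose root set misses `U` -/
def dem {κ : Type} [Fintype κ] (T : κ → Finset V) (U : Finset V) : ℕ :=
  (univ.filter (fun c => Disjoint (T c) U)).card

lemma dem_supermod {κ : Type} [Fintype κ] [DecidableEq κ] (T : κ → Finset V) (U X : Finset V)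
    (c : κ) (hU : ¬ Disjoint (T c) U) (hX : ¬ Disjoint (T c) X) :
    dem T U + dem T X + (if Disjoint (T c) (U ∩ X) then 1 else 0)
      ≤ dem T (U ∩ X) + dem T (U ∪ X) := by
  unfold dem
  simp only [card_filter]
  have : (if Disjoint (T c) (U ∩ X) then 1 else 0 : ℕ)
      = ∑ d : κ, (if d = c then (if Disjoint (T c) (U ∩ X) then 1 else 0) else 0 : ℕ) := by
    simp
  rw [this, ← sum_add_distrib, ← sum_add_distrib, ← sum_add_distrib]
  apply sum_le_sum
  intro d _
  have h1 : Disjoint (T d) U → Disjoint (T d) (U ∩ X) :=
    fun hh => hh.mono_right inter_subset_left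
  have h2 : Disjoint (T d) X → Disjoint (T d) (U ∩ X) :=
    fun hh => hh.mono_right inter_subset_right
  by_cases hd : d = c
  · subst hd
    simp only [hU, hX, if_false, if_true]
    omega
  · simp only [hd, if_false, disjoint_union_right]
    by_cases a1 : Disjoint (T d) U <;> by_cases a2 : Disjoint (T d) X <;>
      simp_all

theorem edmonds_aux [Fintype V] {κ : Type} [Fintype κ] [DecidableEq κ] [Nonempty κ]
    (t h : E → V) (n : ℕ) :
    ∀ (A : Finset E) (T : κ → Finset V), (∑ c, (T c)ᶜ.card) = n →
      (∀ U : Finset V, U.Nonempty → dem T U ≤ (ent t h A U).card) →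
      ∃ f : E → κ, ∀ c (U : Finset V), U.Nonempty → Disjoint (T c) U →
        ∃ e ∈ A, f e = c ∧ h e ∈ U ∧ t e ∉ U := by
  induction n using Nat.strong_induction_on with
  | _ n ih =>
  intro A T hn hc
  by_cases hall : ∀ c, T c = univ
  · refine ⟨fun _ => Classical.arbitrary κ, fun c U hU hd => ?_⟩
    rw [hall c] at hd
    obtain ⟨x, hx⟩ := hU
    exact absurd (mem_univ x) (disjoint_right.1 hd hx)
  push Not at hall
  obtain ⟨c, hcT⟩ := hall
  have hVne : (univ : Finset V).Nonempty := by
    by_contra h0
    rw [not_nonempty_iff_eq_empty] at h0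
    apply hcT
    apply eq_univ_of_forall
    intro x
    have := mem_univ x
    rw [h0] at this
    simp at this
  have hent0 : (ent t h A univ).card = 0 := by
    rw [card_eq_zero]
    ext e
    simp [mem_ent]
  have hTne : ¬ Disjoint (T c) univ := by
    intro hd
    have h1 := hc univ hVne
    have h2 : 0 < dem T univ := by
      unfold dem
      exact card_pos.2 ⟨c, by simp only [mem_filter, mem_univ, true_and]; exact hd⟩
    omega
  -- minimal tight set
  let P : Finset V → Prop := fun X =>
    (ent t h A X).card ≤ dem T X ∧ ¬ Disjoint (T c) X ∧ ¬ X ⊆ T c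
  have hPu : P univ := ⟨by omega, hTne, fun hh => hcT (univ_subset_iff.1 hh)⟩
  classical
  obtain ⟨X, hXm, hXmin⟩ := exists_min_image (univ.filter P) card ⟨univ, by simpa using hPu⟩
  have hX : P X := (mem_filter.1 hXm).2
  obtain ⟨hX1, hX2, hX3⟩ := hX
  have hYne : (X \ T c).Nonempty := sdiff_nonempty.2 hX3
  have hY := hc _ hYne
  have hdemY : dem T X + 1 ≤ dem T (X \ T c) := by
    unfold dem
    have : insert c (univ.filter (fun d => Disjoint (T d) X))
        ⊆ univ.filter (fun d => Disjoint (T d) (X \ T c)) := by
      intro d hd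
      rcases mem_insert.1 hd with rfl | hd
      · simp only [mem_filter, mem_univ, true_and]
        exact disjoint_sdiff
      · simp only [mem_filter, mem_univ, true_and] at hd ⊢
        exact hd.mono_right sdiff_subset
    have h2 := card_le_card this
    rw [card_insert_of_notMem (by simpa using hX2)] at h2
    exact h2
  have hex : ∃ e ∈ ent t h A (X \ T c), e ∉ ent t h A X := by
    by_contra hno
    push Not at hno
    have := card_le_card (show ent t h A (X \ T c) ⊆ ent t h A X from hno)
    omega
  obtain ⟨a, ha1, ha2⟩ := hex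
  rw [mem_ent] at ha1 ha2
  obtain ⟨haA, hah, hat⟩ := ha1
  have hahX : h a ∈ X := (mem_sdiff.1 hah).1
  have hahT : h a ∉ T c := (mem_sdiff.1 hah).2
  have hatX : t a ∈ X := by
    by_contra hh
    exact ha2 ⟨haA, hahX, hh⟩
  have hatT : t a ∈ T c := by
    by_contra hh
    exact hat (mem_sdiff.2 ⟨hatX, hh⟩)
  let T' : κ → Finset V := Function.update T c (insert (h a) (T c))
  have hT'c : T' c = insert (h a) (T c) := by simp [T']
  have hT'd : ∀ d, d ≠ c → T' d = T d := fun d hd => by simp [T', hd]
  have hsub : ∀ d, T d ⊆ T' d := by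
    intro d
    by_cases hd : d = c
    · subst hd; rw [hT'c]; exact subset_insert _ _
    · rw [hT'd d hd]
  have hlt : (∑ d, (T' d)ᶜ.card) < n := by
    rw [← hn]
    apply sum_lt_sum
    · intro d _
      exact card_le_card (compl_subset_compl.2 (hsub d))
    · refine ⟨c, mem_univ _, ?_⟩
      apply card_lt_card
      rw [hT'c]
      refine ⟨compl_subset_compl.2 (subset_insert _ _), fun hh => ?_⟩
      have := hh (mem_compl.2 hahT)
      simp at this
  have hdem' : ∀ U, dem T' U ≤ dem T U := by
    intro U
    unfold dem
    apply card_le_card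
    intro d hd
    simp only [mem_filter, mem_univ, true_and] at hd ⊢
    exact hd.mono_left (hsub d)
  have hc' : ∀ U : Finset V, U.Nonempty → dem T' U ≤ (ent t h (A.erase a) U).card := by
    intro U hU
    have hU0 := hc U hU
    have hU1 := hdem' U
    have he : ent t h (A.erase a) U = (ent t h A U).erase a := by
      ext e
      simp only [mem_ent, mem_erase]
      tauto
    rw [he]
    by_cases hin : a ∈ ent t h A U
    · rw [card_erase_of_mem hin]
      have hin' := mem_ent.1 hin
      by_cases hd : Disjoint (T c) U
      · have : dem T' U + 1 ≤ dem T U := by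
          unfold dem
          have : insert c (univ.filter (fun d => Disjoint (T' d) U))
              ⊆ univ.filter (fun d => Disjoint (T d) U) := by
            intro d hd'
            rcases mem_insert.1 hd' with rfl | hd'
            · simpa using hd
            · simp only [mem_filter, mem_univ, true_and] at hd' ⊢
              exact hd'.mono_left (hsub d)
          have h2 := card_le_card this
          rw [card_insert_of_notMem] at h2
          · exact h2
          · simp only [mem_filter, mem_univ, true_and, hT'c]
            intro hh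
            exact disjoint_left.1 hh (mem_insert_self _ _) hin'.2.1
        omega
      · have hnt : ¬ (ent t h A U).card ≤ dem T U := by
          intro htight
          have s1 := ent_submod t h A U X
          have s2 := dem_supermod T U X c hd hX2
          have hI : (U ∩ X).Nonempty := ⟨h a, mem_inter.2 ⟨hin'.2.1, hahX⟩⟩
          have s3 := hc _ hI
          have s4 := hc (U ∪ X) (hU.mono subset_union_left)
          have s5 : ¬ Disjoint (T c) (U ∩ X) := by
            intro hh
            rw [if_pos hh] at s2
            omega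
          have s6 : P (U ∩ X) := by
            refine ⟨by omega, s5, fun hh => hahT (hh (mem_inter.2 ⟨hin'.2.1, hahX⟩))⟩
          have s7 := hXmin (U ∩ X) (by simpa using s6)
          have s8 : (U ∩ X).card < X.card := by
            apply card_lt_card
            refine ⟨inter_subset_right, fun hh => ?_⟩
            exact hin'.2.2 (mem_inter.1 (hh hatX)).1
          omega
        omega
    · rw [erase_eq_of_notMem hin]
      omega
  obtain ⟨f, hf⟩ := ih _ hlt (A.erase a) T' rfl hc'
  refine ⟨Function.update f a c, fun d U hU hd => ?_⟩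
  by_cases hd' : Disjoint (T' d) U
  · obtain ⟨e, he, h1, h2⟩ := hf d U hU hd'
    refine ⟨e, mem_of_mem_erase he, ?_, h2⟩
    rw [Function.update_of_ne (ne_of_mem_erase he)]
    exact h1
  · have hdc : d = c := by
      by_contra hne
      rw [hT'd d hne] at hd'
      exact hd' hd
    subst hdc
    rw [hT'c, disjoint_insert_left] at hd'
    have hhU : h a ∈ U := by
      by_contra hh
      exact hd' ⟨hh, hd⟩
    exact ⟨a, haA, by simp, hhU, disjoint_left.1 hd hatT⟩

/-- Edmonds' disjoint branchings theorem with root sets, cut form -/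
theorem edmonds [Fintype V] {κ : Type} [Fintype κ] [DecidableEq κ] [Nonempty κ]
    (t h : E → V) (A : Finset E) (T : κ → Finset V)
    (hc : ∀ U : Finset V, U.Nonempty → dem T U ≤ (ent t h A U).card) :
    ∃ f : E → κ, ∀ c (U : Finset V), U.Nonempty → Disjoint (T c) U →
        ∃ e ∈ A, f e = c ∧ h e ∈ U ∧ t e ∉ U :=
  edmonds_aux t h _ A T rfl hc

end Pool.Agent.Lib.MP_44ed1d_co
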