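import Mathlib
import Pool.Agent.Lib.MP_44ed1d_co.Edmonds

set_option autoImplicit false
set_option linter.unusedSectionVars false

namespace Pool.Agent.Lib.MP_44ed1d_co

open Finset

theorem two_invol {α : Type} (p q : Equiv.Perm α) (hp : p * p = 1) (hq : q * q = 1)
    (hp' : ∀ x, p x ≠ x) (hq' : ∀ x, q x ≠ x) :
    ∃ χ : α → Bool, ∀ x, χ (p x) ≠ χ x ∧ χ (q x) ≠ χ x := by
  classical
  set σ := p * q with hσ
  have hpi : p⁻¹ = p := inv_eq_of_mul_eq_one_right hp
  have hqi : q⁻¹ = q := inv_eq_of_mul_eq_one_right hq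
  have hconj : p * σ * p⁻¹ = σ⁻¹ := by
    rw [hσ, mul_inv_rev, hpi, hqi, ← mul_assoc, hp, one_mul]
  have hz : ∀ m : ℤ, σ ^ (-m) * p = p * σ ^ m := by
    intro m
    have h1 : (p * σ * p⁻¹) ^ m = p * σ ^ m * p⁻¹ := conj_zpow
    rw [hconj, inv_zpow'] at h1
    rw [h1, mul_assoc, inv_mul_cancel, mul_one]
  have hkey : ∀ x, ¬ σ.SameCycle x (p x) := by
    rintro x ⟨n, hn⟩
    obtain ⟨m, hm | hm⟩ := Int.even_or_odd' n
    · apply hp' ((σ ^ m) x)
      have h1 : (σ ^ (-m) * p) x = (p * σ ^ m) x := by rw [hz]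
      simp only [Equiv.Perm.mul_apply] at h1
      rw [← h1, ← hn, ← Equiv.Perm.mul_apply, ← zpow_add]
      congr 2
      omega
    · apply hq' ((σ ^ m) x)
      have h1 : (σ ^ (-m) * p) x = (p * σ ^ m) x := by rw [hz]
      simp only [Equiv.Perm.mul_apply] at h1
      have h2 : (σ ^ (-m)) ((σ ^ n) x) = σ ((σ ^ m) x) := by
        rw [← Equiv.Perm.mul_apply, ← zpow_add, ← Equiv.Perm.mul_apply, ← zpow_one_add]
        congr 2
        omega
      rw [hn, h1] at h2
      have h3 : σ ((σ ^ m) x) = p (q ((σ ^ m) x)) := by simp [hσ]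
      rw [h3] at h2
      exact (p.injective h2).symm
  let cls : α → Set α := fun x => {y | σ.SameCycle x y}
  have hcls : ∀ x y, σ.SameCycle x y → cls x = cls y := by
    intro x y hxy
    ext z
    exact ⟨fun hz => hxy.symm.trans hz, fun hz => hxy.trans hz⟩
  have hne : ∀ x, cls x ≠ cls (p x) := by
    intro x hx
    apply hkey x
    have : p x ∈ cls (p x) := Equiv.Perm.SameCycle.refl _ _
    rw [← hx] at this
    exact this
  have hpp : ∀ x, p (p x) = x := fun x => by rw [← Equiv.Perm.mul_apply, hp]; rfl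
  have hqq : ∀ x, q (q x) = x := fun x => by rw [← Equiv.Perm.mul_apply, hq]; rfl
  have h1 : ∀ x, cls (q x) = cls (p x) := by
    intro x
    apply hcls
    refine ⟨1, ?_⟩
    simp [hσ, hqq]
  have h2 : ∀ x, cls (p (q x)) = cls x := by
    intro x
    symm
    apply hcls
    refine ⟨1, ?_⟩
    simp [hσ]
  let r : Set α → Set α → Prop := WellOrderingRel
  have hr : ∀ a b, a ≠ b → (r a b ↔ ¬ r b a) := by
    intro a b hab
    constructor
    · exact fun h1 h2 => asymm_of r h1 h2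
    · intro h1
      rcases trichotomous_of r a b with h | h | h
      · exact h
      · exact absurd h hab
      · exact absurd h h1
  refine ⟨fun x => decide (r (cls x) (cls (p x))), fun x => ⟨?_, ?_⟩⟩
  · simp only [hpp]
    intro hh
    rw [decide_eq_decide] at hh
    have := hr _ _ (hne x)
    tauto
  · simp only [h1, h2]
    intro hh
    rw [decide_eq_decide] at hh
    have := hr _ _ (hne x)
    tauto

/-- a symmetric irreflexive functional relation -/
structure IsMatch {E : Type} (M : E → E → Prop) : Prop where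
  symm : ∀ a b, M a b → M b a
  irrefl : ∀ a, ¬ M a a
  func : ∀ a b c, M a b → M a c → b = c

theorem IsMatch.exists_perm {E : Type} {M : E → E → Prop} (hM : IsMatch M) :
    ∃ p : Equiv.Perm (E × Bool), p * p = 1 ∧ (∀ x, p x ≠ x) ∧
      ∀ a b s, M a b → p (a, s) = (b, s) := by
  classical
  let g : E × Bool → E × Bool := fun x =>
    if h : ∃ b, M x.1 b then (h.choose, x.2) else (x.1, !x.2)
  have hg1 : ∀ a b s, M a b → g (a, s) = (b, s) := by
    intro a b s hab
    have h : ∃ b, M a b := ⟨b, hab⟩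
    simp only [g, dif_pos h]
    rw [hM.func a _ b h.choose_spec hab]
  have hg2 : ∀ a s, (¬ ∃ b, M a b) → g (a, s) = (a, !s) := by
    intro a s h
    simp only [g, dif_neg h]
  have hinv : Function.Involutive g := by
    rintro ⟨a, s⟩
    by_cases h : ∃ b, M a b
    · obtain ⟨b, hb⟩ := h
      rw [hg1 a b s hb, hg1 b a s (hM.symm a b hb)]
    · rw [hg2 a s h, hg2 a _ h]
      simp
  refine ⟨hinv.toPerm g, ?_, ?_, ?_⟩
  · ext1 x
    exact hinv x
  · rintro ⟨a, s⟩
    show g (a, s) ≠ (a, s)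
    by_cases h : ∃ b, M a b
    · obtain ⟨b, hb⟩ := h
      rw [hg1 a b s hb]
      intro hh
      have : b = a := congrArg Prod.fst hh
      subst this
      exact hM.irrefl _ hb
    · rw [hg2 a s h]
      intro hh
      have : (!s) = s := congrArg Prod.snd hh
      simp at this
  · intro a b s hab
    exact hg1 a b s hab

theorem two_matchings {E : Type} {M N : E → E → Prop} (hM : IsMatch M) (hN : IsMatch N) :
    ∃ χ : E → Bool, (∀ a b, M a b → χ a ≠ χ b) ∧ (∀ a b, N a b → χ a ≠ χ b) := by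
  obtain ⟨p, hp, hp', hp''⟩ := hM.exists_perm
  obtain ⟨q, hq, hq', hq''⟩ := hN.exists_perm
  obtain ⟨χ, hχ⟩ := two_invol p q hp hq hp' hq'
  refine ⟨fun a => χ (a, true), fun a b hab => ?_, fun a b hab => ?_⟩
  · have := (hχ (a, true)).1
    rw [hp'' a b true hab] at this
    exact this.symm
  · have := (hχ (a, true)).2
    rw [hq'' a b true hab] at this
    exact this.symm

variable {V E : Type} [DecidableEq V] [DecidableEq E] [Fintype V]
variable {κ : Type} [Fintype κ] [DecidableEq κ] [Nonempty κ]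

/-- every nonempty subset of `S` is entered by an arc of every colour -/
def Valid (t h : E → V) (A : Finset E) (S : Finset V) (ψ : E → κ) : Prop :=
  ∀ c (U : Finset V), U.Nonempty → U ⊆ S → ∃ e ∈ A, ψ e = c ∧ h e ∈ U ∧ t e ∉ U

theorem exists_valid (t h : E → V) (A : Finset E) (S : Finset V)
    (hc : ∀ U : Finset V, U.Nonempty → U ⊆ S → Fintype.card κ ≤ (ent t h A U).card) :
    ∃ ψ : E → κ, Valid t h A S ψ := by
  obtain ⟨f, hf⟩ := edmonds (κ := κ) t h A (fun _ => Sᶜ) (by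
    intro U hU
    by_cases hs : U ⊆ S
    · refine le_trans ?_ (hc U hU hs)
      unfold dem
      exact card_le_univ _
    · have : dem (κ := κ) (fun _ => Sᶜ) U = 0 := by
        unfold dem
        rw [card_eq_zero, filter_eq_empty_iff]
        intro c _ hd
        apply hs
        intro x hx
        by_contra hxS
        exact disjoint_left.1 hd (mem_compl.2 hxS) hx
      omega)
  refine ⟨f, fun c U hU hs => hf c U hU ?_⟩
  exact disjoint_left.2 (fun x hx hxU => (mem_compl.1 hx) (hs hxU))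

theorem exchange (t h : E → V) (A : Finset E) (S : Finset V) (Sh : Finset E)
    (hSh : ∀ e ∈ Sh, t e ∉ S) (ψ : E → κ) (hψ : Valid t h A S ψ) (i j : κ) (hij : i ≠ j) :
    ∃ M : E → E → Prop, IsMatch M ∧ ∀ χ : E → Bool, (∀ a b, M a b → χ a ≠ χ b) →
      ∃ ψ' : E → κ, Valid t h A S ψ' ∧
        (∀ e ∈ Sh, (ψ e = i ∨ ψ e = j) → ψ' e = if χ e then i else j) ∧
        (∀ e ∈ Sh, ¬ (ψ e = i ∨ ψ e = j) → ψ' e = ψ e) := by
  classical
  let Pr : Finset E := A.filter (fun e => e ∉ Sh ∧ (ψ e = i ∨ ψ e = j))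
  let Z : Finset V → Prop := fun U => U.Nonempty ∧ U ⊆ S ∧ ent t h Pr U = ∅
  let Zm : Finset V → Prop := fun K => Z K ∧ ∀ U, Z U → U ⊆ K → U = K
  have hZmin : ∀ U, Z U → ∃ K, Zm K ∧ K ⊆ U := by
    intro U hU
    obtain ⟨K, hK, hKmin⟩ := exists_min_image (univ.filter (fun K => Z K ∧ K ⊆ U)) card
      ⟨U, by simpa using hU⟩
    have hK' := (mem_filter.1 hK).2
    refine ⟨K, ⟨hK'.1, fun W hW hWK => ?_⟩, hK'.2⟩
    apply eq_of_subset_of_card_le hWK
    exact hKmin W (by simpa using ⟨hW, hWK.trans hK'.2⟩)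
  have hZdisj : ∀ K K' x, Zm K → Zm K' → x ∈ K → x ∈ K' → K = K' := by
    intro K K' x hK hK' hx hx'
    have hI : Z (K ∩ K') := by
      refine ⟨⟨x, mem_inter.2 ⟨hx, hx'⟩⟩, inter_subset_left.trans hK.1.2.1, ?_⟩
      rw [eq_empty_iff_forall_notMem]
      intro e he
      rw [mem_ent, mem_inter, mem_inter] at he
      obtain ⟨h1, ⟨h2, h3⟩, h4⟩ := he
      by_cases h5 : t e ∈ K
      · have : e ∈ ent t h Pr K' := mem_ent.2 ⟨h1, h3, fun h6 => h4 ⟨h5, h6⟩⟩
        rw [hK'.1.2.2] at this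
        simp at this
      · have : e ∈ ent t h Pr K := mem_ent.2 ⟨h1, h2, h5⟩
        rw [hK.1.2.2] at this
        simp at this
    rw [← hK.2 _ hI inter_subset_left]
    exact hK'.2 _ hI inter_subset_right
  have hch : ∀ (c : κ) (K : Finset V), ∃ e : Option E, (c = i ∨ c = j) → Z K →
      ∃ e', e = some e' ∧ e' ∈ A ∧ e' ∈ Sh ∧ ψ e' = c ∧ h e' ∈ K := by
    intro c K
    by_cases hh : (c = i ∨ c = j) ∧ Z K
    · obtain ⟨e, he, h1, h2, h3⟩ := hψ c K hh.2.1 hh.2.2.1
      refine ⟨some e, fun _ _ => ⟨e, rfl, he, ?_, h1, h2⟩⟩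
      by_contra hns
      have : e ∈ ent t h Pr K := by
        refine mem_ent.2 ⟨mem_filter.2 ⟨he, hns, ?_⟩, h2, h3⟩
        rw [h1]; exact hh.1
      rw [hh.2.2.2] at this
      simp at this
    · exact ⟨none, fun h1 h2 => absurd ⟨h1, h2⟩ hh⟩
  choose ch hch using hch
  let M : E → E → Prop := fun a b => ∃ K, Zm K ∧
    ((ch i K = some a ∧ ch j K = some b) ∨ (ch j K = some a ∧ ch i K = some b))
  have hchi : ∀ K a, Zm K → ch i K = some a → ψ a = i ∧ h a ∈ K := by
    intro K a hK ha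
    obtain ⟨e', h1, _, _, h4, h5⟩ := hch i K (Or.inl rfl) hK.1
    rw [h1] at ha
    obtain rfl := Option.some.inj ha
    exact ⟨h4, h5⟩
  have hchj : ∀ K a, Zm K → ch j K = some a → ψ a = j ∧ h a ∈ K := by
    intro K a hK ha
    obtain ⟨e', h1, _, _, h4, h5⟩ := hch j K (Or.inr rfl) hK.1
    rw [h1] at ha
    obtain rfl := Option.some.inj ha
    exact ⟨h4, h5⟩
  refine ⟨M, ⟨?_, ?_, ?_⟩, ?_⟩
  · rintro a b ⟨K, hK, h1 | h1⟩
    · exact ⟨K, hK, Or.inr ⟨h1.2, h1.1⟩⟩
    · exact ⟨K, hK, Or.inl ⟨h1.2, h1.1⟩⟩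
  · rintro a ⟨K, hK, h1 | h1⟩
    · exact hij ((hchi K a hK h1.1).1.symm.trans (hchj K a hK h1.2).1)
    · exact hij ((hchi K a hK h1.2).1.symm.trans (hchj K a hK h1.1).1)
  · rintro a b c ⟨K, hK, h1 | h1⟩ ⟨K', hK', h2 | h2⟩
    · obtain rfl := hZdisj K K' _ hK hK' (hchi K a hK h1.1).2 (hchi K' a hK' h2.1).2
      exact Option.some.inj (h1.2.symm.trans h2.2)
    · exact absurd ((hchi K a hK h1.1).1.symm.trans (hchj K' a hK' h2.1).1) hij
    · exact absurd ((hchi K' a hK' h2.1).1.symm.trans (hchj K a hK h1.1).1) hij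
    · obtain rfl := hZdisj K K' _ hK hK' (hchj K a hK h1.1).2 (hchj K' a hK' h2.1).2
      exact Option.some.inj (h1.2.symm.trans h2.2)
  intro χ hχ
  let col : E → κ := fun e => if χ e then i else j
  have hcol : ∀ e, col e = i ∨ col e = j := by
    intro e
    simp only [col]
    split_ifs <;> simp
  let Q : Finset E := A.filter (fun e => e ∈ Sh ∧ (ψ e = i ∨ ψ e = j))
  let T : κ → Finset V := fun c =>
    if c = i ∨ c = j then Sᶜ ∪ (Q.filter (fun e => col e = c)).image h else univ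
  have hT1 : ∀ c U, U.Nonempty → Disjoint (T c) U → (c = i ∨ c = j) ∧ U ⊆ S ∧
      ∀ e ∈ Q, col e = c → h e ∉ U := by
    intro c U hU hd
    by_cases hc : c = i ∨ c = j
    · simp only [T, if_pos hc, disjoint_union_left] at hd
      refine ⟨hc, fun x hx => ?_, fun e he hce hh => ?_⟩
      · by_contra hxS
        exact disjoint_left.1 hd.1 (mem_compl.2 hxS) hx
      · exact disjoint_left.1 hd.2 (mem_image.2 ⟨e, mem_filter.2 ⟨he, hce⟩, rfl⟩) hh
    · simp only [T, if_neg hc] at hd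
      obtain ⟨x, hx⟩ := hU
      exact absurd hx (disjoint_left.1 hd (mem_univ x))
  obtain ⟨f, hf⟩ := edmonds (κ := κ) t h Pr T (by
    intro U hU
    by_cases h0 : ent t h Pr U = ∅
    · have : dem T U = 0 := by
        unfold dem
        rw [card_eq_zero, filter_eq_empty_iff]
        intro c _ hd
        obtain ⟨hc, hUS, hno⟩ := hT1 c U hU hd
        obtain ⟨K, hK, hKU⟩ := hZmin U ⟨hU, hUS, h0⟩
        obtain ⟨a, a1, a2, a3, a4, a5⟩ := hch i K (Or.inl rfl) hK.1
        obtain ⟨b, b1, b2, b3, b4, b5⟩ := hch j K (Or.inr rfl) hK.1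
        have hab : χ a ≠ χ b := hχ a b ⟨K, hK, Or.inl ⟨a1, b1⟩⟩
        have haQ : a ∈ Q := mem_filter.2 ⟨a2, a3, Or.inl a4⟩
        have hbQ : b ∈ Q := mem_filter.2 ⟨b2, b3, Or.inr b4⟩
        have ha := fun hh => hno a haQ hh (hKU a5)
        have hb := fun hh => hno b hbQ hh (hKU b5)
        simp only [col] at ha hb
        rcases hc with rfl | rfl <;> cases hxa : χ a <;> cases hxb : χ b <;> simp_all
      omega
    · have hpos : 1 ≤ (ent t h Pr U).card := card_pos.2 (nonempty_iff_ne_empty.2 h0)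
      by_cases hboth : Disjoint (T i) U ∧ Disjoint (T j) U
      · obtain ⟨_, hUS, hnoi⟩ := hT1 i U hU hboth.1
        obtain ⟨_, _, hnoj⟩ := hT1 j U hU hboth.2
        have hpr : ∀ e ∈ A, (ψ e = i ∨ ψ e = j) → h e ∈ U → e ∈ Pr := by
          intro e he hc hh
          refine mem_filter.2 ⟨he, fun hs => ?_, hc⟩
          have heQ : e ∈ Q := mem_filter.2 ⟨he, hs, hc⟩
          rcases hcol e with h1 | h1
          · exact hnoi e heQ h1 hh
          · exact hnoj e heQ h1 hh
        obtain ⟨a, a1, a2, a3, a4⟩ := hψ i U hU hUS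
        obtain ⟨b, b1, b2, b3, b4⟩ := hψ j U hU hUS
        have hab : a ≠ b := fun hh => hij (by rw [← a2, ← b2, hh])
        have h2 : ({a, b} : Finset E) ⊆ ent t h Pr U := by
          intro e he
          rcases mem_insert.1 he with rfl | he
          · exact mem_ent.2 ⟨hpr _ a1 (Or.inl a2) a3, a3, a4⟩
          · obtain rfl := mem_singleton.1 he
            exact mem_ent.2 ⟨hpr _ b1 (Or.inr b2) b3, b3, b4⟩
        have h3 := card_le_card h2
        rw [card_pair hab] at h3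
        have h4 : dem T U ≤ 2 := by
          unfold dem
          have : univ.filter (fun c => Disjoint (T c) U) ⊆ {i, j} := by
            intro c hc
            have := (hT1 c U hU (mem_filter.1 hc).2).1
            simpa using this
          exact (card_le_card this).trans card_le_two
        omega
      · have h4 : dem T U ≤ 1 := by
          unfold dem
          rw [card_le_one]
          intro c hc d hd
          have hc1 := (mem_filter.1 hc).2
          have hd1 := (mem_filter.1 hd).2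
          have hc2 := (hT1 c U hU hc1).1
          have hd2 := (hT1 d U hU hd1).1
          rcases hc2 with rfl | rfl <;> rcases hd2 with rfl | rfl
          · rfl
          · exact absurd ⟨hc1, hd1⟩ hboth
          · exact absurd ⟨hd1, hc1⟩ hboth
          · rfl
        omega)
  refine ⟨fun e => if ψ e = i ∨ ψ e = j then (if e ∈ Sh then col e else f e) else ψ e, ?_, ?_, ?_⟩
  · intro c U hU hUS
    by_cases hc : c = i ∨ c = j
    · by_cases hd : Disjoint (T c) U
      · obtain ⟨e, he, h1, h2⟩ := hf c U hU hd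
        obtain ⟨e1, e2, e3⟩ := mem_filter.1 he
        refine ⟨e, e1, ?_, h2⟩
        simp only [if_pos e3, if_neg e2, h1]
      · simp only [T, if_pos hc, disjoint_union_left] at hd
        have hd1 : Disjoint Sᶜ U :=
          disjoint_left.2 (fun x hx hxU => (mem_compl.1 hx) (hUS hxU))
        have hd2 : ¬ Disjoint ((Q.filter (fun e => col e = c)).image h) U :=
          fun hh => hd ⟨hd1, hh⟩
        rw [not_disjoint_iff] at hd2
        obtain ⟨x, hx1, hx2⟩ := hd2
        obtain ⟨e, he, rfl⟩ := mem_image.1 hx1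
        obtain ⟨heQ, hce⟩ := mem_filter.1 he
        obtain ⟨e1, e2, e3⟩ := mem_filter.1 heQ
        refine ⟨e, e1, ?_, hx2, fun hh => hSh e e2 (hUS hh)⟩
        simp only [if_pos e3, if_pos e2, hce]
    · obtain ⟨e, he, h1, h2⟩ := hψ c U hU hUS
      refine ⟨e, he, ?_, h2⟩
      simp only [h1, if_neg hc]
  · intro e he hc
    simp only [if_pos hc, if_pos he, col]
  · intro e _ hc
    simp only [if_neg hc]

/-- Schrijver's disjoint bibranchings theorem, cut form -/
theorem bibranch (t h : E → V) (A : Finset E) (R S : Finset V) (hRS : Disjoint R S)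
    (hS : ∀ U : Finset V, U.Nonempty → U ⊆ S → Fintype.card κ ≤ (ent t h A U).card)
    (hR : ∀ U : Finset V, U.Nonempty → U ⊆ R → Fintype.card κ ≤ (ent h t A U).card) :
    ∃ ψ : E → κ, Valid t h A S ψ ∧ Valid h t A R ψ := by
  classical
  let Sh : Finset E := A.filter (fun e => t e ∈ R ∧ h e ∈ S)
  have hSh1 : ∀ e ∈ Sh, t e ∉ S := fun e he => disjoint_left.1 hRS (mem_filter.1 he).2.1
  have hSh2 : ∀ e ∈ Sh, h e ∉ R := fun e he => disjoint_right.1 hRS (mem_filter.1 he).2.2
  have key : ∀ n : ℕ, ∀ φ ψ : E → κ, Valid t h A S φ → Valid h t A R ψ →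
      (Sh.filter (fun e => φ e ≠ ψ e)).card = n →
      ∃ φ ψ : E → κ, Valid t h A S φ ∧ Valid h t A R ψ ∧ ∀ e ∈ Sh, φ e = ψ e := by
    intro n
    induction n using Nat.strong_induction_on with
    | _ n ih =>
    intro φ ψ hφ hψ hn
    by_cases hall : ∀ e ∈ Sh, φ e = ψ e
    · exact ⟨φ, ψ, hφ, hψ, hall⟩
    push Not at hall
    obtain ⟨a, ha, hne⟩ := hall
    obtain ⟨M, hM, hM'⟩ := exchange t h A S Sh hSh1 φ hφ (φ a) (ψ a) hne
    obtain ⟨N, hN, hN'⟩ := exchange h t A R Sh hSh2 ψ hψ (φ a) (ψ a) hne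
    obtain ⟨χ, hχ1, hχ2⟩ := two_matchings hM hN
    obtain ⟨φ', p1, p2, p3⟩ := hM' χ hχ1
    obtain ⟨ψ', q1, q2, q3⟩ := hN' χ hχ2
    refine ih _ ?_ φ' ψ' p1 q1 rfl
    rw [← hn]
    apply card_lt_card
    constructor
    · intro e he
      obtain ⟨e1, e2⟩ := mem_filter.1 he
      refine mem_filter.2 ⟨e1, fun hh => e2 ?_⟩
      by_cases hc : φ e = φ a ∨ φ e = ψ a
      · rw [p2 e e1 hc, q2 e e1 (hh ▸ hc)]
      · rw [p3 e e1 hc, q3 e e1 (hh ▸ hc), hh]
    · intro hh
      have := (mem_filter.1 (hh (mem_filter.2 ⟨ha, hne⟩))).2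
      apply this
      rw [p2 a ha (Or.inl rfl), q2 a ha (Or.inr rfl)]
  obtain ⟨φ0, hφ0⟩ := exists_valid t h A S hS
  obtain ⟨ψ0, hψ0⟩ := exists_valid h t A R hR
  obtain ⟨φ, ψ, hφ, hψ, hag⟩ := key _ φ0 ψ0 hφ0 hψ0 rfl
  refine ⟨fun e => if h e ∈ S then φ e else ψ e, ?_, ?_⟩
  · intro c U hU hUS
    obtain ⟨e, he, h1, h2, h3⟩ := hφ c U hU hUS
    exact ⟨e, he, by simp only [if_pos (hUS h2), h1], h2, h3⟩
  · intro c U hU hUR
    obtain ⟨e, he, h1, h2, h3⟩ := hψ c U hU hUR
    refine ⟨e, he, ?_, h2, h3⟩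
    by_cases hs : h e ∈ S
    · simp only [if_pos hs]
      rw [hag e (mem_filter.2 ⟨he, hUR h2, hs⟩), h1]
    · simp only [if_neg hs, h1]

end Pool.Agent.Lib.MP_44ed1d_co
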