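import Mathlib
import Pool.Agent.Lib.MP_44ed1d_co.Bibranch

set_option autoImplicit false
set_option linter.unusedSectionVars false

namespace Pool.Agent.Lib.MP_44ed1d_co

open Finset

theorem trans_list {α : Type} (r : α → α → Prop) (m : ℕ) :
    ∀ P : Finset α, (∀ u ∈ P, ∀ v ∈ P, u ≠ v → r u v ∨ r v u) → 2 ^ m ≤ P.card →
      ∃ l : List α, l.length = m ∧ (∀ x ∈ l, x ∈ P) ∧ l.Pairwise (fun a b => r a b ∧ a ≠ b) := by
  classical
  induction m with
  | zero => intro P _ _; exact ⟨[], rfl, by simp, List.Pairwise.nil⟩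
  | succ m ih =>
    intro P hP hc
    have hpos : 0 < 2 ^ m := Nat.two_pow_pos m
    have hne : P.Nonempty := card_pos.1 (by rw [pow_succ] at hc; omega)
    obtain ⟨v, hv⟩ := hne
    have hsum := card_filter_add_card_filter_not (s := P.erase v) (fun x => r v x)
    rw [card_erase_of_mem hv] at hsum
    rw [pow_succ] at hc
    by_cases h1 : 2 ^ m ≤ ((P.erase v).filter (fun x => r v x)).card
    · obtain ⟨l, l1, l2, l3⟩ := ih _ (fun a ha b hb hab =>
        hP a (mem_of_mem_erase (mem_filter.1 ha).1) b (mem_of_mem_erase (mem_filter.1 hb).1) hab) h1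
      refine ⟨v :: l, by simp [l1], ?_, ?_⟩
      · intro x hx
        rcases List.mem_cons.1 hx with rfl | hx
        · exact hv
        · exact mem_of_mem_erase (mem_filter.1 (l2 x hx)).1
      · refine List.Pairwise.cons (fun x hx => ?_) l3
        have := mem_filter.1 (l2 x hx)
        exact ⟨this.2, (ne_of_mem_erase this.1).symm⟩
    · have h2 : 2 ^ m ≤ ((P.erase v).filter (fun x => ¬ r v x)).card := by omega
      obtain ⟨l, l1, l2, l3⟩ := ih _ (fun a ha b hb hab =>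
        hP a (mem_of_mem_erase (mem_filter.1 ha).1) b (mem_of_mem_erase (mem_filter.1 hb).1) hab) h2
      refine ⟨l ++ [v], by simp [l1], ?_, ?_⟩
      · intro x hx
        rcases List.mem_append.1 hx with hx | hx
        · exact mem_of_mem_erase (mem_filter.1 (l2 x hx)).1
        · rw [List.mem_singleton.1 hx]; exact hv
      · rw [List.pairwise_append]
        refine ⟨l3, List.pairwise_singleton _ _, fun x hx y hy => ?_⟩
        rw [List.mem_singleton.1 hy]
        have := mem_filter.1 (l2 x hx)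
        have hxv := ne_of_mem_erase this.1
        refine ⟨?_, hxv⟩
        rcases hP x (mem_of_mem_erase this.1) v hv hxv with h | h
        · exact h
        · exact absurd h this.2

theorem trans_seq {α : Type} (r : α → α → Prop) (m : ℕ) (P : Finset α)
    (hP : ∀ u ∈ P, ∀ v ∈ P, u ≠ v → r u v ∨ r v u) (hc : 2 ^ m ≤ P.card) :
    ∃ f : ℕ → α, (∀ i, i < m → f i ∈ P) ∧ ∀ i j, i < j → j < m → r (f i) (f j) ∧ f i ≠ f j := by
  obtain ⟨l, l1, l2, l3⟩ := trans_list r m P hP hc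
  have hne : P.Nonempty := card_pos.1 (lt_of_lt_of_le (Nat.two_pow_pos m) hc)
  obtain ⟨v, _⟩ := hne
  refine ⟨fun i => if h : i < l.length then l[i] else v, fun i hi => ?_, fun i j hij hj => ?_⟩
  · have : i < l.length := by omega
    simp only [dif_pos this]
    exact l2 _ (List.getElem_mem this)
  · have h1 : i < l.length := by omega
    have h2 : j < l.length := by omega
    simp only [dif_pos h1, dif_pos h2]
    exact List.pairwise_iff_getElem.1 l3 i j h1 h2 hij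

variable {V E : Type} [DecidableEq V] [DecidableEq E] [Fintype V]

open Classical in
theorem crit_count (t h : E → V) (A : Finset E) (B : Finset V) (k : ℕ)
    (hcut : ∀ X : Finset V, X.Nonempty → X ⊆ B → k ≤ (ent t h A X).card)
    (hsc : ∀ u ∈ B, ∀ w ∈ B, u ≠ w →
      (∃ e ∈ A, t e = u ∧ h e = w) ∨ (∃ e ∈ A, t e = w ∧ h e = u)) :
    (A.filter (fun e => t e ∉ B ∧ ∃ X : Finset V, X ⊆ B ∧ h e ∈ X ∧
      (ent t h A X).card ≤ k)).card ≤ k * 2 ^ (k + 2) := by
  let Ti : Finset V → Prop := fun X => X ⊆ B ∧ (ent t h A X).card ≤ k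
  let Mx : Finset (Finset V) :=
    univ.filter (fun X => X.Nonempty ∧ Ti X ∧ ∀ Y, Ti Y → X ⊆ Y → Y = X)
  have hMx : ∀ X, X ∈ Mx ↔ X.Nonempty ∧ Ti X ∧ ∀ Y, Ti Y → X ⊆ Y → Y = X := by
    intro X; simp [Mx]
  have hmax : ∀ X, X.Nonempty → Ti X → ∃ Y ∈ Mx, X ⊆ Y := by
    intro X hX hT
    obtain ⟨Y, hY, hYmax⟩ := exists_max_image (univ.filter (fun Y => Ti Y ∧ X ⊆ Y)) card
      ⟨X, by simpa using hT⟩
    have hY' := (mem_filter.1 hY).2
    refine ⟨Y, (hMx Y).2 ⟨hX.mono hY'.2, hY'.1, fun W hW hYW => ?_⟩, hY'.2⟩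
    symm
    apply eq_of_subset_of_card_le hYW
    exact hYmax W (by simpa using ⟨hW, hY'.2.trans hYW⟩)
  have hdisj : ∀ X ∈ Mx, ∀ Y ∈ Mx, ∀ x, x ∈ X → x ∈ Y → X = Y := by
    intro X hX Y hY x hx hy
    obtain ⟨_, hX2, hX3⟩ := (hMx X).1 hX
    obtain ⟨_, hY2, hY3⟩ := (hMx Y).1 hY
    have hU : Ti (X ∪ Y) := by
      refine ⟨union_subset hX2.1 hY2.1, ?_⟩
      have s1 := ent_submod t h A X Y
      have s2 := hcut (X ∩ Y) ⟨x, mem_inter.2 ⟨hx, hy⟩⟩ (inter_subset_left.trans hX2.1)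
      have s3 := hX2.2
      have s4 := hY2.2
      omega
    rw [← hX3 _ hU subset_union_left]
    exact hY3 _ hU subset_union_right
  have hcard : Mx.card ≤ 2 ^ (k + 2) := by
    by_contra hlt
    push Not at hlt
    obtain ⟨f, f1, f2⟩ := trans_seq (fun X Y : Finset V => ∃ e ∈ A, t e ∈ X ∧ h e ∈ Y) (k + 2) Mx
      (by
        intro X hX Y hY hXY
        obtain ⟨⟨x, hx⟩, hX2, _⟩ := (hMx X).1 hX
        obtain ⟨⟨y, hy⟩, hY2, _⟩ := (hMx Y).1 hY
        have hxy : x ≠ y := fun hh => hXY (hdisj X hX Y hY x hx (hh ▸ hy))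
        rcases hsc x (hX2.1 hx) y (hY2.1 hy) hxy with ⟨e, he, h1, h2⟩ | ⟨e, he, h1, h2⟩
        · exact Or.inl ⟨e, he, h1 ▸ hx, h2 ▸ hy⟩
        · exact Or.inr ⟨e, he, h1 ▸ hy, h2 ▸ hx⟩) hlt.le
    have hex : ∀ i : Fin (k + 1), ∃ e ∈ A, t e ∈ f i ∧ h e ∈ f (k + 1) :=
      fun i => (f2 i (k + 1) i.2 (by omega)).1
    choose g g1 g2 g3 using hex
    have hL := f1 (k + 1) (by omega)
    have hle : (univ : Finset (Fin (k + 1))).card ≤ (ent t h A (f (k + 1))).card := by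
      apply card_le_card_of_injOn g
      · intro i _
        refine mem_coe.2 (mem_ent.2 ⟨g1 i, g3 i, fun hh => ?_⟩)
        exact (f2 i (k + 1) i.2 (by omega)).2 (hdisj _ (f1 i (by omega)) _ hL _ (g2 i) hh)
      · intro i _ j _ hij
        by_contra hne
        have hne' : (i : ℕ) ≠ j := fun hh => hne (Fin.ext hh)
        have heq : f i = f j :=
          hdisj _ (f1 i (by omega)) _ (f1 j (by omega)) _ (g2 i) (hij ▸ g2 j)
        rcases lt_or_gt_of_ne hne' with hh | hh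
        · exact (f2 i j hh (by omega)).2 heq
        · exact (f2 j i hh (by omega)).2 heq.symm
    have := ((hMx _).1 hL).2.1.2
    simp at hle
    omega
  calc _ ≤ (Mx.biUnion (fun X => ent t h A X)).card := by
        apply card_le_card
        intro e he
        obtain ⟨e1, e2, X, x1, x2, x3⟩ := mem_filter.1 he
        obtain ⟨Y, hY, hXY⟩ := hmax X ⟨_, x2⟩ ⟨x1, x3⟩
        refine mem_biUnion.2 ⟨Y, hY, mem_ent.2 ⟨e1, hXY x2, fun hh => e2 ?_⟩⟩
        exact ((hMx Y).1 hY).2.1.1 hh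
    _ ≤ Mx.card * k := by
        apply card_biUnion_le_card_mul
        intro X hX
        exact ((hMx X).1 hX).2.1.2
    _ ≤ k * 2 ^ (k + 2) := by
        rw [mul_comm]
        exact Nat.mul_le_mul_left _ hcard

variable {κ : Type} [Fintype κ] [DecidableEq κ] [Nonempty κ]

/-- `Z` is closed under the arcs of colour `c` -/
def Closed (Adj : V → V → Prop) (f : V → V → κ) (c : κ) (Z : Finset V) : Prop :=
  ∀ a b, Adj a b → f a b = c → a ∈ Z → b ∈ Z

/-- a colouring all of whose colour classes are strong -/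
def Dec (Adj : V → V → Prop) (κ : Type) : Prop :=
  ∃ f : V → V → κ, ∀ (c : κ) (Z : Finset V), Z.Nonempty → Closed Adj f c Z → ∀ v, v ∈ Z

/-- arcs leaving `U` -/
abbrev outc (A : Finset (V × V)) (U : Finset V) : Finset (V × V) := ent Prod.snd Prod.fst A U

/-- arcs entering `U` -/
abbrev inc (A : Finset (V × V)) (U : Finset V) : Finset (V × V) := ent Prod.fst Prod.snd A U

theorem glue (Adj : V → V → Prop) (A : Finset (V × V)) (hA : ∀ e ∈ A, Adj e.1 e.2)
    (R S : Finset V) (hRS : Disjoint R S)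
    (hS : ∀ U : Finset V, U.Nonempty → U ⊆ S → Fintype.card κ ≤ (inc A U).card)
    (hR : ∀ U : Finset V, U.Nonempty → U ⊆ R → Fintype.card κ ≤ (outc A U).card)
    (χ : V → V → κ) :
    ∃ f : V → V → κ, (∀ a b, (a, b) ∉ A → f a b = χ a b) ∧
      (∀ c Z, Closed Adj f c Z → ∀ z ∈ Z, z ∈ R →
        ∃ a b, (a, b) ∈ A ∧ f a b = c ∧ a ∈ Z ∧ a ∈ R ∧ b ∈ Z ∧ b ∉ R) ∧
      (∀ c Z, Closed Adj f c Z → ∀ z ∈ S, z ∉ Z →
        ∃ a b, (a, b) ∈ A ∧ f a b = c ∧ a ∉ Z ∧ a ∉ S ∧ b ∉ Z ∧ b ∈ S) := by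
  obtain ⟨ψ, h1, h2⟩ := bibranch (κ := κ) Prod.fst Prod.snd A R S hRS hS hR
  refine ⟨fun a b => if (a, b) ∈ A then ψ (a, b) else χ a b, ?_, ?_, ?_⟩
  · intro a b hab
    simp only [if_neg hab]
  · intro c Z hZ z hz hzR
    obtain ⟨⟨a, b⟩, he, e1, e2, e3⟩ := h2 c (Z ∩ R) ⟨z, mem_inter.2 ⟨hz, hzR⟩⟩ inter_subset_right
    have hf : (if (a, b) ∈ A then ψ (a, b) else χ a b) = c := by simp only [if_pos he, e1]
    have hb : b ∈ Z := hZ a b (hA _ he) hf (mem_inter.1 e2).1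
    exact ⟨a, b, he, hf, (mem_inter.1 e2).1, (mem_inter.1 e2).2, hb,
      fun hh => e3 (mem_inter.2 ⟨hb, hh⟩)⟩
  · intro c Z hZ z hz hzZ
    obtain ⟨⟨a, b⟩, he, e1, e2, e3⟩ := h1 c (S \ Z) ⟨z, mem_sdiff.2 ⟨hz, hzZ⟩⟩ sdiff_subset
    have hf : (if (a, b) ∈ A then ψ (a, b) else χ a b) = c := by simp only [if_pos he, e1]
    have ha : a ∉ Z := fun hh => (mem_sdiff.1 e2).2 (hZ a b (hA _ he) hf hh)
    exact ⟨a, b, he, hf, ha, fun hh => e3 (mem_sdiff.2 ⟨hh, ha⟩), (mem_sdiff.1 e2).2,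
      (mem_sdiff.1 e2).1⟩

end Pool.Agent.Lib.MP_44ed1d_co
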