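import Mathlib
import Pool.Agent.Lib.MP_44ed1d_co.Tools

set_option autoImplicit false
set_option linter.unusedSectionVars false

namespace Pool.Agent.Lib.MP_44ed1d_co

open Finset

variable {V : Type} [DecidableEq V] [Fintype V]
variable {κ : Type} [Fintype κ] [DecidableEq κ] [Nonempty κ]

/-- every nontrivial cut has at least `k` leaving arcs -/
def KCut (A : Finset (V × V)) (k : ℕ) : Prop :=
  ∀ X : Finset V, X.Nonempty → Xᶜ.Nonempty → k ≤ (outc A X).card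

lemma inc_eq (A : Finset (V × V)) (U : Finset V) : inc A U = outc A Uᶜ := by
  ext e
  simp only [mem_ent, mem_compl, not_not]
  tauto

lemma KCut.out {A : Finset (V × V)} {k : ℕ} (hA : KCut A k) {U : Finset V} (hU : U.Nonempty)
    {x : V} (hx : x ∉ U) : k ≤ (outc A U).card :=
  hA U hU ⟨x, mem_compl.2 hx⟩

lemma KCut.inn {A : Finset (V × V)} {k : ℕ} (hA : KCut A k) {U : Finset V} (hU : U.Nonempty)
    {x : V} (hx : x ∉ U) : k ≤ (inc A U).card := by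
  rw [inc_eq]
  exact hA _ ⟨x, mem_compl.2 hx⟩ (by rwa [compl_compl])

theorem glue' (Adj : V → V → Prop) (A : Finset (V × V)) (hA : ∀ e ∈ A, Adj e.1 e.2)
    (R S : Finset V) (hRS : Disjoint R S)
    (hS : ∀ U : Finset V, U.Nonempty → U ⊆ S → Fintype.card κ ≤ (inc A U).card)
    (hR : ∀ U : Finset V, U.Nonempty → U ⊆ R → Fintype.card κ ≤ (outc A U).card)
    (χ : V → V → κ) :
    ∃ f : V → V → κ, (∀ a b, (a, b) ∉ A → f a b = χ a b) ∧
      (∀ a b, a ∉ R → b ∉ S → f a b = χ a b) ∧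
      (∀ c Z, Closed Adj f c Z → ∀ z ∈ Z, z ∈ R →
        ∃ a b, (a, b) ∈ A ∧ f a b = c ∧ a ∈ Z ∧ a ∈ R ∧ b ∈ Z ∧ b ∉ R) ∧
      (∀ c Z, Closed Adj f c Z → ∀ z ∈ S, z ∉ Z →
        ∃ a b, (a, b) ∈ A ∧ f a b = c ∧ a ∉ Z ∧ a ∉ S ∧ b ∉ Z ∧ b ∈ S) := by
  obtain ⟨f, f1, f2, f3⟩ := glue (κ := κ) Adj (A.filter (fun e => e.1 ∈ R ∨ e.2 ∈ S))
    (fun e he => hA e (mem_filter.1 he).1) R S hRS
    (by
      intro U hU hUS
      refine (hS U hU hUS).trans (card_le_card ?_)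
      intro e he
      rw [mem_ent] at he ⊢
      exact ⟨mem_filter.2 ⟨he.1, Or.inr (hUS he.2.1)⟩, he.2⟩)
    (by
      intro U hU hUR
      refine (hR U hU hUR).trans (card_le_card ?_)
      intro e he
      rw [mem_ent] at he ⊢
      exact ⟨mem_filter.2 ⟨he.1, Or.inl (hUR he.2.1)⟩, he.2⟩) χ
  refine ⟨f, fun a b hab => f1 a b (fun hh => hab (mem_filter.1 hh).1),
    fun a b ha hb => f1 a b (fun hh => ?_), fun c Z hZ z hz hzR => ?_, fun c Z hZ z hz hzZ => ?_⟩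
  · rcases (mem_filter.1 hh).2 with h | h
    · exact ha h
    · exact hb h
  · obtain ⟨a, b, h1, h2⟩ := f2 c Z hZ z hz hzR
    exact ⟨a, b, (mem_filter.1 h1).1, h2⟩
  · obtain ⟨a, b, h1, h2⟩ := f3 c Z hZ z hz hzZ
    exact ⟨a, b, (mem_filter.1 h1).1, h2⟩

theorem case_tight (Adj : V → V → Prop) (A : Finset (V × V)) (hA : ∀ e ∈ A, Adj e.1 e.2)
    (hcut : KCut A (Fintype.card κ)) (X : Finset V) (x0 : V) (hx0 : x0 ∈ X) (y0 : V) (hy0 : y0 ∉ X)
    (ht : (outc A X).card ≤ Fintype.card κ) (χ : V → V → κ)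
    (h1 : ∀ s, s ∉ X → ∀ c, ∃ r ∈ X, Adj s r ∧ χ s r = c)
    (h2 : ∀ r ∈ X, ∀ c, ∃ s, s ∉ X ∧ Adj s r ∧ χ s r = c) : Dec Adj κ := by
  obtain ⟨f, -, f1, f2, f3⟩ := glue' (κ := κ) Adj A hA X Xᶜ disjoint_compl_right
    (fun U hU hUS => hcut.inn hU (x := x0) (fun hh => (mem_compl.1 (hUS hh)) hx0))
    (fun U hU hUR => hcut.out hU (x := y0) (fun hh => hy0 (hUR hh))) χ
  have hsurj : Set.SurjOn (fun e : V × V => f e.1 e.2) (outc A X : Set (V × V))
      (univ : Finset κ) := by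
    intro c _
    obtain ⟨a, b, a1, a2, _, a4, _, a6⟩ :=
      f2 c univ (fun _ b _ _ _ => mem_univ b) x0 (mem_univ _) hx0
    exact ⟨(a, b), mem_coe.2 (mem_ent.2 ⟨a1, a4, a6⟩), a2⟩
  have hinj : Set.InjOn (fun e : V × V => f e.1 e.2) (outc A X : Set (V × V)) := by
    apply injOn_of_surjOn_of_card_le _ (fun _ _ => mem_coe.2 (mem_univ _)) hsurj
    simpa using ht
  refine ⟨f, fun c Z hZ hcl => ?_⟩
  have hz : ∃ z ∈ Z, z ∈ X := by
    obtain ⟨z, hz⟩ := hZ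
    by_cases hzX : z ∈ X
    · exact ⟨z, hz, hzX⟩
    · obtain ⟨r, r1, r2, r3⟩ := h1 z hzX c
      refine ⟨r, hcl z r r2 ?_ hz, r1⟩
      rw [f1 z r hzX (by simpa using r1), r3]
  obtain ⟨z, z1, z2⟩ := hz
  obtain ⟨a, b, a1, a2, a3, a4, a5, a6⟩ := f2 c Z hcl z z1 z2
  have hS : ∀ s, s ∉ X → s ∈ Z := by
    intro s hs
    by_contra hsZ
    obtain ⟨a', b', b1, b2, b3, b4, b5, b6⟩ := f3 c Z hcl s (mem_compl.2 hs) hsZ
    have : (a, b) = (a', b') := by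
      apply hinj (mem_coe.2 (mem_ent.2 ⟨a1, a4, a6⟩))
        (mem_coe.2 (mem_ent.2 ⟨b1, by simpa using b4, mem_compl.1 b6⟩))
      simp only [a2, b2]
    rw [← (Prod.mk.inj this).1] at b3
    exact b3 a3
  intro v
  by_cases hv : v ∈ X
  · obtain ⟨s, s1, s2, s3⟩ := h2 v hv c
    refine hcl s v s2 ?_ (hS s s1)
    rw [f1 s v s1 (by simpa using hv), s3]
  · exact hS v hv

theorem case_free (Adj : V → V → Prop) (A : Finset (V × V)) (hA : ∀ e ∈ A, Adj e.1 e.2)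
    (hcut : KCut A (Fintype.card κ)) (R S : Finset V) (hRS : Disjoint R S)
    (m0 : V) (hm1 : m0 ∉ R) (hm2 : m0 ∉ S)
    (hRM : ∀ a b, (a, b) ∈ A → a ∈ R → b ∉ R → b ∈ S)
    (hMS : ∀ a b, (a, b) ∈ A → b ∈ S → a ∉ S → a ∈ R) (χ : V → V → κ)
    (h1 : ∀ s, s ∉ R → ∀ c, ∃ r ∈ R, Adj s r ∧ χ s r = c)
    (h2 : ∀ r, r ∉ S → ∀ c, ∃ s ∈ S, Adj s r ∧ χ s r = c)
    (h3 : ∀ s ∈ S, ∀ r ∈ R, ∀ c, ∃ m, m ∉ R ∧ m ∉ S ∧ Adj s m ∧ Adj m r ∧ χ s m = c ∧ χ m r = c) :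
    Dec Adj κ := by
  obtain ⟨f, -, f1, f2, f3⟩ := glue' (κ := κ) Adj A hA R S hRS
    (fun U hU hUS => hcut.inn hU (x := m0) (fun hh => hm2 (hUS hh)))
    (fun U hU hUR => hcut.out hU (x := m0) (fun hh => hm1 (hUR hh))) χ
  refine ⟨f, fun c Z hZ hcl => ?_⟩
  have hz : ∃ z ∈ Z, z ∈ R := by
    obtain ⟨z, hz⟩ := hZ
    by_cases hzX : z ∈ R
    · exact ⟨z, hz, hzX⟩
    · obtain ⟨r, r1, r2, r3⟩ := h1 z hzX c
      refine ⟨r, hcl z r r2 ?_ hz, r1⟩
      rw [f1 z r hzX (disjoint_left.1 hRS r1), r3]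
  obtain ⟨z, z1, z2⟩ := hz
  obtain ⟨a, b, a1, a2, a3, a4, a5, a6⟩ := f2 c Z hcl z z1 z2
  have hbS := hRM a b a1 a4 a6
  have hR : ∀ r ∈ R, r ∈ Z := by
    intro r hr
    obtain ⟨m, m1, m2, m3, m4, m5, m6⟩ := h3 b hbS r hr c
    have hm : m ∈ Z := hcl b m m3 (by rw [f1 b m a6 m2, m5]) a5
    exact hcl m r m4 (by rw [f1 m r m1 (disjoint_left.1 hRS hr), m6]) hm
  have hS : ∀ s ∈ S, s ∈ Z := by
    intro s hs
    by_contra hsZ
    obtain ⟨a', b', b1, b2, b3, b4, b5, b6⟩ := f3 c Z hcl s hs hsZ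
    exact b3 (hR a' (hMS a' b' b1 b6 b4))
  intro v
  by_cases hv : v ∈ S
  · exact hS v hv
  · obtain ⟨s, s1, s2, s3⟩ := h2 v hv c
    refine hcl s v s2 ?_ (hS s s1)
    rw [f1 s v (disjoint_right.1 hRS s1) hv, s3]

theorem ladder_core (Adj : V → V → Prop) (A : Finset (V × V))
    (hA : ∀ a b, (a, b) ∈ A ↔ Adj a b) (hsc : ∀ u v, u ≠ v → Adj u v ∨ Adj v u)
    (k : ℕ) (hk : Fintype.card κ = k) (hcut : KCut A k)
    (p : ℕ) (hp : 2 * (k * 2 ^ (k + 2)) + 4 ≤ p) (β : V → ℕ) (hβ : ∀ v, β v ≤ p) (χ : V → V → κ)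
    (F0 : ∀ b, b ≤ p → ∃ v, β v = b)
    (F1 : ∀ x b, β x < b → b ≤ p → ∀ c, ∃ m, β m = b ∧ Adj x m ∧ χ x m = c)
    (F2 : ∀ y b, b < β y → ∀ c, ∃ m, β m = b ∧ Adj m y ∧ χ m y = c)
    (F3 : ∀ x y b, β x < b → b < β y → ∀ c, ∃ m, β m = b ∧ Adj x m ∧ Adj m y ∧
      χ x m = c ∧ χ m y = c)
    (F4 : ∀ B : Finset (V × V), (∀ a b, Adj a b → β a < β b → (a, b) ∈ B) →
      ∀ (X : Finset V) x w, x ∈ X → w ∉ X → β x + 2 ≤ β w → k < (outc B X).card) :
    Dec Adj κ := by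
  classical
  let Del : V × V → Prop := fun e =>
    β e.2 < β e.1 ∧ ¬ (p - 1 ≤ β e.1 ∧ p - 1 ≤ β e.2) ∧ ¬ (β e.1 ≤ 1 ∧ β e.2 ≤ 1)
  let Good : Finset (V × V) → Prop := fun B =>
    B ⊆ A ∧ (∀ e ∈ A, ¬ Del e → e ∈ B) ∧ KCut B k
  obtain ⟨B, hB, hBmin⟩ := exists_min_image (univ.filter Good) card
    ⟨A, mem_filter.2 ⟨mem_univ _, Subset.refl _, fun e he _ => he, hcut⟩⟩
  obtain ⟨hBA, hBK, hBc⟩ := (mem_filter.1 hB).2
  have hBadj : ∀ e ∈ B, Adj e.1 e.2 := fun e he => (hA e.1 e.2).1 (hBA he)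
  have hfwd : ∀ a b, Adj a b → β a < β b → (a, b) ∈ B := by
    intro a b hab hlt
    apply hBK _ ((hA a b).2 hab)
    rintro ⟨h1, -⟩
    simp only at h1
    omega
  have hcrit : ∀ e ∈ B, Del e → ∃ X : Finset V, e.1 ∈ X ∧ e.2 ∉ X ∧ (outc B X).card ≤ k := by
    intro e he hd
    by_contra hno
    push Not at hno
    have hg : Good (B.erase e) := by
      refine ⟨(erase_subset _ _).trans hBA, fun e' he' hd' => ?_, fun X hX hX' => ?_⟩
      · exact mem_erase.2 ⟨fun hh => hd' (hh ▸ hd), hBK e' he' hd'⟩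
      · have heq : outc (B.erase e) X = (outc B X).erase e := by
          ext e'
          simp only [mem_ent, mem_erase]
          tauto
        rw [heq]
        by_cases hin : e ∈ outc B X
        · rw [card_erase_of_mem hin]
          have h1 := mem_ent.1 hin
          have := hno X h1.2.1 h1.2.2
          omega
        · rw [erase_eq_of_notMem hin]
          exact hBc X hX hX'
    have h1 := hBmin _ (mem_filter.2 ⟨mem_univ _, hg⟩)
    rw [card_erase_of_mem he] at h1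
    have h2 : 0 < B.card := card_pos.2 ⟨e, he⟩
    omega
  have htight : ∀ (X : Finset V) x w, (outc B X).card ≤ k → x ∈ X → β x + 2 ≤ β w → w ∈ X := by
    intro X x w ht hx hw
    by_contra hwX
    have := F4 B hfwd X x w hx hwX hw
    omega
  obtain ⟨v0, hv0⟩ := F0 0 (by omega)
  obtain ⟨vp, hvp⟩ := F0 p le_rfl
  by_cases hmid : ∃ X : Finset V, (outc B X).card ≤ k ∧ (∀ x ∈ X, 1 ≤ β x) ∧
      ∃ x ∈ X, β x + 2 ≤ p
  · obtain ⟨X, ht, h1, x, hx, hxp⟩ := hmid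
    have hXp : ∀ w, β w = p → w ∈ X := fun w hw => htight X x w ht hx (by omega)
    have hX0 : ∀ w, β w = 0 → w ∉ X := fun w hw hh => by have := h1 w hh; omega
    refine case_tight Adj B hBadj (hk ▸ hBc) X x hx v0 (hX0 v0 hv0) (hk ▸ ht) χ ?_ ?_
    · intro s hs c
      have : β s < p := lt_of_le_of_ne (hβ s) (fun hh => hs (hXp s hh))
      obtain ⟨m, m1, m2, m3⟩ := F1 s p this le_rfl c
      exact ⟨m, hXp m m1, m2, m3⟩
    · intro r hr c
      obtain ⟨m, m1, m2, m3⟩ := F2 r 0 (h1 r hr) c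
      exact ⟨m, hX0 m m1, m2, m3⟩
  push Not at hmid
  let Bot : Finset V := univ.filter (fun v => p - 1 ≤ β v)
  let Top : Finset V := univ.filter (fun v => β v ≤ 1)
  have hBot : ∀ v, v ∈ Bot ↔ p - 1 ≤ β v := fun v => by simp [Bot]
  have hTop : ∀ v, v ∈ Top ↔ β v ≤ 1 := fun v => by simp [Top]
  have c1 := crit_count Prod.snd Prod.fst B Bot k
    (fun X hX hXB => hBc.out hX (x := v0) (fun hh => by
      have := (hBot v0).1 (hXB hh); omega))
    (by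
      intro u hu w hw huw
      rw [hBot] at hu hw
      rcases hsc u w huw with h | h
      · exact Or.inr ⟨(u, w), hBK _ ((hA u w).2 h) (fun hd => hd.2.1 ⟨hu, hw⟩), rfl, rfl⟩
      · exact Or.inl ⟨(w, u), hBK _ ((hA w u).2 h) (fun hd => hd.2.1 ⟨hw, hu⟩), rfl, rfl⟩)
  have c2 := crit_count Prod.fst Prod.snd B Top k
    (fun X hX hXB => hBc.inn hX (x := vp) (fun hh => by
      have := (hTop vp).1 (hXB hh); omega))
    (by
      intro u hu w hw huw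
      rw [hTop] at hu hw
      rcases hsc u w huw with h | h
      · exact Or.inl ⟨(u, w), hBK _ ((hA u w).2 h) (fun hd => hd.2.2 ⟨hu, hw⟩), rfl, rfl⟩
      · exact Or.inr ⟨(w, u), hBK _ ((hA w u).2 h) (fun hd => hd.2.2 ⟨hw, hu⟩), rfl, rfl⟩)
  set C1 := B.filter (fun e => Prod.snd e ∉ Bot ∧ ∃ X : Finset V, X ⊆ Bot ∧ Prod.fst e ∈ X ∧
      (ent Prod.snd Prod.fst B X).card ≤ k) with hC1
  set C2 := B.filter (fun e => Prod.fst e ∉ Top ∧ ∃ X : Finset V, X ⊆ Top ∧ Prod.snd e ∈ X ∧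
      (ent Prod.fst Prod.snd B X).card ≤ k) with hC2
  have hclass : ∀ e ∈ B, Del e → (e ∈ C1 ∧ e.1 ∈ Bot) ∨ (e ∈ C2 ∧ e.2 ∈ Top) := by
    intro e he hd
    obtain ⟨X, x1, x2, x3⟩ := hcrit e he hd
    obtain ⟨d1, d2, d3⟩ := hd
    by_cases h0 : ∀ x ∈ X, 1 ≤ β x
    · have hXB : X ⊆ Bot := by
        intro x hx
        have := hmid X x3 h0 x hx
        rw [hBot]; omega
      have h1 := (hBot _).1 (hXB x1)
      refine Or.inl ⟨mem_filter.2 ⟨he, fun hh => d2 ⟨h1, (hBot _).1 hh⟩, X, hXB, x1, x3⟩, hXB x1⟩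
    · push Not at h0
      obtain ⟨x, hx, hx0⟩ := h0
      have hXT : Xᶜ ⊆ Top := by
        intro w hw
        rw [hTop]
        by_contra hh
        exact (mem_compl.1 hw) (htight X x w x3 hx (by omega))
      have h1 := hXT (mem_compl.2 x2)
      refine Or.inr ⟨mem_filter.2 ⟨he, fun hh => d3 ⟨(hTop _).1 hh, (hTop _).1 h1⟩, Xᶜ, hXT,
        mem_compl.2 x2, ?_⟩, h1⟩
      have := inc_eq B Xᶜ
      rw [compl_compl] at this
      rw [show ent Prod.fst Prod.snd B Xᶜ = outc B X from this]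
      exact x3
  have hfree : ∃ b ∈ Icc 2 (p - 2),
      b ∉ C1.image (fun e => β e.2) ∪ C2.image (fun e => β e.1) := by
    apply exists_mem_notMem_of_card_lt_card
    have s1 := card_union_le (C1.image (fun e => β e.2)) (C2.image (fun e => β e.1))
    have s2 := card_image_le (s := C1) (f := fun e => β e.2)
    have s3 := card_image_le (s := C2) (f := fun e => β e.1)
    rw [Nat.card_Icc]
    omega
  obtain ⟨b, hb, hbn⟩ := hfree
  rw [mem_Icc] at hb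
  rw [mem_union, not_or] at hbn
  obtain ⟨m0, hm0⟩ := F0 b (by omega)
  refine case_free Adj B hBadj (hk ▸ hBc) (univ.filter (fun v => b < β v))
    (univ.filter (fun v => β v < b)) ?_ m0 (by simp [hm0]) (by simp [hm0]) ?_ ?_ χ ?_ ?_ ?_
  · rw [disjoint_filter]
    intro x _ h1 h2
    omega
  · intro u v huv hu hv
    simp only [mem_filter, mem_univ, true_and] at hu hv ⊢
    by_contra hh
    have hvb : β v = b := by omega
    rcases hclass (u, v) huv ⟨by simp only; omega, by simp only; omega, by simp only; omega⟩ with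
      h | h
    · exact hbn.1 (mem_image.2 ⟨_, h.1, hvb⟩)
    · have := (hTop _).1 h.2
      simp only at this
      omega
  · intro u v huv hv hu
    simp only [mem_filter, mem_univ, true_and] at hu hv ⊢
    by_contra hh
    have hub : β u = b := by omega
    rcases hclass (u, v) huv ⟨by simp only; omega, by simp only; omega, by simp only; omega⟩ with
      h | h
    · have := (hBot _).1 h.2
      simp only at this
      omega
    · exact hbn.2 (mem_image.2 ⟨_, h.1, hub⟩)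
  · intro s hs c
    simp only [mem_filter, mem_univ, true_and] at hs ⊢
    obtain ⟨m, m1, m2, m3⟩ := F1 s p (by omega) le_rfl c
    exact ⟨m, by omega, m2, m3⟩
  · intro r hr c
    simp only [mem_filter, mem_univ, true_and] at hr ⊢
    obtain ⟨m, m1, m2, m3⟩ := F2 r 0 (by omega) c
    exact ⟨m, by omega, m2, m3⟩
  · intro s hs r hr c
    simp only [mem_filter, mem_univ, true_and] at hs hr ⊢
    obtain ⟨m, m1, m2⟩ := F3 s r b hs hr c
    exact ⟨m, by omega, by omega, m2⟩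

end Pool.Agent.Lib.MP_44ed1d_co
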