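import Mathlib
import Pool.Agent.Lib.MP_44ed1d_co.Cases

set_option autoImplicit false
set_option linter.unusedSectionVars false

namespace Pool.Agent.Lib.MP_44ed1d_co

open Finset

variable {V : Type} [DecidableEq V] [Fintype V]
variable {κ : Type} [Fintype κ] [DecidableEq κ] [Nonempty κ]

lemma fan {ι : Type} (B : Finset (V × V)) (X : Finset V) (x w : V) (hx : x ∈ X) (hw : w ∉ X)
    (I : Finset ι) (g : ι → V) (hg : Set.InjOn g I) (h1 : ∀ i ∈ I, g i ≠ x)
    (h2 : ∀ i ∈ I, (x, g i) ∈ B) (h3 : ∀ i ∈ I, (g i, w) ∈ B) :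
    I.card ≤ (outc B X).card := by
  apply card_le_card_of_injOn (fun i => if g i ∈ X then (g i, w) else (x, g i))
  · intro i hi
    have hi' : i ∈ I := hi
    refine mem_coe.2 (mem_ent.2 ?_)
    by_cases h : g i ∈ X
    · simp only [if_pos h]
      exact ⟨h3 i hi', h, hw⟩
    · simp only [if_neg h]
      exact ⟨h2 i hi', hx, h⟩
  · intro i hi j hj hij
    apply hg hi hj
    by_cases a : g i ∈ X <;> by_cases b : g j ∈ X <;> simp only [a, b, if_true, if_false] at hij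
    · exact (Prod.mk.inj hij).1
    · exact absurd (Prod.mk.inj hij).1 (h1 i hi)
    · exact absurd (Prod.mk.inj hij).1.symm (h1 j hj)
    · exact (Prod.mk.inj hij).2

lemma exists_onto (P : Finset V) : ∃ g : V → κ, Fintype.card κ ≤ P.card →
    ∀ c, ∃ m ∈ P, g m = c := by
  by_cases h : Fintype.card κ ≤ P.card
  · obtain ⟨e⟩ := Function.Embedding.nonempty_of_card_le (α := κ) (β := P) (by simpa using h)
    have hinj : Function.Injective (fun c => (e c : V)) :=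
      fun a b hab => e.injective (Subtype.ext hab)
    exact ⟨Function.invFun (fun c => (e c : V)), fun _ c =>
      ⟨e c, (e c).2, Function.leftInverse_invFun hinj c⟩⟩
  · exact ⟨fun _ => Classical.arbitrary κ, fun hh => absurd hh h⟩

theorem case_back (Adj : V → V → Prop) (A : Finset (V × V))
    (hA : ∀ a b, (a, b) ∈ A ↔ Adj a b) (hirr : ∀ v, ¬ Adj v v)
    (hsc : ∀ u v, u ≠ v → Adj u v ∨ Adj v u)
    (hcut : KCut A (Fintype.card κ)) (v : V) (x x2 y y1 y2 : κ → V) (M : Finset V)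
    (hM : 2 * Fintype.card κ ≤ M.card) (hvM : v ∉ M)
    (ix : Function.Injective x) (ix2 : Function.Injective x2) (iy : Function.Injective y)
    (iy1 : Function.Injective y1) (iy2 : Function.Injective y2)
    (vx : ∀ c, Adj v (x c)) (vx2 : ∀ c, Adj v (x2 c))
    (yv : ∀ c, Adj (y c) v) (y1v : ∀ c, Adj (y1 c) v) (y2v : ∀ c, Adj (y2 c) v)
    (x2x : ∀ c d, Adj (x2 c) (x d)) (yy2 : ∀ c d, Adj (y c) (y2 d))
    (y1y2 : ∀ c d, Adj (y1 c) (y2 d)) (yy1 : ∀ c d, Adj (y c) (y1 d))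
    (xy : ∀ c d, Adj (x c) (y d)) (xy1 : ∀ c d, Adj (x c) (y1 d))
    (xM : ∀ c, ∀ m ∈ M, Adj (x c) m) (My : ∀ c, ∀ m ∈ M, Adj m (y c))
    (My1 : ∀ c, ∀ m ∈ M, Adj m (y1 c)) : Dec Adj κ := by
  classical
  have hne : ∀ {a b}, Adj a b → a ≠ b := fun {a b} h hab => hirr a (by rw [← hab] at h; exact h)
  have hxM : ∀ c, x c ∉ M := fun c h => hirr _ (xM c _ h)
  have hyM : ∀ c, y c ∉ M := fun c h => hirr _ (My c _ h)
  have hy1M : ∀ c, y1 c ∉ M := fun c h => hirr _ (My1 c _ h)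
  let lab : V → κ := fun u =>
    if ∃ c, x c = u then Function.invFun x u
    else if ∃ c, y c = u then Function.invFun y u else Function.invFun y1 u
  have hyx : ∀ c, ¬ ∃ d, x d = y c := fun c ⟨d, hd⟩ => hne (xy d c) hd
  have hy1x : ∀ c, ¬ ∃ d, x d = y1 c := fun c ⟨d, hd⟩ => hne (xy1 d c) hd
  have hy1y : ∀ c, ¬ ∃ d, y d = y1 c := fun c ⟨d, hd⟩ => hne (yy1 d c) hd
  have hyy1 : ∀ c, ¬ ∃ d, y1 d = y c := fun c ⟨d, hd⟩ => hne (yy1 c d) hd.symm
  have labx : ∀ c, lab (x c) = c := by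
    intro c
    simp only [lab, if_pos (⟨c, rfl⟩ : ∃ d, x d = x c)]
    exact Function.leftInverse_invFun ix c
  have laby : ∀ c, lab (y c) = c := by
    intro c
    simp only [lab, if_neg (hyx c), if_pos (⟨c, rfl⟩ : ∃ d, y d = y c)]
    exact Function.leftInverse_invFun iy c
  have laby1 : ∀ c, lab (y1 c) = c := by
    intro c
    simp only [lab, if_neg (hy1x c), if_neg (hy1y c)]
    exact Function.leftInverse_invFun iy1 c
  choose σ hσ using fun s => exists_onto (κ := κ) (M.filter (fun m => Adj s m))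
  choose ρ hρ using fun r => exists_onto (κ := κ) (M.filter (fun m => Adj m r))
  let χ : V → V → κ := fun a b =>
    if a = v then lab b else if b = v then lab a
    else if ∃ c, x c = a then (if ∃ c, y1 c = b then lab b else lab a)
    else if ∃ c, y c = b then lab b else if b ∈ M then σ a b else ρ b a
  let R : Finset V := univ.filter (fun u => u ∉ M ∧ u ≠ v ∧ (¬ ∃ c, x c = u) ∧
    Fintype.card κ ≤ (M.filter (fun m => Adj m u)).card)
  have hR : ∀ u, u ∈ R ↔ u ∉ M ∧ u ≠ v ∧ (¬ ∃ c, x c = u) ∧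
    Fintype.card κ ≤ (M.filter (fun m => Adj m u)).card := fun u => by
      simp only [R, mem_filter, mem_univ, true_and]
  let S : Finset V := univ.filter (fun u => u ∉ M ∧ u ≠ v ∧ u ∉ R)
  have hS : ∀ u, u ∈ S ↔ u ∉ M ∧ u ≠ v ∧ u ∉ R := fun u => by
      simp only [S, mem_filter, mem_univ, true_and]
  have hRS : Disjoint R S := disjoint_left.2 (fun u h1 h2 => ((hS u).1 h2).2.2 h1)
  have hvR : v ∉ R := fun h => ((hR v).1 h).2.1 rfl
  have hvS : v ∉ S := fun h => ((hS v).1 h).2.1 rfl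
  have hMR : ∀ m ∈ M, m ∉ R := fun m hm h => ((hR m).1 h).1 hm
  have hMS : ∀ m ∈ M, m ∉ S := fun m hm h => ((hS m).1 h).1 hm
  have hxR : ∀ c, x c ∉ R := fun c h => ((hR _).1 h).2.2.1 ⟨c, rfl⟩
  have hyR : ∀ c, y c ∈ R := by
    intro c
    refine (hR _).2 ⟨hyM c, hne (yv c), hyx c, ?_⟩
    rw [filter_true_of_mem (fun m hm => My c m hm)]
    omega
  have hy1R : ∀ c, y1 c ∈ R := by
    intro c
    refine (hR _).2 ⟨hy1M c, hne (y1v c), hy1x c, ?_⟩
    rw [filter_true_of_mem (fun m hm => My1 c m hm)]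
    omega
  let Res : V × V → Prop := fun e =>
    (e.1 = v ∧ ∃ c, x c = e.2) ∨ (e.2 = v ∧ ((∃ c, y c = e.1) ∨ ∃ c, y1 c = e.1))
  let B : Finset (V × V) := A.filter (fun e => ¬ Res e)
  have hB : ∀ a b, (a, b) ∈ B ↔ Adj a b ∧ ¬ Res (a, b) := fun a b => by
    simp only [B, mem_filter, hA]
  have hB' : ∀ a b, Adj a b → a ≠ v → b ≠ v → (a, b) ∈ B := by
    intro a b hab ha hb
    refine (hB a b).2 ⟨hab, ?_⟩
    rintro (h | h)
    · exact ha h.1
    · exact hb h.1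
  obtain ⟨f, f0, f1, f2, f3⟩ := glue' (κ := κ) Adj B
    (fun e he => ((hB e.1 e.2).1 he).1) R S hRS
    (by
      intro U hU hUS
      have hvU : v ∉ U := fun h => hvS (hUS h)
      by_cases hx : ∃ c, x c ∈ U
      · obtain ⟨c, hc⟩ := hx
        rw [inc_eq]
        have := fan B Uᶜ v (x c) (mem_compl.2 hvU) (by simpa using hc) univ x2 ix2.injOn
          (fun d _ => (hne (vx2 d)).symm)
          (fun d _ => (hB _ _).2 ⟨vx2 d, by
            rintro (⟨-, e, he⟩ | h)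
            · exact hne (x2x d e) he.symm
            · exact hne (vx2 d) h.1.symm⟩)
          (fun d _ => hB' _ _ (x2x d c) (hne (vx2 d)).symm (hne (vx c)).symm)
        simpa using this
      · refine (hcut.inn hU hvU).trans (card_le_card ?_)
        intro e he
        rw [mem_ent] at he ⊢
        refine ⟨mem_filter.2 ⟨he.1, ?_⟩, he.2⟩
        rintro (⟨-, c, hc⟩ | h)
        · exact hx ⟨c, hc ▸ he.2.1⟩
        · exact hvU (h.1 ▸ he.2.1))
    (by
      intro U hU hUR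
      have hvU : v ∉ U := fun h => hvR (hUR h)
      by_cases hx : ∃ w ∈ U, (∃ c, y c = w) ∨ ∃ c, y1 c = w
      · obtain ⟨w, hw, hc⟩ := hx
        have hwy : ∀ d, Adj w (y2 d) := by
          intro d
          rcases hc with ⟨c, rfl⟩ | ⟨c, rfl⟩
          · exact yy2 c d
          · exact y1y2 c d
        have := fan B U w v hw hvU univ y2 iy2.injOn
          (fun d _ => (hne (hwy d)).symm)
          (fun d _ => hB' _ _ (hwy d) (fun h => hvU (h ▸ hw)) (hne (y2v d)))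
          (fun d _ => (hB _ _).2 ⟨y2v d, by
            rintro (h | ⟨-, ⟨e, he⟩ | ⟨e, he⟩⟩)
            · exact hne (y2v d) h.1
            · exact hne (yy2 e d) he
            · exact hne (y1y2 e d) he⟩)
        simpa using this
      · refine (hcut.out hU hvU).trans (card_le_card ?_)
        intro e he
        rw [mem_ent] at he ⊢
        refine ⟨mem_filter.2 ⟨he.1, ?_⟩, he.2⟩
        rintro (h | ⟨-, h⟩)
        · exact hvU (h.1 ▸ he.2.1)
        · exact hx ⟨e.1, he.2.1, h⟩) χ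
  have g1 : ∀ c, f v (x c) = c := by
    intro c
    rw [f0 _ _ (fun h => ((hB _ _).1 h).2 (Or.inl ⟨rfl, c, rfl⟩))]
    simp only [χ, if_true, labx]
  have g2 : ∀ c, f (y c) v = c := by
    intro c
    rw [f0 _ _ (fun h => ((hB _ _).1 h).2 (Or.inr ⟨rfl, Or.inl ⟨c, rfl⟩⟩))]
    simp only [χ, if_neg (hne (yv c)), if_true, laby]
  have g3 : ∀ c, f (y1 c) v = c := by
    intro c
    rw [f0 _ _ (fun h => ((hB _ _).1 h).2 (Or.inr ⟨rfl, Or.inr ⟨c, rfl⟩⟩))]
    simp only [χ, if_neg (hne (y1v c)), if_true, laby1]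
  have hMv : ∀ m ∈ M, m ≠ v := fun m hm h => hvM (h ▸ hm)
  have g4 : ∀ c, ∀ m ∈ M, f (x c) m = c := by
    intro c m hm
    rw [f1 _ _ (hxR c) (hMS m hm)]
    have h1 : ¬ ∃ d, y1 d = m := fun ⟨d, hd⟩ => hy1M d (hd ▸ hm)
    simp only [χ, if_neg (hne (vx c)).symm, if_neg (hMv m hm),
      if_pos (⟨c, rfl⟩ : ∃ d, x d = x c), if_neg h1, labx]
  have g5 : ∀ c, ∀ m ∈ M, f m (y c) = c := by
    intro c m hm
    rw [f1 _ _ (hMR m hm) (disjoint_left.1 hRS (hyR c))]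
    have h1 : ¬ ∃ d, x d = m := fun ⟨d, hd⟩ => hxM d (hd ▸ hm)
    simp only [χ, if_neg (hne (yv c)), if_neg (hMv m hm),
      if_pos (⟨c, rfl⟩ : ∃ d, y d = y c), if_neg h1, laby]
  have g6 : ∀ c d, f (x c) (y1 d) = d := by
    intro c d
    rw [f1 _ _ (hxR c) (disjoint_left.1 hRS (hy1R d))]
    simp only [χ, if_neg (hne (vx c)).symm, if_neg (hne (y1v d)),
      if_pos (⟨c, rfl⟩ : ∃ d, x d = x c), if_pos (⟨d, rfl⟩ : ∃ e, y1 e = y1 d), laby1]
  have g7 : ∀ c d, f (x c) (y d) = c := by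
    intro c d
    rw [f1 _ _ (hxR c) (disjoint_left.1 hRS (hyR d))]
    simp only [χ, if_neg (hne (vx c)).symm, if_neg (hne (yv d)),
      if_pos (⟨c, rfl⟩ : ∃ d, x d = x c), if_neg (hyy1 d), labx]
  have g8 : ∀ s ∈ S, (¬ ∃ d, x d = s) → ∀ c, ∃ m ∈ M, Adj s m ∧ f s m = c := by
    intro s hs hsx c
    obtain ⟨s1, s2, s3⟩ := (hS s).1 hs
    have hcard : Fintype.card κ ≤ (M.filter (fun m => Adj s m)).card := by
      have h1 : ¬ Fintype.card κ ≤ (M.filter (fun m => Adj m s)).card :=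
        fun h => s3 ((hR s).2 ⟨s1, s2, hsx, h⟩)
      have h2 := card_filter_add_card_filter_not (s := M) (fun m => Adj m s)
      have h3 : (M.filter (fun m => ¬ Adj m s)).card ≤ (M.filter (fun m => Adj s m)).card := by
        apply card_le_card
        intro m hm
        obtain ⟨m1, m2⟩ := mem_filter.1 hm
        refine mem_filter.2 ⟨m1, ?_⟩
        rcases hsc s m (fun h => s1 (h ▸ m1)) with h | h
        · exact h
        · exact absurd h m2
      omega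
    obtain ⟨m, hm, hc⟩ := hσ s hcard c
    obtain ⟨m1, m2⟩ := mem_filter.1 hm
    refine ⟨m, m1, m2, ?_⟩
    rw [f1 _ _ s3 (hMS m m1)]
    have h1 : ¬ ∃ d, y d = m := fun ⟨d, hd⟩ => hyM d (hd ▸ m1)
    simp only [χ, if_neg s2, if_neg (hMv m m1), if_neg hsx, if_neg h1, if_pos m1, hc]
  have g9 : ∀ r ∈ R, (¬ ∃ d, y d = r) → ∀ c, ∃ m ∈ M, Adj m r ∧ f m r = c := by
    intro r hr hry c
    obtain ⟨r1, r2, r3, r4⟩ := (hR r).1 hr
    obtain ⟨m, hm, hc⟩ := hρ r r4 c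
    obtain ⟨m1, m2⟩ := mem_filter.1 hm
    refine ⟨m, m1, m2, ?_⟩
    rw [f1 _ _ (hMR m m1) (disjoint_left.1 hRS hr)]
    have h1 : ¬ ∃ d, x d = m := fun ⟨d, hd⟩ => hxM d (hd ▸ m1)
    simp only [χ, if_neg r2, if_neg (hMv m m1), if_neg hry, if_neg h1, if_neg r1, hc]
  refine ⟨f, fun c Z hZ hcl => ?_⟩
  have hz : ∃ z ∈ Z, z ∉ R := by
    obtain ⟨z, hz⟩ := hZ
    by_cases hzR : z ∈ R
    · obtain ⟨a, b, -, -, -, -, b1, b2⟩ := f2 c Z hcl z hz hzR
      exact ⟨b, b1, b2⟩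
    · exact ⟨z, hz, hzR⟩
  have hMvZ : ∀ m ∈ M, m ∈ Z → v ∈ Z := fun m hm hmZ =>
    hcl _ _ (yv c) (g2 c) (hcl _ _ (My c m hm) (g5 c m hm) hmZ)
  have hvZ : v ∈ Z := by
    obtain ⟨z, z1, z2⟩ := hz
    by_cases h1 : z = v
    · exact h1 ▸ z1
    by_cases h2 : z ∈ M
    · exact hMvZ z h2 z1
    by_cases h3 : ∃ d, x d = z
    · obtain ⟨d, rfl⟩ := h3
      exact hcl _ _ (y1v c) (g3 c) (hcl _ _ (xy1 d c) (g6 d c) z1)
    · obtain ⟨m, m1, m2, m3⟩ := g8 z ((hS z).2 ⟨h2, h1, z2⟩) h3 c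
      exact hMvZ m m1 (hcl _ _ m2 m3 z1)
  have hxZ : x c ∈ Z := hcl _ _ (vx c) (g1 c) hvZ
  have hMZ : ∀ m ∈ M, m ∈ Z := fun m hm => hcl _ _ (xM c m hm) (g4 c m hm) hxZ
  have hnS : ∀ u, u ∉ S → u ∈ Z := by
    intro u hu
    by_cases h1 : u = v
    · exact h1 ▸ hvZ
    by_cases h2 : u ∈ M
    · exact hMZ u h2
    have h3 : u ∈ R := by
      by_contra h
      exact hu ((hS u).2 ⟨h2, h1, h⟩)
    by_cases h4 : ∃ d, y d = u
    · obtain ⟨d, rfl⟩ := h4
      exact hcl _ _ (xy c d) (g7 c d) hxZ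
    · obtain ⟨m, m1, m2, m3⟩ := g9 u h3 h4 c
      exact hcl _ _ m2 m3 (hMZ m m1)
  intro u
  by_contra hu
  have huS : u ∈ S := by
    by_contra h
    exact hu (hnS u h)
  obtain ⟨a, b, -, -, a1, a2, -⟩ := f3 c Z hcl u huS hu
  exact a1 (hnS a a2)

end Pool.Agent.Lib.MP_44ed1d_co
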