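import Mathlib
import Pool.Agent.Lib.MP_44ed1d_co.Back

set_option autoImplicit false
set_option linter.unusedSectionVars false

namespace Pool.Agent.Lib.MP_44ed1d_co

open Finset Relation

variable {V : Type} [DecidableEq V] [Fintype V]

/-- the boundary of an arc set, tested against a function -/
def dv (F : Finset (V × V)) (φ : V → ℤ) : ℤ := ∑ e ∈ F, (φ e.1 - φ e.2)

/-- number of arcs of `F` with tail `x` -/
def od (F : Finset (V × V)) (x : V) : ℕ := (F.filter (fun e => e.1 = x)).card

/-- number of arcs of `F` with head `x` -/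
def idg (F : Finset (V × V)) (x : V) : ℕ := (F.filter (fun e => e.2 = x)).card

/-- the arc set of a simple path from `u` to `v` -/
structure IsPath (P : Finset (V × V)) (u v : V) : Prop where
  bd : ∀ φ, dv P φ = φ u - φ v
  inj1 : ∀ e ∈ P, ∀ e' ∈ P, e.1 = e'.1 → e = e'
  inj2 : ∀ e ∈ P, ∀ e' ∈ P, e.2 = e'.2 → e = e'
  fr : ∀ e ∈ P, ReflTransGen (fun a b => (a, b) ∈ P) u e.2
  tow : ∀ e ∈ P, ReflTransGen (fun a b => (a, b) ∈ P) e.1 v
  all : ReflTransGen (fun a b => (a, b) ∈ P) u v
  last : ∀ e ∈ P, e.1 ≠ v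

lemma rtg_mono {R S : V → V → Prop} (h : ∀ a b, R a b → S a b) {u v : V}
    (huv : ReflTransGen R u v) : ReflTransGen S u v := by
  induction huv with
  | refl => exact ReflTransGen.refl
  | tail _ hbc ih => exact ih.tail (h _ _ hbc)

lemma last_exit (R : V → V → Prop) (W : Finset V) (u x : V)
    (h : ReflTransGen (fun a b => R a b ∧ b ∈ W) u x) :
    x = u ∨ ∃ w, R u w ∧ w ∈ W.erase u ∧
      ReflTransGen (fun a b => R a b ∧ b ∈ W.erase u) w x := by
  induction h with
  | refl => exact Or.inl rfl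
  | @tail b c _ hbc ih =>
    by_cases hc : c = u
    · exact Or.inl hc
    · right
      have hc' : c ∈ W.erase u := mem_erase.2 ⟨hc, hbc.2⟩
      rcases ih with rfl | ⟨w, h1, h2, h3⟩
      · exact ⟨c, hbc.1, hc', ReflTransGen.refl⟩
      · exact ⟨w, h1, h2, h3.tail ⟨hbc.1, hc'⟩⟩

theorem path_aux (R : V → V → Prop) (v : V) (n : ℕ) : ∀ (W : Finset V) (u : V), W.card = n →
    u ∈ W → ReflTransGen (fun a b => R a b ∧ b ∈ W) u v →
    ∃ P : Finset (V × V), IsPath P u v ∧ ∀ e ∈ P, R e.1 e.2 ∧ e.1 ∈ W ∧ e.2 ∈ W ∧ e.2 ≠ u := by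
  induction n using Nat.strong_induction_on with
  | _ n ih =>
  intro W u hn hu h
  by_cases huv : v = u
  · subst huv
    exact ⟨∅, ⟨by simp [dv], by simp, by simp, by simp, by simp, ReflTransGen.refl, by simp⟩,
      by simp⟩
  obtain ⟨w, h1, h2, h3⟩ := (last_exit R W u v h).resolve_left huv
  obtain ⟨P, hP, hP'⟩ := ih _ (hn ▸ card_erase_lt_of_mem hu) (W.erase u) w rfl h2 h3
  have hnot : (u, w) ∉ P := fun hh => (mem_erase.1 (hP' _ hh).2.1).1 rfl
  have mono : ∀ a b, ReflTransGen (fun a b => (a, b) ∈ P) a b →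
      ReflTransGen (fun a b => (a, b) ∈ insert (u, w) P) a b :=
    fun a b hab => rtg_mono (fun _ _ hh => mem_insert_of_mem hh) hab
  have hd : ReflTransGen (fun a b => (a, b) ∈ insert (u, w) P) u w :=
    ReflTransGen.single (mem_insert_self _ _)
  refine ⟨insert (u, w) P, ⟨fun φ => ?_, ?_, ?_, ?_, ?_, hd.trans (mono _ _ hP.all), ?_⟩, ?_⟩
  · have := hP.bd φ
    unfold dv at this ⊢
    rw [sum_insert hnot, this]
    ring
  · intro e he e' he' hh
    rcases mem_insert.1 he with rfl | he <;> rcases mem_insert.1 he' with rfl | he'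
    · rfl
    · exact absurd hh.symm (mem_erase.1 (hP' _ he').2.1).1
    · exact absurd hh (mem_erase.1 (hP' _ he).2.1).1
    · exact hP.inj1 _ he _ he' hh
  · intro e he e' he' hh
    rcases mem_insert.1 he with rfl | he <;> rcases mem_insert.1 he' with rfl | he'
    · rfl
    · exact absurd hh.symm (hP' _ he').2.2.2
    · exact absurd hh (hP' _ he).2.2.2
    · exact hP.inj2 _ he _ he' hh
  · intro e he
    rcases mem_insert.1 he with rfl | he
    · exact hd
    · exact hd.trans (mono _ _ (hP.fr e he))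
  · intro e he
    rcases mem_insert.1 he with rfl | he
    · exact hd.trans (mono _ _ hP.all)
    · exact mono _ _ (hP.tow e he)
  · intro e he
    rcases mem_insert.1 he with rfl | he
    · exact fun hh => huv hh.symm
    · exact hP.last e he
  · intro e he
    rcases mem_insert.1 he with rfl | he
    · exact ⟨h1, hu, mem_of_mem_erase h2, (mem_erase.1 h2).1⟩
    · obtain ⟨a1, a2, a3, _⟩ := hP' e he
      exact ⟨a1, mem_of_mem_erase a2, mem_of_mem_erase a3, (mem_erase.1 a3).1⟩

theorem exists_path (R : V → V → Prop) {u v : V} (h : ReflTransGen R u v) :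
    ∃ P : Finset (V × V), IsPath P u v ∧ ∀ e ∈ P, R e.1 e.2 := by
  obtain ⟨P, h1, h2⟩ := path_aux R v _ univ u rfl (mem_univ _)
    (rtg_mono (fun _ _ hh => ⟨hh, mem_univ _⟩) h)
  exact ⟨P, h1, fun e he => (h2 e he).1⟩

/-- indicator function -/
def ind (U : Finset V) : V → ℤ := fun x => if x ∈ U then 1 else 0

lemma dv_ind (F : Finset (V × V)) (U : Finset V) :
    dv F (ind U) = (outc F U).card - (inc F U).card := by
  unfold dv ind outc inc ent
  simp only [card_filter, Nat.cast_sum]
  rw [← sum_sub_distrib]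
  apply sum_congr rfl
  intro e _
  by_cases h1 : e.1 ∈ U <;> by_cases h2 : e.2 ∈ U <;> simp [h1, h2]

lemma dv_sdiff {F P : Finset (V × V)} (h : P ⊆ F) (φ : V → ℤ) :
    dv (F \ P) φ = dv F φ - dv P φ := by
  unfold dv
  rw [← sum_sdiff h]
  ring

lemma IsPath.od_le {P : Finset (V × V)} {u v : V} (h : IsPath P u v) (x : V) : od P x ≤ 1 :=
  card_le_one.2 fun e he e' he' => h.inj1 e (mem_filter.1 he).1 e' (mem_filter.1 he').1
    ((mem_filter.1 he).2.trans (mem_filter.1 he').2.symm)

lemma IsPath.idg_le {P : Finset (V × V)} {u v : V} (h : IsPath P u v) (x : V) : idg P x ≤ 1 :=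
  card_le_one.2 fun e he e' he' => h.inj2 e (mem_filter.1 he).1 e' (mem_filter.1 he').1
    ((mem_filter.1 he).2.trans (mem_filter.1 he').2.symm)

lemma od_mono {F G : Finset (V × V)} (h : F ⊆ G) (x : V) : od F x ≤ od G x :=
  card_le_card (filter_subset_filter _ h)

lemma idg_mono {F G : Finset (V × V)} (h : F ⊆ G) (x : V) : idg F x ≤ idg G x :=
  card_le_card (filter_subset_filter _ h)

lemma od_union (F G : Finset (V × V)) (x : V) : od (F ∪ G) x ≤ od F x + od G x := by
  unfold od
  rw [filter_union]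
  exact card_union_le _ _

lemma idg_union (F G : Finset (V × V)) (x : V) : idg (F ∪ G) x ≤ idg F x + idg G x := by
  unfold idg
  rw [filter_union]
  exact card_union_le _ _

theorem augment (A : Finset (V × V)) (k : ℕ) (hA : KCut A k) (F : Finset (V × V)) (hF : F ⊆ A)
    (u v : V) (hc : ∀ U : Finset V, u ∈ U → v ∉ U → dv F (ind U) < k) :
    ∃ G : Finset (V × V), G ⊆ A ∧ (∀ φ, dv G φ = dv F φ + (φ u - φ v)) ∧
      (∀ x, od G x ≤ od F x + 1) ∧ ∀ x, idg G x ≤ idg F x + 1 := by
  classical
  let R : V → V → Prop := fun a b => ((a, b) ∈ A ∧ (a, b) ∉ F) ∨ (b, a) ∈ F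
  have hr : ReflTransGen R u v := by
    by_contra hn
    let U : Finset V := univ.filter (fun x => ReflTransGen R u x)
    have hU : ∀ x, x ∈ U ↔ ReflTransGen R u x := fun x => by simp [U]
    have h1 := hc U ((hU u).2 ReflTransGen.refl) (fun hh => hn ((hU v).1 hh))
    have h2 := hA U ⟨u, (hU u).2 ReflTransGen.refl⟩
      ⟨v, mem_compl.2 (fun hh => hn ((hU v).1 hh))⟩
    have h3 : inc F U = ∅ := by
      apply eq_empty_of_forall_notMem
      intro e he
      obtain ⟨e1, e2, e3⟩ := mem_ent.1 he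
      exact e3 ((hU _).2 (((hU _).1 e2).tail (Or.inr e1)))
    have h4 : outc A U ⊆ outc F U := by
      intro e he
      obtain ⟨e1, e2, e3⟩ := mem_ent.1 he
      refine mem_ent.2 ⟨?_, e2, e3⟩
      by_contra hh
      exact e3 ((hU _).2 (((hU _).1 e2).tail (Or.inl ⟨e1, hh⟩)))
    have h5 := card_le_card h4
    rw [dv_ind, h3] at h1
    simp only [card_empty, Nat.cast_zero, sub_zero, Nat.cast_lt] at h1
    omega
  obtain ⟨P, hP, hPR⟩ := exists_path R hr
  let Pf := P.filter (fun e => e ∈ A ∧ e ∉ F)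
  let Pb := (P.filter (fun e => ¬ (e ∈ A ∧ e ∉ F))).image Prod.swap
  have hb : Pb ⊆ F := by
    intro e he
    obtain ⟨e', e1, rfl⟩ := mem_image.1 he
    exact (hPR e' (mem_filter.1 e1).1).resolve_left (mem_filter.1 e1).2
  have hdis : Disjoint (F \ Pb) Pf := by
    rw [disjoint_left]
    intro e e1 e2
    exact (mem_filter.1 e2).2.2 (mem_sdiff.1 e1).1
  refine ⟨(F \ Pb) ∪ Pf, union_subset (sdiff_subset.trans hF)
    (fun e he => (mem_filter.1 he).2.1), fun φ => ?_, fun x => ?_, fun x => ?_⟩
  · have h1 : dv ((F \ Pb) ∪ Pf) φ = dv (F \ Pb) φ + dv Pf φ := sum_union hdis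
    have h2 : dv Pb φ = - dv (P.filter (fun e => ¬ (e ∈ A ∧ e ∉ F))) φ := by
      unfold dv
      rw [sum_image (fun a _ b _ hab => Prod.swap_injective hab), ← sum_neg_distrib]
      apply sum_congr rfl
      intro e _
      simp
    have h3 : dv Pf φ + dv (P.filter (fun e => ¬ (e ∈ A ∧ e ∉ F))) φ = dv P φ :=
      sum_filter_add_sum_filter_not _ _ _
    rw [h1, dv_sdiff hb, h2, ← hP.bd φ, ← h3]
    ring
  · exact (od_union _ _ x).trans (add_le_add (od_mono sdiff_subset x)
      ((od_mono (filter_subset _ _) x).trans (hP.od_le x)))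
  · exact (idg_union _ _ x).trans (add_le_add (idg_mono sdiff_subset x)
      ((idg_mono (filter_subset _ _) x).trans (hP.idg_le x)))

variable {κ : Type} [Fintype κ] [DecidableEq κ]

/-- `F` is a flow with one unit from each `z c` and one unit into each `a c` -/
def IsFlow (F : Finset (V × V)) (z a : κ → V) : Prop :=
  ∀ φ, dv F φ = ∑ c, (φ (z c) - φ (a c))

lemma IsFlow.lt {F : Finset (V × V)} {z a : κ → V} (h : IsFlow F z a) (U : Finset V) (c : κ)
    (hc : z c ∉ U ∨ a c ∈ U) : dv F (ind U) < Fintype.card κ := by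
  rw [h]
  have h1 : ∑ _c : κ, (1 : ℤ) = Fintype.card κ := by simp
  rw [← h1]
  apply sum_lt_sum
  · intro d _
    unfold ind
    split_ifs <;> omega
  · refine ⟨c, mem_univ _, ?_⟩
    unfold ind
    split_ifs <;> first | omega | tauto

lemma IsFlow.le {F : Finset (V × V)} {z a : κ → V} (h : IsFlow F z a) (U : Finset V) :
    dv F (ind U) ≤ Fintype.card κ := by
  rw [h]
  have h1 : ∑ _c : κ, (1 : ℤ) = Fintype.card κ := by simp
  rw [← h1]
  apply sum_le_sum
  intro d _
  unfold ind
  split_ifs <;> omega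

lemma sum_update (φ : V → ℤ) (z : κ → V) (c : κ) (x : V) :
    ∑ d, φ (Function.update z c x d) = ∑ d, φ (z d) + (φ x - φ (z c)) := by
  rw [← add_sum_erase univ _ (mem_univ c), ← add_sum_erase univ (fun d => φ (z d)) (mem_univ c)]
  have : ∑ d ∈ univ.erase c, φ (Function.update z c x d) = ∑ d ∈ univ.erase c, φ (z d) :=
    sum_congr rfl fun d hd => by rw [Function.update_of_ne (mem_erase.1 hd).1]
  rw [this, Function.update_self]
  ring

theorem move (A : Finset (V × V)) (hA : KCut A (Fintype.card κ)) (F : Finset (V × V))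
    (hF : F ⊆ A) (z a z' a' : κ → V) (h : IsFlow F z a) (s : Finset κ) :
    ∃ G : Finset (V × V), G ⊆ A ∧
      IsFlow G (fun c => if c ∈ s then z' c else z c) (fun c => if c ∈ s then a' c else a c) ∧
      (∀ x, od G x ≤ od F x + 2 * s.card) ∧ ∀ x, idg G x ≤ idg F x + 2 * s.card := by
  induction s using Finset.induction_on with
  | empty => exact ⟨F, hF, by simpa using h, by simp, by simp⟩
  | insert c s hc ih =>
    obtain ⟨G, g1, g2, g3, g4⟩ := ih
    set z1 : κ → V := fun c => if c ∈ s then z' c else z c with hz1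
    set a1 : κ → V := fun c => if c ∈ s then a' c else a c with ha1
    obtain ⟨G1, p1, p2, p3, p4⟩ := augment A _ hA G g1 (z' c) (z1 c)
      (fun U _ hU => g2.lt U c (Or.inl hU))
    have f1 : IsFlow G1 (Function.update z1 c (z' c)) a1 := by
      intro φ
      rw [p2, g2 φ, sum_sub_distrib, sum_sub_distrib, sum_update]
      ring
    obtain ⟨G2, q1, q2, q3, q4⟩ := augment A _ hA G1 p1 (a1 c) (a' c)
      (fun U hU _ => f1.lt U c (Or.inr hU))
    have e1 : (fun d => if d ∈ insert c s then z' d else z d) = Function.update z1 c (z' c) := by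
      funext d
      by_cases hd : d = c
      · subst hd; simp
      · simp [hd, hz1]
    have e2 : (fun d => if d ∈ insert c s then a' d else a d) = Function.update a1 c (a' c) := by
      funext d
      by_cases hd : d = c
      · subst hd; simp
      · simp [hd, ha1]
    refine ⟨G2, q1, ?_, fun x => ?_, fun x => ?_⟩
    · rw [e1, e2]
      intro φ
      rw [q2, f1 φ, sum_sub_distrib, sum_sub_distrib, sum_update φ a1]
      ring
    · have := g3 x; have := p3 x; have := q3 x
      rw [card_insert_of_notMem hc]; omega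
    · have := g4 x; have := p4 x; have := q4 x
      rw [card_insert_of_notMem hc]; omega

theorem decomp_aux (z a : κ → V) (n : ℕ) : ∀ (s s' : Finset κ) (F : Finset (V × V)),
    s.card = n → s'.card = n → (∀ φ, dv F φ = ∑ c ∈ s, φ (z c) - ∑ c ∈ s', φ (a c)) →
    ∃ (σ : κ → κ) (P : κ → Finset (V × V)), (∀ c ∈ s, σ c ∈ s') ∧ Set.InjOn σ s ∧
      (∀ c ∈ s, P c ⊆ F ∧ IsPath (P c) (z c) (a (σ c))) ∧
      ∀ c ∈ s, ∀ d ∈ s, c ≠ d → Disjoint (P c) (P d) := by
  classical
  induction n with
  | zero =>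
    intro s s' F h1 _ _
    rw [card_eq_zero.1 h1]
    exact ⟨id, fun _ => ∅, by simp, by simp, by simp, by simp⟩
  | succ n ih =>
    intro s s' F h1 h2 h3
    obtain ⟨c, hc⟩ : s.Nonempty := card_pos.1 (by omega)
    let U : Finset V := univ.filter (fun x => ReflTransGen (fun a b => (a, b) ∈ F) (z c) x)
    have hU : ∀ x, x ∈ U ↔ ReflTransGen (fun a b => (a, b) ∈ F) (z c) x := fun x => by simp [U]
    obtain ⟨c', hc', hr⟩ : ∃ c' ∈ s', a c' ∈ U := by
      by_contra hn
      push Not at hn
      have e1 : outc F U = ∅ := by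
        apply eq_empty_of_forall_notMem
        intro e he
        obtain ⟨e1, e2, e3⟩ := mem_ent.1 he
        exact e3 ((hU _).2 (((hU _).1 e2).tail e1))
      have e2 := h3 (ind U)
      have e3 : ∑ d ∈ s', ind U (a d) = 0 := sum_eq_zero fun d hd => by simp [ind, hn d hd]
      have e4 : ind U (z c) ≤ ∑ d ∈ s, ind U (z d) :=
        single_le_sum (f := fun d => ind U (z d)) (fun d _ => by unfold ind; split_ifs <;> omega) hc
      have e5 : ind U (z c) = 1 := by simp [ind, (hU _).2 ReflTransGen.refl]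
      rw [dv_ind, e1, e3] at e2
      simp only [card_empty, Nat.cast_zero] at e2
      omega
    obtain ⟨Q, hQ, hQF⟩ := exists_path _ ((hU _).1 hr)
    have hQF' : Q ⊆ F := fun e he => hQF e he
    obtain ⟨σ, P, p1, p2, p3, p4⟩ := ih (s.erase c) (s'.erase c') (F \ Q)
      (by rw [card_erase_of_mem hc]; omega) (by rw [card_erase_of_mem hc']; omega) (fun φ => by
        rw [dv_sdiff hQF', h3, hQ.bd, ← add_sum_erase s _ hc, ← add_sum_erase s' _ hc']
        ring)
    refine ⟨Function.update σ c c', Function.update P c Q, fun d hd => ?_, ?_, fun d hd => ?_,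
      fun d hd e he hde => ?_⟩
    · by_cases hdc : d = c
      · subst hdc; simpa using hc'
      · rw [Function.update_of_ne hdc]
        exact mem_of_mem_erase (p1 d (mem_erase.2 ⟨hdc, hd⟩))
    · intro d hd e he hde
      by_cases hdc : d = c <;> by_cases hec : e = c
      · rw [hdc, hec]
      · subst hdc
        rw [Function.update_self, Function.update_of_ne hec] at hde
        exact absurd hde.symm (mem_erase.1 (p1 e (mem_erase.2 ⟨hec, he⟩))).1
      · subst hec
        rw [Function.update_self, Function.update_of_ne hdc] at hde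
        exact absurd hde (mem_erase.1 (p1 d (mem_erase.2 ⟨hdc, hd⟩))).1
      · rw [Function.update_of_ne hdc, Function.update_of_ne hec] at hde
        exact p2 (mem_erase.2 ⟨hdc, hd⟩) (mem_erase.2 ⟨hec, he⟩) hde
    · by_cases hdc : d = c
      · subst hdc
        simp only [Function.update_self]
        exact ⟨hQF', hQ⟩
      · simp only [Function.update_of_ne hdc]
        obtain ⟨q1, q2⟩ := p3 d (mem_erase.2 ⟨hdc, hd⟩)
        exact ⟨q1.trans sdiff_subset, q2⟩
    · have key : ∀ d ∈ s, d ≠ c → Disjoint Q (P d) := fun d hd hdc =>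
        disjoint_left.2 fun x hx hx' => (mem_sdiff.1 ((p3 d (mem_erase.2 ⟨hdc, hd⟩)).1 hx')).2 hx
      by_cases hdc : d = c <;> by_cases hec : e = c
      · exact absurd (hdc.trans hec.symm) hde
      · subst hdc
        rw [Function.update_self, Function.update_of_ne hec]
        exact key e he hec
      · subst hec
        rw [Function.update_self, Function.update_of_ne hdc]
        exact (key d hd hdc).symm
      · rw [Function.update_of_ne hdc, Function.update_of_ne hec]
        exact p4 d (mem_erase.2 ⟨hdc, hd⟩) e (mem_erase.2 ⟨hec, he⟩) hde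

theorem decomp {F : Finset (V × V)} {z a : κ → V} (h : IsFlow F z a) :
    ∃ (σ : κ → κ) (P : κ → Finset (V × V)), Function.Injective σ ∧
      (∀ c, P c ⊆ F ∧ IsPath (P c) (z c) (a (σ c))) ∧ ∀ c d, c ≠ d → Disjoint (P c) (P d) := by
  obtain ⟨σ, P, _, p2, p3, p4⟩ := decomp_aux z a _ univ univ F rfl rfl
    (fun φ => by rw [h φ, sum_sub_distrib])
  exact ⟨σ, P, fun c d hcd => p2 (by simp) (by simp) hcd, fun c => p3 c (mem_univ _),
    fun c d => p4 c (mem_univ _) d (mem_univ _)⟩

end Pool.Agent.Lib.MP_44ed1d_co
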