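import Mathlib
import Pool.Agent.Lib.MP_44ed1d_co.Flow

set_option autoImplicit false
set_option linter.unusedSectionVars false

namespace Pool.Agent.Lib.MP_44ed1d_co

open Finset Relation

variable {V : Type} [DecidableEq V] [Fintype V]
variable {κ : Type} [Fintype κ] [DecidableEq κ]

theorem acyclic {F : Finset (V × V)} {z a : κ → V} (h : IsFlow F z a) :
    ∃ G : Finset (V × V), G ⊆ F ∧ IsFlow G z a ∧
      ∃ pos : V → ℤ, ∀ e ∈ G, pos e.1 < pos e.2 := by
  classical
  obtain ⟨G, hG, hmin⟩ := exists_min_image (F.powerset.filter (fun G => IsFlow G z a)) card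
    ⟨F, mem_filter.2 ⟨mem_powerset_self _, h⟩⟩
  obtain ⟨g1, g2⟩ := mem_filter.1 hG
  have g3 := mem_powerset.1 g1
  have hac : ∀ e ∈ G, ¬ ReflTransGen (fun a b => (a, b) ∈ G) e.2 e.1 := by
    intro e he hr
    obtain ⟨Q, hQ, hQG⟩ := exists_path _ hr
    have heQ : e ∉ Q := fun hh => hQ.last e hh rfl
    have hsub : insert e Q ⊆ G := insert_subset he (fun x hx => hQG x hx)
    have hfl : IsFlow (G \ insert e Q) z a := by
      intro φ
      have h1 := hQ.bd φ
      have h2 : dv (insert e Q) φ = (φ e.1 - φ e.2) + dv Q φ := sum_insert heQ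
      rw [dv_sdiff hsub, h2, h1, g2 φ]
      ring
    have h3 := hmin _ (mem_filter.2 ⟨mem_powerset.2 (sdiff_subset.trans g3), hfl⟩)
    have h4 : (G \ insert e Q).card < G.card :=
      card_lt_card ⟨sdiff_subset, fun hh => (mem_sdiff.1 (hh he)).2 (mem_insert_self _ _)⟩
    omega
  refine ⟨G, g3, g2, fun v =>
    ((univ.filter (fun u => ReflTransGen (fun a b => (a, b) ∈ G) u v)).card : ℤ), fun e he => ?_⟩
  simp only [Nat.cast_lt]
  apply card_lt_card
  refine ⟨fun u hu => mem_filter.2 ⟨mem_univ _, (mem_filter.1 hu).2.tail he⟩, fun hh => ?_⟩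
  exact hac e he (mem_filter.1 (hh (mem_filter.2 ⟨mem_univ _, ReflTransGen.refl⟩))).2

lemma pairs_half {α : Type} [DecidableEq α] (S : Finset α) (p : α → ℤ) :
    S.card * S.card ≤ 2 * ((S ×ˢ S).filter (fun x => p x.1 ≤ p x.2)).card := by
  have h1 : S ×ˢ S ⊆ (S ×ˢ S).filter (fun x => p x.1 ≤ p x.2) ∪
      ((S ×ˢ S).filter (fun x => p x.1 ≤ p x.2)).image Prod.swap := by
    rintro ⟨x, y⟩ hxy
    rcases le_total (p x) (p y) with h | h
    · exact mem_union_left _ (mem_filter.2 ⟨hxy, h⟩)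
    · refine mem_union_right _ (mem_image.2 ⟨(y, x), mem_filter.2 ⟨?_, h⟩, rfl⟩)
      exact mem_product.2 ⟨(mem_product.1 hxy).2, (mem_product.1 hxy).1⟩
  have h2 := (card_le_card h1).trans ((card_union_le _ _).trans
    (Nat.add_le_add_left card_image_le _))
  rw [card_product] at h2
  omega

theorem heavy (t h : V × V → V) (hth : ∀ e e', t e = t e' → h e = h e' → e = e')
    (F : Finset (V × V)) (pos : V → ℤ) (hpos : ∀ e ∈ F, pos (t e) < pos (h e)) (k w : ℕ)
    (hk : ∀ r : ℤ, (F.filter (fun e => pos (t e) ≤ r ∧ r < pos (h e))).card ≤ k)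
    (H : Finset V) (hH : ∀ x ∈ H, w ≤ (F.filter (fun e => t e = x)).card) :
    H.card * w ^ 2 ≤ 2 * k * Fintype.card V := by
  let G := F.filter (fun e => t e ∈ H)
  let d : V → ℕ := fun v => (G.filter (fun e => h e = v)).card
  have h1 : H.card * w ≤ ∑ v, d v := by
    have a1 : G.card = ∑ v, d v := card_eq_sum_card_fiberwise (f := h) (fun _ _ => mem_univ _)
    have a2 : G.card = ∑ x ∈ H, (G.filter (fun e => t e = x)).card :=
      card_eq_sum_card_fiberwise (f := t) (fun e he => (mem_filter.1 he).2)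
    rw [← a1, a2, ← smul_eq_mul]
    apply card_nsmul_le_sum
    intro x hx
    refine (hH x hx).trans (card_le_card fun e he => ?_)
    obtain ⟨e1, e2⟩ := mem_filter.1 he
    exact mem_filter.2 ⟨mem_filter.2 ⟨e1, e2 ▸ hx⟩, e2⟩
  let T : Finset ((V × V) × V) := (F ×ˢ H).filter (fun x => pos (t x.1) ≤ pos x.2 ∧
    pos x.2 < pos (h x.1))
  have h2 : T.card ≤ H.card * k := by
    have a1 : T.card = ∑ x ∈ H, (T.filter (fun y => y.2 = x)).card :=
      card_eq_sum_card_fiberwise (f := Prod.snd)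
        (fun e he => (mem_product.1 (mem_filter.1 he).1).2)
    rw [a1, ← smul_eq_mul]
    apply sum_le_card_nsmul
    intro x _
    refine le_trans ?_ (hk (pos x))
    apply card_le_card_of_injOn Prod.fst
    · intro y hy
      obtain ⟨y1, y2⟩ := mem_filter.1 (mem_coe.1 hy)
      obtain ⟨y3, y4⟩ := mem_filter.1 y1
      exact mem_coe.2 (mem_filter.2 ⟨(mem_product.1 y3).1, y2 ▸ y4⟩)
    · intro y hy y' hy' hh
      exact Prod.ext hh ((mem_filter.1 (mem_coe.1 hy)).2.trans
        (mem_filter.1 (mem_coe.1 hy')).2.symm)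
  have h3 : ∑ v, d v ^ 2 ≤ 2 * T.card := by
    have a1 : T.card = ∑ v, (T.filter (fun y => h y.1 = v)).card :=
      card_eq_sum_card_fiberwise (f := fun y : (V × V) × V => h y.1) (fun _ _ => mem_univ _)
    rw [a1, mul_sum]
    apply sum_le_sum
    intro v _
    rw [pow_two]
    refine (pairs_half (G.filter (fun e => h e = v)) (fun e => pos (t e))).trans
      (Nat.mul_le_mul_left _ ?_)
    apply card_le_card_of_injOn (fun x => (x.1, t x.2))
    · intro x hx
      obtain ⟨x1, x2⟩ := mem_filter.1 (mem_coe.1 hx)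
      obtain ⟨x3, x4⟩ := mem_product.1 x1
      obtain ⟨x5, x6⟩ := mem_filter.1 x3
      obtain ⟨x7, x8⟩ := mem_filter.1 x4
      refine mem_coe.2 (mem_filter.2 ⟨mem_filter.2 ⟨mem_product.2
        ⟨(mem_filter.1 x5).1, (mem_filter.1 x7).2⟩, x2, ?_⟩, x6⟩)
      have := hpos _ (mem_filter.1 x7).1
      rw [x8, ← x6] at this
      exact this
    · intro x hx y hy hh
      obtain ⟨p1, p2⟩ := Prod.mk.inj hh
      refine Prod.ext p1 (hth _ _ p2 ?_)
      rw [(mem_filter.1 (mem_product.1 (mem_filter.1 (mem_coe.1 hx)).1).2).2,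
        (mem_filter.1 (mem_product.1 (mem_filter.1 (mem_coe.1 hy)).1).2).2]
  have h4 : (∑ v, d v) ^ 2 ≤ Fintype.card V * ∑ v, d v ^ 2 := by
    have := sq_sum_le_card_mul_sum_sq (s := (univ : Finset V)) (f := d)
    rwa [card_univ] at this
  rcases Nat.eq_zero_or_pos H.card with h0 | h0
  · rw [h0]; simp
  apply Nat.le_of_mul_le_mul_left _ h0
  calc H.card * (H.card * w ^ 2) = (H.card * w) ^ 2 := by ring
    _ ≤ (∑ v, d v) ^ 2 := Nat.pow_le_pow_left h1 2
    _ ≤ Fintype.card V * (2 * (H.card * k)) :=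
        h4.trans (Nat.mul_le_mul_left _ (h3.trans (Nat.mul_le_mul_left _ h2)))
    _ = H.card * (2 * k * Fintype.card V) := by ring

lemma IsFlow.cross {F : Finset (V × V)} {z a : κ → V} (h : IsFlow F z a) (pos : V → ℤ)
    (hpos : ∀ e ∈ F, pos e.1 < pos e.2) (r : ℤ) :
    (F.filter (fun e => pos e.1 ≤ r ∧ r < pos e.2)).card ≤ Fintype.card κ := by
  have h1 := h.le (univ.filter (fun v => pos v ≤ r))
  have h2 : inc F (univ.filter (fun v => pos v ≤ r)) = ∅ := by
    apply eq_empty_of_forall_notMem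
    intro e he
    obtain ⟨e1, e2, e3⟩ := mem_ent.1 he
    have := hpos e e1
    simp only [mem_filter, mem_univ, true_and] at e2 e3
    omega
  have h3 : F.filter (fun e => pos e.1 ≤ r ∧ r < pos e.2) ⊆
      outc F (univ.filter (fun v => pos v ≤ r)) := by
    intro e he
    obtain ⟨e1, e2, e3⟩ := mem_filter.1 he
    refine mem_ent.2 ⟨e1, by simpa using e2, by simpa using e3⟩
  have h4 := card_le_card h3
  rw [dv_ind, h2] at h1
  simp only [card_empty, Nat.cast_zero, sub_zero, Nat.cast_le] at h1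
  omega

lemma moved_count (a : κ → V) (ha : Function.Injective a) (A0 X : Finset V) (hA : ∀ c, a c ∈ A0)
    (x : V) (S : Finset V) :
    (univ.filter (fun c => (if a c ∈ X then x else a c) ∈ S)).card ≤ (A0 ∩ S).card + X.card := by
  have h1 : univ.filter (fun c => (if a c ∈ X then x else a c) ∈ S) ⊆
      univ.filter (fun c => a c ∈ A0 ∩ S) ∪ univ.filter (fun c => a c ∈ X) := by
    intro c hc
    have := (mem_filter.1 hc).2
    by_cases hx : a c ∈ X
    · exact mem_union_right _ (mem_filter.2 ⟨mem_univ _, hx⟩)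
    · rw [if_neg hx] at this
      exact mem_union_left _ (mem_filter.2 ⟨mem_univ _, mem_inter.2 ⟨hA c, this⟩⟩)
  have h2 : ∀ Y : Finset V, (univ.filter (fun c => a c ∈ Y)).card ≤ Y.card := fun Y =>
    card_le_card_of_injOn a (fun c hc => (mem_filter.1 (mem_coe.1 hc)).2) ha.injOn
  exact (card_le_card h1).trans ((card_union_le _ _).trans (add_le_add (h2 _) (h2 _)))

lemma exists_enum (A0 : Finset V) (h : A0.card = Fintype.card κ) :
    ∃ a : κ → V, Function.Injective a ∧ ∀ c, a c ∈ A0 := by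
  obtain ⟨e⟩ := Function.Embedding.nonempty_of_card_le (α := κ) (β := A0) (by simp [h])
  exact ⟨fun c => e c, fun a b hab => e.injective (Subtype.ext hab), fun c => (e c).2⟩

theorem good_flow (A : Finset (V × V)) (hA : KCut A (Fintype.card κ)) (A0 Z0 : Finset V)
    (hA0 : A0.card = Fintype.card κ) (hZ0 : Z0.card = Fintype.card κ) (u : ℕ) (hu : 0 < u)
    (huk : u < Fintype.card κ) (hbig : 16 * Fintype.card κ * Fintype.card V ≤ u ^ 3) :
    ∃ (X : Finset V) (z a : κ → V) (P : κ → Finset (V × V)), X.card ≤ u ∧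
      (∀ c, z c ∈ Z0 ∧ z c ∉ X) ∧ (∀ c, a c ∈ A0 ∧ a c ∉ X) ∧
      (∀ S : Finset V, (univ.filter (fun c => z c ∈ S)).card ≤ (Z0 ∩ S).card + u) ∧
      (∀ S : Finset V, (univ.filter (fun c => a c ∈ S)).card ≤ (A0 ∩ S).card + u) ∧
      (∀ c, P c ⊆ A ∧ IsPath (P c) (z c) (a c)) ∧ (∀ c d, c ≠ d → Disjoint (P c) (P d)) ∧
      ∀ v, v ∉ X → (univ.filter (fun y => ∃ c, (v, y) ∈ P c)).card ≤ 2 * u ∧
        (univ.filter (fun y => ∃ c, (y, v) ∈ P c)).card ≤ 2 * u := by
  classical
  obtain ⟨a0, a1, a2⟩ := exists_enum (κ := κ) A0 hA0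
  obtain ⟨z0, z1, z2⟩ := exists_enum (κ := κ) Z0 hZ0
  obtain ⟨F1, f1, f2, -, -⟩ := move A hA ∅ (empty_subset _) z0 z0 z0 a0
    (fun φ => by simp [dv]) univ
  simp only [mem_univ, if_true] at f2
  obtain ⟨F, g1, g2, pos, g3⟩ := acyclic f2
  let X1 := univ.filter (fun x => u ≤ od F x)
  let X2 := univ.filter (fun x => u ≤ idg F x)
  have x1 : X1.card * u ^ 2 ≤ 2 * Fintype.card κ * Fintype.card V :=
    heavy Prod.fst Prod.snd (fun _ _ => Prod.ext) F pos g3 _ u (g2.cross pos g3) X1
      (fun x hx => (mem_filter.1 hx).2)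
  have x2 : X2.card * u ^ 2 ≤ 2 * Fintype.card κ * Fintype.card V :=
    heavy Prod.snd Prod.fst (fun _ _ h1 h2 => Prod.ext h2 h1) F (fun v => - pos v)
      (fun e he => by have := g3 e he; omega) _ u
      (fun r => by
        refine le_trans (card_le_card fun e he => ?_) (g2.cross pos g3 (-r - 1))
        obtain ⟨e1, e2, e3⟩ := mem_filter.1 he
        exact mem_filter.2 ⟨e1, by omega, by omega⟩) X2 (fun x hx => (mem_filter.1 hx).2)
  let X := X1 ∪ X2
  have hX : 4 * X.card ≤ u := by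
    have b1 : X.card ≤ X1.card + X2.card := card_union_le _ _
    apply Nat.le_of_mul_le_mul_right _ (pow_pos hu 2)
    calc 4 * X.card * u ^ 2 ≤ 4 * (X1.card + X2.card) * u ^ 2 := by gcongr
      _ = 4 * (X1.card * u ^ 2) + 4 * (X2.card * u ^ 2) := by ring
      _ ≤ 16 * Fintype.card κ * Fintype.card V := by
          have : 16 * Fintype.card κ * Fintype.card V =
            4 * (2 * Fintype.card κ * Fintype.card V) + 4 * (2 * Fintype.card κ * Fintype.card V) := by
            ring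
          omega
      _ ≤ u * u ^ 2 := by rw [← pow_succ']; exact hbig
  obtain ⟨as, as1, as2⟩ := exists_mem_notMem_of_card_lt_card (s := X) (t := A0) (by omega)
  obtain ⟨zs, zs1, zs2⟩ := exists_mem_notMem_of_card_lt_card (s := X) (t := Z0) (by omega)
  let z' : κ → V := fun c => if z0 c ∈ X then zs else z0 c
  let a' : κ → V := fun c => if a0 c ∈ X then as else a0 c
  let s : Finset κ := univ.filter (fun c => z0 c ∈ X) ∪ univ.filter (fun c => a0 c ∈ X)
  have hs : s.card ≤ 2 * X.card := by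
    have h2 : ∀ a : κ → V, Function.Injective a →
        (univ.filter (fun c => a c ∈ X)).card ≤ X.card := fun a ha =>
      card_le_card_of_injOn a (fun c hc => (mem_filter.1 (mem_coe.1 hc)).2) ha.injOn
    have := h2 _ a1
    have := h2 _ z1
    have : s.card ≤ _ := card_union_le _ _
    omega
  obtain ⟨G, p1, p2, p3, p4⟩ := move A hA F (g1.trans f1) z0 a0 z' a' g2 s
  have e1 : (fun c => if c ∈ s then z' c else z0 c) = z' := by
    funext c
    by_cases hc : c ∈ s
    · rw [if_pos hc]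
    · rw [if_neg hc]
      have : z0 c ∉ X := fun hh => hc (mem_union_left _ (mem_filter.2 ⟨mem_univ _, hh⟩))
      simp only [z', if_neg this]
  have e2 : (fun c => if c ∈ s then a' c else a0 c) = a' := by
    funext c
    by_cases hc : c ∈ s
    · rw [if_pos hc]
    · rw [if_neg hc]
      have : a0 c ∉ X := fun hh => hc (mem_union_right _ (mem_filter.2 ⟨mem_univ _, hh⟩))
      simp only [a', if_neg this]
  rw [e1, e2] at p2
  obtain ⟨σ, P, q1, q2, q3⟩ := decomp p2
  refine ⟨X, z', fun c => a' (σ c), P, by omega, fun c => ?_, fun c => ?_, fun S => ?_,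
    fun S => ?_, fun c => ⟨(q2 c).1.trans p1, (q2 c).2⟩, q3, fun v hv => ⟨?_, ?_⟩⟩
  · simp only [z']
    split_ifs with hh
    · exact ⟨zs1, zs2⟩
    · exact ⟨z2 c, hh⟩
  · simp only [a']
    split_ifs with hh
    · exact ⟨as1, as2⟩
    · exact ⟨a2 _, hh⟩
  · exact (moved_count z0 z1 Z0 X z2 zs S).trans (by omega)
  · exact (moved_count (fun c => a0 (σ c)) (a1.comp q1) A0 X (fun c => a2 _) as S).trans (by omega)
  · have b1 : od F v < u := by
      by_contra hh
      exact hv (mem_union_left _ (mem_filter.2 ⟨mem_univ _, not_lt.1 hh⟩))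
    have b2 : (univ.filter (fun y => ∃ c, (v, y) ∈ P c)).card ≤ od G v := by
      apply card_le_card_of_injOn (fun y => (v, y))
      · intro y hy
        obtain ⟨c, hc⟩ := (mem_filter.1 (mem_coe.1 hy)).2
        exact mem_coe.2 (mem_filter.2 ⟨(q2 c).1 hc, rfl⟩)
      · intro y _ y' _ hh
        exact (Prod.mk.inj hh).2
    have := p3 v
    omega
  · have b1 : idg F v < u := by
      by_contra hh
      exact hv (mem_union_right _ (mem_filter.2 ⟨mem_univ _, not_lt.1 hh⟩))
    have b2 : (univ.filter (fun y => ∃ c, (y, v) ∈ P c)).card ≤ idg G v := by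
      apply card_le_card_of_injOn (fun y => (y, v))
      · intro y hy
        obtain ⟨c, hc⟩ := (mem_filter.1 (mem_coe.1 hy)).2
        exact mem_coe.2 (mem_filter.2 ⟨(q2 c).1 hc, rfl⟩)
      · intro y _ y' _ hh
        exact (Prod.mk.inj hh).1
    have := p4 v
    omega

end Pool.Agent.Lib.MP_44ed1d_co
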