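import Mathlib
import Pool.Agent.Lib.MP_44ed1d_co.Back

set_option autoImplicit false
set_option linter.unusedSectionVars false

namespace Pool.Agent.Lib.MP_44ed1d_co

open Finset

variable {V : Type} [DecidableEq V] [Fintype V]
variable {κ : Type} [Fintype κ] [DecidableEq κ] [Nonempty κ]

theorem sparse_in (A : Finset (V × V)) (S : Finset V) (k : ℕ)
    (hc : ∀ U : Finset V, U.Nonempty → U ⊆ S → k ≤ (inc A U).card) :
    ∃ B : Finset (V × V), B ⊆ A ∧ (∀ U : Finset V, U.Nonempty → U ⊆ S → k ≤ (inc B U).card) ∧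
      ∀ y, (B.filter (fun e => e.2 = y)).card ≤ k := by
  classical
  obtain ⟨B, hB, hmin⟩ := exists_min_image (univ.filter (fun B : Finset (V × V) => B ⊆ A ∧
    ∀ U : Finset V, U.Nonempty → U ⊆ S → k ≤ (inc B U).card)) card
    ⟨A, mem_filter.2 ⟨mem_univ _, Subset.refl _, hc⟩⟩
  obtain ⟨b1, b2⟩ := (mem_filter.1 hB).2
  refine ⟨B, b1, b2, fun y => ?_⟩
  have crit : ∀ e ∈ B, ∃ U : Finset V, U ⊆ S ∧ (inc B U).card ≤ k ∧ e ∈ inc B U := by
    intro e he
    by_contra hn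
    push Not at hn
    have := hmin (B.erase e) (mem_filter.2 ⟨mem_univ _, (erase_subset _ _).trans b1, fun U u1 u2 => by
      have h1 := b2 U u1 u2
      have h2 : inc B U ⊆ insert e (inc (B.erase e) U) := by
        intro x hx
        rw [mem_insert, mem_ent, mem_erase]
        rw [mem_ent] at hx
        tauto
      by_cases h3 : (inc B U).card ≤ k
      · refine h1.trans (card_le_card (fun x hx => ?_))
        rcases mem_insert.1 (h2 hx) with h4 | h4
        · exact absurd (h4 ▸ hx) (hn U u2 h3)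
        · exact h4
      · have h4 := card_le_card h2
        have h5 := card_insert_le e (inc (B.erase e) U)
        omega⟩)
    have h6 := card_erase_add_one he
    omega
  rcases (B.filter (fun e => e.2 = y)).eq_empty_or_nonempty with h0 | ⟨e0, he0⟩
  · rw [h0]
    simp
  obtain ⟨U0, u1, u2, u3⟩ := crit e0 (mem_filter.1 he0).1
  obtain ⟨W, hW, hWmin⟩ := exists_min_image
    (univ.filter (fun U : Finset V => U ⊆ S ∧ (inc B U).card ≤ k ∧ y ∈ U)) card
    ⟨U0, mem_filter.2 ⟨mem_univ _, u1, u2, (mem_filter.1 he0).2 ▸ (mem_ent.1 u3).2.1⟩⟩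
  obtain ⟨w1, w2, w3⟩ := (mem_filter.1 hW).2
  refine le_trans (card_le_card (fun e he => ?_)) w2
  obtain ⟨e1, e2⟩ := mem_filter.1 he
  obtain ⟨U, v1, v2, v3⟩ := crit e e1
  have hyU : y ∈ U := e2 ▸ (mem_ent.1 v3).2.1
  have h1 := ent_submod Prod.fst Prod.snd B W U
  have h2 := b2 (W ∪ U) ⟨y, mem_union_left _ w3⟩ (union_subset w1 v1)
  have h3 := hWmin (W ∩ U) (mem_filter.2 ⟨mem_univ _, inter_subset_left.trans w1,
    by simp only [inc] at *; omega, mem_inter.2 ⟨w3, hyU⟩⟩)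
  have h4 : W ⊆ U := by
    rw [← eq_of_subset_of_card_le inter_subset_left h3]
    exact inter_subset_right
  exact mem_ent.2 ⟨e1, e2 ▸ w3, fun h' => (mem_ent.1 v3).2.2 (h4 h')⟩

lemma remain_num (K d g k ρ m u x : ℕ) (h1 : K * min u (m - u) ≤ x + d * (m - u))
    (h2 : g ≤ x + u) (h3 : d + k ≤ K) (h4 : k + ρ * d ≤ g) (h5 : m ≤ ρ * K) (h6 : u < m) :
    k ≤ x := by
  rcases le_total (m - u) u with h | h
  · rw [min_eq_right h] at h1
    obtain ⟨r, hr⟩ : ∃ r, m - u = r + 1 := ⟨m - u - 1, by omega⟩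
    rw [hr] at h1
    nlinarith [Nat.mul_le_mul_right (r + 1) h3, Nat.zero_le (k * r)]
  · rw [min_eq_left h] at h1
    by_contra hx
    have h7 : ρ * d + 1 ≤ u := by omega
    have h8 : d * (m - u) ≤ d * (ρ * K) := Nat.mul_le_mul_left _ (by omega)
    nlinarith [Nat.mul_le_mul_left K h7]

lemma remain (t h : V × V → V) (hth : ∀ e e', t e = t e' → h e = h e' → e = e')
    (A D : Finset (V × V)) (M U : Finset V)
    (hAM : ∀ e ∈ A, t e ∈ M) (K d g k ρ : ℕ) (hU : U.Nonempty) (hUM : U ⊆ M) (hne : U ≠ M)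
    (h1 : K * min U.card (M.card - U.card) ≤ (ent t h A U).card)
    (hD : ∀ y, (D.filter (fun e => t e = y)).card ≤ d)
    (hg : ∀ w ∈ M, g ≤ ((A \ D).filter (fun e => h e = w)).card)
    (h3 : d + k ≤ K) (h4 : k + ρ * d ≤ g) (h5 : M.card ≤ ρ * K) :
    k ≤ (ent t h (A \ D) U).card := by
  refine remain_num K d g k ρ M.card U.card _ (h1.trans ?_) ?_ h3 h4 h5
    (card_lt_card (Finset.ssubset_iff_subset_ne.2 ⟨hUM, hne⟩))
  · have a1 : ent t h A U ⊆ ent t h (A \ D) U ∪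
        (M \ U).biUnion (fun y => D.filter (fun e => t e = y)) := by
      intro e he
      obtain ⟨e1, e2, e3⟩ := mem_ent.1 he
      by_cases hd : e ∈ D
      · exact mem_union_right _ (mem_biUnion.2 ⟨t e, mem_sdiff.2 ⟨hAM e e1, e3⟩,
          mem_filter.2 ⟨hd, rfl⟩⟩)
      · exact mem_union_left _ (mem_ent.2 ⟨mem_sdiff.2 ⟨e1, hd⟩, e2, e3⟩)
    refine (card_le_card a1).trans ((card_union_le _ _).trans (Nat.add_le_add_left ?_ _))
    refine (card_biUnion_le_card_mul _ _ d (fun y _ => hD y)).trans ?_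
    rw [card_sdiff_of_subset hUM, mul_comm]
  · obtain ⟨w, hw⟩ := hU
    refine (hg w (hUM hw)).trans ?_
    have a1 : (A \ D).filter (fun e => h e = w) ⊆ ent t h (A \ D) U ∪
        univ.filter (fun e => h e = w ∧ t e ∈ U) := by
      intro e he
      obtain ⟨e1, e2⟩ := mem_filter.1 he
      by_cases hd : t e ∈ U
      · exact mem_union_right _ (mem_filter.2 ⟨mem_univ _, e2, hd⟩)
      · exact mem_union_left _ (mem_ent.2 ⟨e1, e2 ▸ hw, hd⟩)
    refine (card_le_card a1).trans ((card_union_le _ _).trans (Nat.add_le_add_left ?_ _))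
    apply card_le_card_of_injOn t
    · intro e he
      exact (mem_filter.1 (mem_coe.1 he)).2.2
    · intro e he e' he' hh
      exact hth e e' hh (by rw [(mem_filter.1 (mem_coe.1 he)).2.1,
        (mem_filter.1 (mem_coe.1 he')).2.1])

theorem gupta (A : Finset (V × V)) (M : Finset V) (K : ℕ) (hK : 0 < K)
    (ho : ∀ u ∈ M, K ≤ (A.filter (fun e => e.1 = u)).card)
    (hi : ∀ u ∈ M, K ≤ (A.filter (fun e => e.2 = u)).card) :
    ∃ γ : V × V → Fin K, (∀ u ∈ M, ∀ j, ∃ e ∈ A, γ e = j ∧ e.1 = u) ∧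
      ∀ u ∈ M, ∀ j, ∃ e ∈ A, γ e = j ∧ e.2 = u := by
  have : Nonempty (Fin K) := ⟨⟨0, hK⟩⟩
  obtain ⟨γ, v1, v2⟩ := bibranch (V := V ⊕ V) (κ := Fin K) (fun e : V × V => Sum.inl e.1)
    (fun e => Sum.inr e.2) A (M.image Sum.inl) (M.image Sum.inr)
    (by
      rw [disjoint_left]
      intro x h1 h2
      obtain ⟨a, -, rfl⟩ := mem_image.1 h1
      obtain ⟨b, -, hb⟩ := mem_image.1 h2
      exact Sum.inr_ne_inl hb)
    (by
      rintro U ⟨x, hx⟩ hU
      obtain ⟨a, ha, rfl⟩ := mem_image.1 (hU hx)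
      rw [Fintype.card_fin]
      refine (hi a ha).trans (card_le_card (fun e he => ?_))
      obtain ⟨e1, e2⟩ := mem_filter.1 he
      refine mem_ent.2 ⟨e1, by simpa only [e2] using hx, fun h' => ?_⟩
      obtain ⟨b, -, hb⟩ := mem_image.1 (hU h')
      exact Sum.inr_ne_inl hb)
    (by
      rintro U ⟨x, hx⟩ hU
      obtain ⟨a, ha, rfl⟩ := mem_image.1 (hU hx)
      rw [Fintype.card_fin]
      refine (ho a ha).trans (card_le_card (fun e he => ?_))
      obtain ⟨e1, e2⟩ := mem_filter.1 he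
      refine mem_ent.2 ⟨e1, by simpa only [e2] using hx, fun h' => ?_⟩
      obtain ⟨b, -, hb⟩ := mem_image.1 (hU h')
      exact Sum.inl_ne_inr hb)
  refine ⟨γ, fun u hu j => ?_, fun u hu j => ?_⟩
  · obtain ⟨e, e1, e2, e3, -⟩ := v2 j {Sum.inl u} (singleton_nonempty _)
      (singleton_subset_iff.2 (mem_image_of_mem _ hu))
    exact ⟨e, e1, e2, by simpa using e3⟩
  · obtain ⟨e, e1, e2, e3, -⟩ := v1 j {Sum.inr u} (singleton_nonempty _)
      (singleton_subset_iff.2 (mem_image_of_mem _ hu))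
    exact ⟨e, e1, e2, by simpa using e3⟩

theorem dense (A : Finset (V × V)) (M : Finset V) (hAM : ∀ e ∈ A, e.1 ∈ M ∧ e.2 ∈ M)
    (K ρ : ℕ) (hK : (ρ + 2) ^ 2 * Fintype.card κ ≤ K) (hm : M.card ≤ ρ * K) (h2 : 2 ≤ M.card)
    (hexp : ∀ U : Finset V, U.Nonempty → U ⊆ M → U ≠ M →
      K * min U.card (M.card - U.card) ≤ (outc A U).card) :
    ∃ φ : V × V → κ, ∀ c (U : Finset V), U.Nonempty → U ⊆ M → U ≠ M →
      ∃ e ∈ A, φ e = c ∧ e.1 ∈ U ∧ e.2 ∉ U := by
  classical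
  set k := Fintype.card κ with hk
  have hkpos : 0 < k := Fintype.card_pos
  have hin : ∀ U : Finset V, U.Nonempty → U ⊆ M → U ≠ M →
      K * min U.card (M.card - U.card) ≤ (inc A U).card := by
    intro U u1 u2 u3
    have u4 := card_le_card u2
    have h1 := hexp (M \ U) (sdiff_nonempty.2 (fun h' => u3 (Subset.antisymm u2 h'))) sdiff_subset
      (by
        intro h'
        obtain ⟨x, hx⟩ := u1
        have := u2 hx
        rw [← h'] at this
        exact (mem_sdiff.1 this).2 hx)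
    rw [card_sdiff_of_subset u2, show M.card - (M.card - U.card) = U.card by omega, min_comm] at h1
    refine h1.trans (card_le_card (fun e he => ?_))
    obtain ⟨e1, e2, e3⟩ := mem_ent.1 he
    refine mem_ent.2 ⟨e1, ?_, (mem_sdiff.1 e2).2⟩
    by_contra h'
    exact e3 (mem_sdiff.2 ⟨(hAM e e1).2, h'⟩)
  have hs : ∀ u ∈ M, ({u} : Finset V) ≠ M := by
    intro u _ h'
    rw [← h'] at h2
    simp at h2
  obtain ⟨γ, g1, g2⟩ := gupta A M K (by nlinarith [Nat.zero_le (ρ * k), Nat.zero_le (ρ * ρ * k)])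
    (by
      intro u hu
      have h1 := hexp {u} (singleton_nonempty _) (singleton_subset_iff.2 hu) (hs u hu)
      rw [card_singleton, min_eq_left (by omega), mul_one] at h1
      refine h1.trans (card_le_card (fun e he => ?_))
      obtain ⟨e1, e2, -⟩ := mem_ent.1 he
      exact mem_filter.2 ⟨e1, mem_singleton.1 e2⟩)
    (by
      intro u hu
      have h1 := hin {u} (singleton_nonempty _) (singleton_subset_iff.2 hu) (hs u hu)
      rw [card_singleton, min_eq_left (by omega), mul_one] at h1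
      refine h1.trans (card_le_card (fun e he => ?_))
      obtain ⟨e1, e2, -⟩ := mem_ent.1 he
      exact mem_filter.2 ⟨e1, mem_singleton.1 e2⟩)
  set d := k + ρ * k with hd
  have hdK : d + (k + ρ * d) ≤ K := by
    rw [hd]
    nlinarith [Nat.zero_le (ρ * k)]
  have hO : ∀ u, ∃ O : Finset (V × V), (∀ e ∈ O, e ∈ A ∧ e.1 = u ∧ (γ e : ℕ) < d) ∧ O.card ≤ d ∧
      (u ∈ M → O.card = d) := by
    intro u
    by_cases hu : u ∈ M
    · have h1 : d ≤ (A.filter (fun e => e.1 = u ∧ (γ e : ℕ) < d)).card := by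
        conv_lhs => rw [← card_range d]
        apply card_le_card_of_surjOn (fun e => (γ e : ℕ))
        intro j hj
        have hj' : j < d := mem_range.1 (mem_coe.1 hj)
        obtain ⟨e, e1, e2, e3⟩ := g1 u hu ⟨j, by omega⟩
        exact ⟨e, mem_coe.2 (mem_filter.2 ⟨e1, e3, by rw [e2]; exact hj'⟩), by simp only [e2]⟩
      obtain ⟨O, o1, o2⟩ := exists_subset_card_eq h1
      exact ⟨O, fun e he => mem_filter.1 (o1 he), o2.le, fun _ => o2⟩
    · exact ⟨∅, by simp, by simp, fun h' => absurd h' hu⟩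
  choose O o1 o2 o3 using hO
  let D : Finset (V × V) := univ.filter (fun e => e ∈ O e.1)
  have hD : ∀ e, e ∈ D ↔ e ∈ O e.1 := fun e => by simp [D]
  obtain ⟨v, hv⟩ : M.Nonempty := card_pos.1 (by omega)
  have hSM : ∀ U : Finset V, U ⊆ M.erase v → U ⊆ M ∧ U ≠ M := fun U hU =>
    ⟨hU.trans (erase_subset _ _), fun h' => notMem_erase v M (hU (h' ▸ hv))⟩
  obtain ⟨B, b1, b2, b3⟩ := sparse_in (A \ D) (M.erase v) k (by
    intro U u1 u2
    refine remain Prod.fst Prod.snd (fun e e' a b => Prod.ext a b) A D M U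
      (fun e he => (hAM e he).1) K d (k + ρ * d) k ρ u1 (hSM U u2).1 (hSM U u2).2
      (hin U u1 (hSM U u2).1 (hSM U u2).2) ?_ ?_ (by omega) le_rfl hm
    · intro y
      refine le_trans (card_le_card (fun e he => ?_)) (o2 y)
      obtain ⟨e1, e2⟩ := mem_filter.1 he
      exact e2 ▸ (hD e).1 e1
    · intro w hw
      have h1 : (Ico d K).card ≤ ((A \ D).filter (fun e => e.2 = w)).card := by
        apply card_le_card_of_surjOn (fun e => (γ e : ℕ))
        intro j hj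
        have hj' := mem_Ico.1 (mem_coe.1 hj)
        obtain ⟨e, e1, e2, e3⟩ := g2 w hw ⟨j, hj'.2⟩
        refine ⟨e, mem_coe.2 (mem_filter.2 ⟨mem_sdiff.2 ⟨e1, fun h' => ?_⟩, e3⟩), by simp only [e2]⟩
        have := (o1 _ e ((hD e).1 h')).2.2
        rw [e2] at this
        simp only at this
        omega
      rw [Nat.card_Ico] at h1
      omega)
  obtain ⟨φ1, f1⟩ := exists_valid (κ := κ) Prod.fst Prod.snd B (M.erase v) b2
  obtain ⟨φ2, f2⟩ := exists_valid (κ := κ) Prod.snd Prod.fst (A \ B) (M.erase v) (by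
    intro U u1 u2
    refine remain Prod.snd Prod.fst (fun e e' a b => Prod.ext b a) A B M U
      (fun e he => (hAM e he).2) K k d k ρ u1 (hSM U u2).1 (hSM U u2).2
      (hexp U u1 (hSM U u2).1 (hSM U u2).2) b3 ?_ (by omega) le_rfl hm
    intro w hw
    rw [← o3 w hw]
    refine card_le_card (fun e he => ?_)
    obtain ⟨e1, e2, -⟩ := o1 w e he
    exact mem_filter.2 ⟨mem_sdiff.2 ⟨e1, fun h' => (mem_sdiff.1 (b1 h')).2
      ((hD e).2 (e2 ▸ he))⟩, e2⟩)
  refine ⟨fun e => if e ∈ B then φ1 e else φ2 e, fun c U u1 u2 u3 => ?_⟩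
  by_cases hvU : v ∈ U
  · obtain ⟨e, e1, e2, e3, e4⟩ := f1 c (M \ U)
      (sdiff_nonempty.2 (fun h' => u3 (Subset.antisymm u2 h')))
      (fun x hx => mem_erase.2 ⟨fun h' => (mem_sdiff.1 hx).2 (h' ▸ hvU), (mem_sdiff.1 hx).1⟩)
    have e5 := (mem_sdiff.1 (b1 e1)).1
    refine ⟨e, e5, by simp only [if_pos e1, e2], ?_, (mem_sdiff.1 e3).2⟩
    by_contra h'
    exact e4 (mem_sdiff.2 ⟨(hAM e e5).1, h'⟩)
  · obtain ⟨e, e1, e2, e3, e4⟩ := f2 c U u1
      (fun x hx => mem_erase.2 ⟨fun h' => hvU (h' ▸ hx), u2 hx⟩)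
    exact ⟨e, (mem_sdiff.1 e1).1, by simp only [if_neg (mem_sdiff.1 e1).2, e2], e3, e4⟩

theorem core (Adj : V → V → Prop) (A : Finset (V × V))
    (hA : ∀ a b, (a, b) ∈ A ↔ Adj a b) (hsc : ∀ u v, u ≠ v → Adj u v ∨ Adj v u)
    (hcut : KCut A (Fintype.card κ)) (M : Finset V) (hM : 2 * Fintype.card κ ≤ M.card)
    (φ : V × V → κ) (hφ : ∀ c (U : Finset V), U.Nonempty → U ⊆ M → U ≠ M →
      ∃ e ∈ A, e.2 ∈ M ∧ φ e = c ∧ e.1 ∈ U ∧ e.2 ∉ U) : Dec Adj κ := by
  classical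
  have hkpos : 0 < Fintype.card κ := Fintype.card_pos
  obtain ⟨m0, hm0⟩ : M.Nonempty := card_pos.1 (by omega)
  choose σ hσ using fun s => exists_onto (κ := κ) (M.filter (fun m => Adj s m))
  choose ρ hρ using fun r => exists_onto (κ := κ) (M.filter (fun m => Adj m r))
  let χ : V → V → κ := fun a b =>
    if a ∈ M then (if b ∈ M then φ (a, b) else ρ b a) else σ a b
  let R : Finset V := univ.filter (fun u => u ∉ M ∧
    Fintype.card κ ≤ (M.filter (fun m => Adj m u)).card)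
  have hR : ∀ u, u ∈ R ↔ u ∉ M ∧ Fintype.card κ ≤ (M.filter (fun m => Adj m u)).card := fun u => by
    simp only [R, mem_filter, mem_univ, true_and]
  let S : Finset V := univ.filter (fun u => u ∉ M ∧ u ∉ R)
  have hS : ∀ u, u ∈ S ↔ u ∉ M ∧ u ∉ R := fun u => by
    simp only [S, mem_filter, mem_univ, true_and]
  have hRS : Disjoint R S := disjoint_left.2 (fun u h1 h2 => ((hS u).1 h2).2 h1)
  have hMR : ∀ m ∈ M, m ∉ R := fun m hm h => ((hR m).1 h).1 hm
  have hMS : ∀ m ∈ M, m ∉ S := fun m hm h => ((hS m).1 h).1 hm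
  obtain ⟨f, -, f1, f2, f3⟩ := glue' (κ := κ) Adj A (fun e he => (hA e.1 e.2).1 he) R S hRS
    (fun U hU hUS => hcut.inn hU (x := m0) (fun hh => hMS m0 hm0 (hUS hh)))
    (fun U hU hUR => hcut.out hU (x := m0) (fun hh => hMR m0 hm0 (hUR hh))) χ
  refine ⟨f, fun c Z hZ hcl => ?_⟩
  have hz : ∃ z ∈ Z, z ∉ R := by
    obtain ⟨z, hz⟩ := hZ
    by_cases hzR : z ∈ R
    · obtain ⟨a, b, -, -, -, -, b1, b2⟩ := f2 c Z hcl z hz hzR
      exact ⟨b, b1, b2⟩
    · exact ⟨z, hz, hzR⟩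
  have hz2 : (Z ∩ M).Nonempty := by
    obtain ⟨z, z1, z2⟩ := hz
    by_cases hzM : z ∈ M
    · exact ⟨z, mem_inter.2 ⟨z1, hzM⟩⟩
    have hcard : Fintype.card κ ≤ (M.filter (fun m => Adj z m)).card := by
      have h1 : ¬ Fintype.card κ ≤ (M.filter (fun m => Adj m z)).card :=
        fun h => z2 ((hR z).2 ⟨hzM, h⟩)
      have h2 := card_filter_add_card_filter_not (s := M) (fun m => Adj m z)
      have h3 : (M.filter (fun m => ¬ Adj m z)).card ≤ (M.filter (fun m => Adj z m)).card := by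
        apply card_le_card
        intro m hm
        obtain ⟨m1, m2⟩ := mem_filter.1 hm
        refine mem_filter.2 ⟨m1, ?_⟩
        rcases hsc z m (fun h => hzM (h ▸ m1)) with h | h
        · exact h
        · exact absurd h m2
      omega
    obtain ⟨m, hm, hc⟩ := hσ z hcard c
    obtain ⟨m1, m2⟩ := mem_filter.1 hm
    refine ⟨m, mem_inter.2 ⟨hcl z m m2 ?_ z1, m1⟩⟩
    rw [f1 _ _ z2 (hMS m m1)]
    simp only [χ, if_neg hzM, hc]
  have hMZ : Z ∩ M = M := by
    by_contra hne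
    obtain ⟨⟨a, b⟩, e1, e2, e3, e4, e5⟩ := hφ c (Z ∩ M) hz2 inter_subset_right hne
    obtain ⟨e6, e7⟩ := mem_inter.1 e4
    refine e5 (mem_inter.2 ⟨hcl a b ((hA a b).1 e1) ?_ e6, e2⟩)
    rw [f1 _ _ (hMR a e7) (hMS b e2)]
    simp only [χ, if_pos e7, if_pos e2, e3]
  have hMZ' : ∀ m ∈ M, m ∈ Z := fun m hm => (mem_inter.1 (hMZ.symm ▸ hm : m ∈ Z ∩ M)).1
  have hnS : ∀ u, u ∉ S → u ∈ Z := by
    intro u hu
    by_cases h2 : u ∈ M
    · exact hMZ' u h2
    have h3 : u ∈ R := by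
      by_contra h
      exact hu ((hS u).2 ⟨h2, h⟩)
    obtain ⟨m, hm, hc⟩ := hρ u ((hR u).1 h3).2 c
    obtain ⟨m1, m2⟩ := mem_filter.1 hm
    refine hcl m u m2 ?_ (hMZ' m m1)
    rw [f1 _ _ (hMR m m1) hu]
    simp only [χ, if_pos m1, if_neg h2, hc]
  intro u
  by_contra hu
  have huS : u ∈ S := by
    by_contra h
    exact hu (hnS u h)
  obtain ⟨a, b, -, -, a1, a2, -⟩ := f3 c Z hcl u huS hu
  exact a1 (hnS a a2)

end Pool.Agent.Lib.MP_44ed1d_co
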