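import Mathlib
import Pool.Agent.Lib.MP_44ed1d_co.Dense

set_option autoImplicit false
set_option linter.unusedSectionVars false

namespace Pool.Agent.Lib.MP_44ed1d_co

open Finset

variable {V : Type} [DecidableEq V] [Fintype V]
variable {κ : Type} [Fintype κ] [DecidableEq κ] [Nonempty κ]

/-- at least `r` vertices satisfy `p` -/
def Many (r : ℕ) (p : V → Prop) : Prop := ∃ Y : Finset V, r ≤ Y.card ∧ ∀ y ∈ Y, p y

/-- at most `b` vertices satisfy `p` -/
def AtMost (b : ℕ) (p : V → Prop) : Prop := ∀ Y : Finset V, (∀ y ∈ Y, p y) → Y.card ≤ b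

lemma Many.mono {r r' : ℕ} {p q : V → Prop} (h : Many r p) (hr : r' ≤ r) (hq : ∀ y, p y → q y) :
    Many r' q := by
  obtain ⟨Y, h1, h2⟩ := h
  exact ⟨Y, hr.trans h1, fun y hy => hq y (h2 y hy)⟩

lemma Many.diff {r b : ℕ} {p q : V → Prop} (h : Many (r + b) p) (hq : AtMost b q) :
    Many r (fun y => p y ∧ ¬ q y) := by
  classical
  obtain ⟨Y, h1, h2⟩ := h
  have a1 := hq (Y.filter q) (fun y hy => (mem_filter.1 hy).2)
  have a2 := card_filter_add_card_filter_not (s := Y) q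
  exact ⟨Y.filter (fun y => ¬ q y), by omega,
    fun y hy => ⟨h2 y (mem_filter.1 hy).1, (mem_filter.1 hy).2⟩⟩

lemma atMost_mem (X : Finset V) {b : ℕ} (h : X.card ≤ b) : AtMost b (fun y => y ∈ X) :=
  fun _ hY => (card_le_card hY).trans h

lemma atMost_filter {b : ℕ} {p : V → Prop} [DecidablePred p] (h : (univ.filter p).card ≤ b) :
    AtMost b p :=
  fun _ hY => (card_le_card fun y hy => mem_filter.2 ⟨mem_univ _, hY y hy⟩).trans h

lemma onto_sub (C : Finset κ) (p : V → Prop) (h : Many C.card p) :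
    ∃ g : V → κ, ∀ c ∈ C, ∃ y, p y ∧ g y = c := by
  classical
  obtain ⟨Y, h1, h2⟩ := h
  obtain ⟨e⟩ := Function.Embedding.nonempty_of_card_le (α := C) (β := Y) (by simpa using h1)
  refine ⟨fun y => if h : ∃ c : C, (e c : V) = y then h.choose else Classical.arbitrary κ,
    fun c hc => ⟨e ⟨c, hc⟩, h2 _ (e _).2, ?_⟩⟩
  have hh : ∃ d : C, (e d : V) = e ⟨c, hc⟩ := ⟨_, rfl⟩
  simp only [dif_pos hh]
  rw [e.injective (Subtype.ext hh.choose_spec)]

theorem attach (R : V → V → Prop) (Q : κ → V → V → Prop) (X : Finset V)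
    (hQ : ∀ c x y y', Q c x y → Q c x y' → y = y')
    (hd : ∀ x, Many (Fintype.card κ + X.card) (R x)) :
    ∃ f : V → V → κ, ∀ x c, (∃ y, Q c x y) ∨
      ∃ y, y ∉ X ∧ R x y ∧ (¬ ∃ d, Q d x y) ∧ f x y = c := by
  classical
  have key : ∀ x, ∃ g : V → κ, ∀ c ∈ univ.filter (fun c => ¬ ∃ y, Q c x y),
      ∃ y, ((R x y ∧ ¬ y ∈ X) ∧ ¬ ∃ d, Q d x y) ∧ g y = c := by
    intro x
    apply onto_sub
    have a1 := card_filter_add_card_filter_not (s := (univ : Finset κ)) (fun c => ∃ y, Q c x y)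
    rw [card_univ] at a1
    refine Many.diff (b := (univ.filter (fun c => ∃ y, Q c x y)).card)
      (Many.diff ((hd x).mono (by omega) (fun _ h => h)) (atMost_mem X le_rfl)) ?_
    intro Y hY
    choose! d hd using hY
    apply card_le_card_of_injOn d
    · intro y hy
      exact mem_coe.2 (mem_filter.2 ⟨mem_univ _, y, hd y hy⟩)
    · intro y hy y' hy' hh
      exact hQ _ x y y' (hd y hy) (hh ▸ hd y' hy')
  choose g hg using key
  refine ⟨g, fun x c => ?_⟩
  by_cases hc : ∃ y, Q c x y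
  · exact Or.inl hc
  · obtain ⟨y, ⟨⟨y1, y2⟩, y3⟩, y4⟩ := hg x c (mem_filter.2 ⟨mem_univ _, hc⟩)
    exact Or.inr ⟨y, y2, y1, y3, y4⟩

variable {G : Type} [AddCommGroup G] [Fintype G] [DecidableEq G]

theorem main_piece (B : V → V → Prop) (lam : V → G) (X : Finset V) (S : Finset G) (r : ℕ)
    (hr : Fintype.card κ ≤ S.card * r)
    (ho : ∀ v, v ∉ X → ∀ p, Many r (fun y => B v y ∧ lam y = p))
    (hi : ∀ v, v ∉ X → ∀ p, Many r (fun y => B y v ∧ lam y = p)) :
    ∃ (f : V → V → κ) (sh : κ → G), ∀ c, sh c ∈ S ∧ ∀ v, v ∉ X →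
      (∃ y, B v y ∧ lam y - lam v = sh c ∧ f v y = c) ∧
      ∃ y, B y v ∧ lam v - lam y = sh c ∧ f y v = c := by
  classical
  have hk : 0 < Fintype.card κ := Fintype.card_pos
  have r0 : 0 < r := by
    rcases Nat.eq_zero_or_pos r with h | h
    · rw [h] at hr; omega
    · exact h
  let A : G → Finset (V × V) := fun s => univ.filter (fun e => B e.1 e.2 ∧ lam e.2 - lam e.1 = s)
  have key := fun s => gupta (A s) Xᶜ r r0 (fun v hv => by
      obtain ⟨Y, y1, y2⟩ := ho v (mem_compl.1 hv) (lam v + s)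
      refine y1.trans (card_le_card_of_injOn (fun y => (v, y)) (fun y hy => ?_)
        (fun y _ y' _ hh => (Prod.mk.inj hh).2))
      obtain ⟨b1, b2⟩ := y2 y hy
      exact mem_coe.2 (mem_filter.2 ⟨mem_filter.2 ⟨mem_univ _, b1, by simp [b2]⟩, rfl⟩))
    (fun v hv => by
      obtain ⟨Y, y1, y2⟩ := hi v (mem_compl.1 hv) (lam v - s)
      refine y1.trans (card_le_card_of_injOn (fun y => (y, v)) (fun y hy => ?_)
        (fun y _ y' _ hh => (Prod.mk.inj hh).1))
      obtain ⟨b1, b2⟩ := y2 y hy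
      exact mem_coe.2 (mem_filter.2 ⟨mem_filter.2 ⟨mem_univ _, b1, by simp [b2]⟩, rfl⟩))
  choose γ γ1 γ2 using key
  obtain ⟨e⟩ := Function.Embedding.nonempty_of_card_le (α := κ) (β := S × Fin r)
    (by simpa using hr)
  let j : κ → G × Fin r := fun c => ((e c).1, (e c).2)
  have hj : Function.Injective j := fun a b hab =>
    e.injective (Prod.ext (Subtype.ext (Prod.mk.inj hab).1) (Prod.mk.inj hab).2)
  have fin : ∀ c, ∀ x ∈ A (j c).1, γ (j c).1 x = (j c).2 →
      Function.invFun j (lam x.2 - lam x.1, γ (lam x.2 - lam x.1) x) = c := by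
    intro c x h1 h2
    rw [(mem_filter.1 h1).2.2, h2]
    exact Function.leftInverse_invFun hj c
  refine ⟨fun a b => Function.invFun j (lam b - lam a, γ (lam b - lam a) (a, b)),
    fun c => (j c).1, fun c => ⟨(e c).1.2, fun v hv => ⟨?_, ?_⟩⟩⟩
  · obtain ⟨x, x1, x2, rfl⟩ := γ1 (j c).1 v (mem_compl.2 hv) (j c).2
    exact ⟨x.2, (mem_filter.1 x1).2.1, (mem_filter.1 x1).2.2, fin c x x1 x2⟩
  · obtain ⟨x, x1, x2, rfl⟩ := γ2 (j c).1 v (mem_compl.2 hv) (j c).2
    exact ⟨x.1, (mem_filter.1 x1).2.1, (mem_filter.1 x1).2.2, fin c x x1 x2⟩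

theorem window_piece {ι : Type} (B : V → V → Prop) (lam : V → G) (σ : ι → G)
    (hσ : ∀ i j i' j', i ≠ j → σ i - σ j = σ i' - σ j' → i = i') (i0 : ι) (X : Finset V)
    (root : κ → V) (Gd : V → V → Prop) (t : ℕ)
    (ht : ∀ p, (univ.filter (fun c => lam (root c) = p)).card ≤ t)
    (h2 : ∀ c y, y ∉ X → Gd (root c) y → ∀ g, Many t (fun w => B (root c) w ∧ B w y ∧
      (∃ i, lam w = g + σ i) ∧ lam w ≠ lam (root c) ∧ lam w ≠ lam y))
    (h3 : ∀ c v, v ∉ X → ∀ g, Many t (fun y => B y v ∧ Gd (root c) y ∧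
      (∃ i, lam y = g + σ i) ∧ lam y ≠ lam v)) :
    ∃ f : V → V → κ, ∀ c (U : Finset V), U.Nonempty →
      (∀ v ∈ U, v ∉ X ∧ ∃ i, lam v = lam (root c) - σ i0 + σ i) → root c ∉ U →
      ∃ a b, B a b ∧ (∃ i j, i ≠ j ∧ lam b - lam a = σ j - σ i) ∧ f a b = c ∧ b ∈ U ∧ a ∉ U ∧
        ∃ i, lam a = lam (root c) - σ i0 + σ i := by
  classical
  let W : G → Finset V := fun g => univ.filter (fun v => v ∉ X ∧ ∃ i, lam v = g + σ i)
  let E : G → Finset (V × V) := fun g => univ.filter (fun e => B e.1 e.2 ∧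
    ∃ i j, i ≠ j ∧ lam e.1 = g + σ i ∧ lam e.2 = g + σ j)
  have hE : ∀ g a b, B a b → (∃ i, lam a = g + σ i) → (∃ i, lam b = g + σ i) → lam a ≠ lam b →
      (a, b) ∈ E g := by
    rintro g a b h1 ⟨i, hi⟩ ⟨j, hj⟩ hne
    refine mem_filter.2 ⟨mem_univ _, h1, i, j, fun hh => hne ?_, hi, hj⟩
    rw [hi, hj, hh]
  let T : G → κ → Finset V := fun g c =>
    if lam (root c) = g + σ i0 then insert (root c) (W g)ᶜ else univ
  have key := fun g => edmonds Prod.fst Prod.snd (E g) (T g) (fun U hU => by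
    have hT : ∀ c, Disjoint (T g c) U → lam (root c) = g + σ i0 ∧ root c ∉ U ∧ U ⊆ W g := by
      intro c hc
      by_cases hr : lam (root c) = g + σ i0
      · simp only [T, if_pos hr, disjoint_insert_left] at hc
        exact ⟨hr, hc.1, fun v hv => by
          by_contra hh
          exact disjoint_left.1 hc.2 (mem_compl.2 hh) hv⟩
      · simp only [T, if_neg hr] at hc
        obtain ⟨v, hv⟩ := hU
        exact absurd hv (disjoint_left.1 hc (mem_univ v))
    rcases (univ.filter (fun c => Disjoint (T g c) U)).eq_empty_or_nonempty with h0 | ⟨c, hc⟩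
    · unfold dem
      rw [h0]
      exact Nat.zero_le _
    have d1 : dem (T g) U ≤ t := (card_le_card fun d hd =>
      mem_filter.2 ⟨mem_univ _, (hT d (mem_filter.1 hd).2).1⟩).trans (ht (g + σ i0))
    obtain ⟨c1, c2, c3⟩ := hT c (mem_filter.1 hc).2
    refine d1.trans ?_
    by_cases hy : ∃ y ∈ U, Gd (root c) y
    · obtain ⟨y, y1, y2⟩ := hy
      obtain ⟨y3, y4⟩ := (mem_filter.1 (c3 y1)).2
      obtain ⟨Y, p1, p2⟩ := h2 c y y3 y2 g
      have := fan (E g) Uᶜ (root c) y (mem_compl.2 c2) (fun hh => mem_compl.1 hh y1) Y id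
        (fun _ _ _ _ hh => hh) (fun w hw hh => (p2 w hw).2.2.2.1 (congrArg lam hh))
        (fun w hw => hE g _ _ (p2 w hw).1 ⟨i0, c1⟩ (p2 w hw).2.2.1 (p2 w hw).2.2.2.1.symm)
        (fun w hw => hE g _ _ (p2 w hw).2.1 (p2 w hw).2.2.1 y4 (p2 w hw).2.2.2.2)
      rw [← inc_eq] at this
      exact p1.trans this
    · obtain ⟨v, hv⟩ := hU
      obtain ⟨v3, v4⟩ := (mem_filter.1 (c3 hv)).2
      obtain ⟨Y, p1, p2⟩ := h3 c v v3 g
      refine p1.trans (card_le_card_of_injOn (fun y => (y, v)) (fun y hy' => ?_)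
        (fun y _ y' _ hh => (Prod.mk.inj hh).1))
      obtain ⟨q1, q2, q3, q4⟩ := p2 y hy'
      exact mem_coe.2 (mem_ent.2 ⟨hE g _ _ q1 q3 v4 q4, hv, fun hh => hy ⟨y, hh, q2⟩⟩))
  choose φ hφ using key
  have uniq : ∀ g g' e, e ∈ E g → e ∈ E g' → g = g' := by
    intro g g' e h1 h1'
    obtain ⟨-, i, j, hij, a1, a2⟩ := (mem_filter.1 h1).2
    obtain ⟨-, i', j', -, b1, b2⟩ := (mem_filter.1 h1').2
    have : i = i' := hσ i j i' j' hij (by
      have e1 : σ i - σ j = lam e.1 - lam e.2 := by rw [a1, a2]; abel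
      have e2 : σ i' - σ j' = lam e.1 - lam e.2 := by rw [b1, b2]; abel
      rw [e1, e2])
    subst this
    exact add_right_cancel (a1.symm.trans b1)
  refine ⟨fun a b => φ (if h : ∃ g, (a, b) ∈ E g then h.choose else 0) (a, b),
    fun c U u1 u2 u3 => ?_⟩
  have hr : lam (root c) = lam (root c) - σ i0 + σ i0 := by abel
  obtain ⟨e, e1, e2, e3, e4⟩ := hφ (lam (root c) - σ i0) c U u1 (by
    simp only [T, if_pos hr, disjoint_insert_left]
    exact ⟨u3, disjoint_left.2 fun v h1 h2 =>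
      mem_compl.1 h1 (mem_filter.2 ⟨mem_univ _, u2 v h2⟩)⟩)
  obtain ⟨b1, i, j, hij, a1, a2⟩ := (mem_filter.1 e1).2
  have hh : ∃ g, (e.1, e.2) ∈ E g := ⟨_, e1⟩
  refine ⟨e.1, e.2, b1, ⟨i, j, hij, by rw [a1, a2]; abel⟩, ?_, e3, e4, i, a1⟩
  simp only [dif_pos hh]
  rw [uniq _ _ _ hh.choose_spec e1]
  exact e2

lemma many_window {q : ℕ} (σ : Fin q → G) (hσ : Function.Injective σ) (lam : V → G)
    (F : Finset V) (x : ℕ) (hl : ∀ p, x ≤ (F.filter (fun v => lam v = p)).card) (g p1 p2 : G) :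
    Many ((q - 2) * x) (fun w => w ∈ F ∧ (∃ i, lam w = g + σ i) ∧ lam w ≠ p1 ∧ lam w ≠ p2) := by
  let P : Finset G := ((univ.image (fun i => g + σ i)).erase p1).erase p2
  have h1 : q - 2 ≤ P.card := by
    have a1 : (univ.image (fun i => g + σ i)).card = q := by
      rw [card_image_of_injective _ (fun i j h => hσ (add_left_cancel h))]
      simp
    have a2 := pred_card_le_card_erase (s := univ.image (fun i => g + σ i)) (a := p1)
    have a3 : _ ≤ P.card := pred_card_le_card_erase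
    omega
  refine ⟨F.filter (fun v => lam v ∈ P), ?_, fun y hy => ?_⟩
  · rw [card_eq_sum_card_fiberwise (s := F.filter (fun v => lam v ∈ P)) (f := lam) (t := P)
      (fun v hv => (mem_filter.1 hv).2)]
    refine (Nat.mul_le_mul_right x h1).trans ?_
    rw [← smul_eq_mul]
    apply card_nsmul_le_sum
    intro p hp
    refine (hl p).trans (card_le_card fun v hv => ?_)
    obtain ⟨v1, v2⟩ := mem_filter.1 hv
    exact mem_filter.2 ⟨mem_filter.2 ⟨v1, v2 ▸ hp⟩, v2⟩
  · obtain ⟨y1, y2⟩ := mem_filter.1 hy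
    obtain ⟨y3, y4⟩ := mem_erase.1 y2
    obtain ⟨y5, y6⟩ := mem_erase.1 y4
    obtain ⟨i, -, hi⟩ := mem_image.1 y6
    exact ⟨y1, ⟨i, hi.symm⟩, y5, y3⟩

lemma layer_upper (lam : V → G) (F : Finset V) (x : ℕ)
    (hl : ∀ p, x ≤ (F.filter (fun v => lam v = p)).card) (p : G) :
    (F.filter (fun v => lam v = p)).card + (Fintype.card G - 1) * x ≤ F.card := by
  rw [card_eq_sum_card_fiberwise (s := F) (f := lam) (t := univ) (fun v _ => mem_univ _),
    ← add_sum_erase univ _ (mem_univ p)]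
  apply Nat.add_le_add_left
  have := card_nsmul_le_sum (univ.erase p) _ x (fun p _ => hl p)
  rwa [card_erase_of_mem (mem_univ _), card_univ, smul_eq_mul] at this

end Pool.Agent.Lib.MP_44ed1d_co
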