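import Mathlib
import Pool.Agent.Lib.MP_44ed1d_co.Back

set_option autoImplicit false
set_option linter.unusedSectionVars false

namespace Pool.Agent.Lib.MP_44ed1d_co

open Finset

variable {V : Type} [DecidableEq V] [Fintype V]
variable {κ : Type} [Fintype κ] [DecidableEq κ] [Nonempty κ]

lemma exists_inj (S : κ → Finset V) (h : ∀ c, Fintype.card κ ≤ (S c).card) :
    ∃ g : κ → V, Function.Injective g ∧ ∀ c, g c ∈ S c := by
  apply (all_card_le_biUnion_card_iff_exists_injective S).1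
  intro s
  rcases s.eq_empty_or_nonempty with rfl | ⟨c, hc⟩
  · simp
  · exact (card_le_univ s).trans ((h c).trans (card_le_card (subset_biUnion_of_mem S hc)))

open Classical in
lemma low_count (Adj : V → V → Prop) (hsc : ∀ u v, u ≠ v → Adj u v ∨ Adj v u) (O : Finset V)
    (d : ℕ) : (O.filter (fun z => (O.filter (fun y => Adj y z)).card < d)).card ≤ 2 * d + 1 := by
  set L := O.filter (fun z => (O.filter (fun y => Adj y z)).card < d) with hL
  let P : Finset (V × V) := L.biUnion (fun z => (O.filter (fun y => Adj y z)).image (fun y => (y, z)))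
  have h1 : P.card ≤ L.card * d := card_biUnion_le_card_mul _ _ d (fun z hz =>
    card_image_le.trans (mem_filter.1 hz).2.le)
  have h2 : L.offDiag ⊆ P ∪ P.image Prod.swap := by
    rintro ⟨x, y⟩ he
    obtain ⟨e1, e2, e3⟩ := mem_offDiag.1 he
    rcases hsc x y e3 with h | h
    · exact mem_union_left _ (mem_biUnion.2 ⟨y, e2, mem_image.2
        ⟨x, mem_filter.2 ⟨(mem_filter.1 e1).1, h⟩, rfl⟩⟩)
    · exact mem_union_right _ (mem_image.2 ⟨(y, x), mem_biUnion.2 ⟨x, e1, mem_image.2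
        ⟨y, mem_filter.2 ⟨(mem_filter.1 e2).1, h⟩, rfl⟩⟩, rfl⟩)
  have h3 := (card_le_card h2).trans ((card_union_le _ _).trans
    (Nat.add_le_add_left card_image_le _))
  rw [offDiag_card] at h3
  by_contra hn
  have h4 : L.card * (2 * d + 2) ≤ L.card * L.card := Nat.mul_le_mul_left _ (by omega)
  have h5 : L.card * (2 * d + 2) = 2 * (L.card * d) + 2 * L.card := by ring
  omega

open Classical in
theorem half_select (Adj : V → V → Prop) (hsc : ∀ u v, u ≠ v → Adj u v ∨ Adj v u)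
    (Z : Finset V) (lev : V → ℤ) (w : Fin 3 → κ → V) (T : ℕ)
    (NC : ∀ i c, (Z.filter (fun z => lev z < lev (w i c) ∧ ¬ Adj z (w i c))).card ≤ T)
    (a : V → ℤ) (ok : V → Prop)
    (ha : ∀ v, ok v →
      3 * T + 6 * Fintype.card κ ≤ (Z.filter (fun z => lev z = a v ∧ Adj v z)).card) :
    ∃ g : V → κ → V, ∀ v, ok v → Function.Injective (g v) ∧ ∀ c, g v c ∈ Z ∧ lev (g v c) = a v ∧
      Adj v (g v c) ∧
      2 * Fintype.card κ ≤ (Z.filter (fun z => lev z = a v ∧ Adj v z ∧ Adj z (g v c))).card ∧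
      ∀ i, a v < lev (w i c) → Adj (g v c) (w i c) := by
  have hk : 0 < Fintype.card κ := Fintype.card_pos
  have key : ∀ v, ∃ g : κ → V, ok v → Function.Injective g ∧ ∀ c, g c ∈ Z ∧ lev (g c) = a v ∧
      Adj v (g c) ∧
      2 * Fintype.card κ ≤ (Z.filter (fun z => lev z = a v ∧ Adj v z ∧ Adj z (g c))).card ∧
      ∀ i, a v < lev (w i c) → Adj (g c) (w i c) := by
    intro v
    by_cases hv : ok v
    swap
    · exact ⟨fun _ => v, fun h => absurd h hv⟩
    set O := Z.filter (fun z => lev z = a v ∧ Adj v z) with hO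
    obtain ⟨g, g1, g2⟩ := exists_inj (κ := κ) (fun c => O.filter (fun z =>
      2 * Fintype.card κ ≤ (O.filter (fun y => Adj y z)).card ∧
        ∀ i, a v < lev (w i c) → Adj z (w i c))) (by
      intro c
      have h1 : 3 * T + 6 * Fintype.card κ ≤ O.card := ha v hv
      have h2 := low_count Adj hsc O (2 * Fintype.card κ)
      have h3 : O ⊆ O.filter (fun z =>
          2 * Fintype.card κ ≤ (O.filter (fun y => Adj y z)).card ∧
            ∀ i, a v < lev (w i c) → Adj z (w i c)) ∪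
          (O.filter (fun z => (O.filter (fun y => Adj y z)).card < 2 * Fintype.card κ) ∪
            univ.biUnion (fun i => Z.filter (fun z => lev z < lev (w i c) ∧ ¬ Adj z (w i c)))) := by
        intro z hz
        by_cases b1 : (O.filter (fun y => Adj y z)).card < 2 * Fintype.card κ
        · exact mem_union_right _ (mem_union_left _ (mem_filter.2 ⟨hz, b1⟩))
        by_cases b2 : ∀ i, a v < lev (w i c) → Adj z (w i c)
        · exact mem_union_left _ (mem_filter.2 ⟨hz, not_lt.1 b1, b2⟩)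
        push Not at b2
        obtain ⟨i, b3, b4⟩ := b2
        obtain ⟨z1, z2, -⟩ := mem_filter.1 hz
        exact mem_union_right _ (mem_union_right _ (mem_biUnion.2 ⟨i, mem_univ _,
          mem_filter.2 ⟨z1, z2 ▸ b3, b4⟩⟩))
      have h4 := (card_le_card h3).trans ((card_union_le _ _).trans
        (Nat.add_le_add_left (card_union_le _ _) _))
      have h5 := card_biUnion_le_card_mul (univ : Finset (Fin 3))
        (fun i => Z.filter (fun z => lev z < lev (w i c) ∧ ¬ Adj z (w i c))) T (fun i _ => NC i c)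
      rw [card_univ, Fintype.card_fin] at h5
      omega)
    refine ⟨g, fun _ => ⟨g1, fun c => ?_⟩⟩
    obtain ⟨b1, b2, b3⟩ := mem_filter.1 (g2 c)
    obtain ⟨b4, b5, b6⟩ := mem_filter.1 b1
    refine ⟨b4, b5, b6, b2.trans (card_le_card (fun z hz => ?_)), b3⟩
    obtain ⟨z1, z2⟩ := mem_filter.1 hz
    obtain ⟨z3, z4, z5⟩ := mem_filter.1 z1
    exact mem_filter.2 ⟨z3, z4, z5, z2⟩
  choose g hg using key
  exact ⟨g, hg⟩

/-- fewer than `k` arcs of `B` leave `U` -/
def Few (B : V → V → Prop) (U : Finset V) (k : ℕ) : Prop :=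
  ∀ I : Finset (V × V), (∀ e ∈ I, B e.1 e.2 ∧ e.1 ∈ U ∧ e.2 ∉ U) → I.card < k

variable {B : V → V → Prop} {U : Finset V} {k : ℕ}

lemma Few.dual (h : Few B U k) : Few (fun x y => B y x) Uᶜ k := by
  intro I hI
  rw [← card_image_of_injective I Prod.swap_injective]
  apply h
  intro e he
  obtain ⟨e', e1, rfl⟩ := mem_image.1 he
  obtain ⟨e2, e3, e4⟩ := hI e' e1
  exact ⟨e2, by simpa using e4, mem_compl.1 e3⟩

lemma Few.out (h : Few B U k) {x : V} (hx : x ∈ U) (Y : Finset V)
    (hY : ∀ y ∈ Y, B x y ∧ y ∉ U) : Y.card < k := by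
  rw [← card_image_of_injective Y (Prod.mk_right_injective x)]
  apply h
  intro e he
  obtain ⟨y, e1, rfl⟩ := mem_image.1 he
  exact ⟨(hY y e1).1, hx, (hY y e1).2⟩

lemma Few.inn (h : Few B U k) {y : V} (hy : y ∉ U) (Y : Finset V)
    (hY : ∀ x ∈ Y, B x y ∧ x ∈ U) : Y.card < k :=
  h.dual.out (mem_compl.2 hy) Y (fun x hx => ⟨(hY x hx).1, by simpa using (hY x hx).2⟩)

lemma Few.fan (h : Few B U k) {x y : V} (hx : x ∈ U) (hy : y ∉ U) (Y : Finset V)
    (hY : ∀ z ∈ Y, z ≠ x ∧ B x z ∧ B z y) : Y.card < k := by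
  classical
  have h1 := Pool.Agent.Lib.MP_44ed1d_co.fan (univ.filter (fun e : V × V => B e.1 e.2)) U x y hx hy
    Y id (Set.injOn_id _) (fun i hi => (hY i hi).1)
    (fun i hi => mem_filter.2 ⟨mem_univ _, (hY i hi).2.1⟩)
    (fun i hi => mem_filter.2 ⟨mem_univ _, (hY i hi).2.2⟩)
  refine lt_of_le_of_lt h1 (h _ (fun e he => ?_))
  obtain ⟨e1, e2⟩ := mem_ent.1 he
  exact ⟨(mem_filter.1 e1).2, e2⟩

open Classical in
theorem half_rob1 (Adj F : V → V → Prop) (hirr : ∀ v, ¬ Adj v v) (Z : Finset V) (lev : V → ℤ)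
    (hU : Few (fun x y => Adj x y ∧ ¬ F x y) U (Fintype.card κ)) (v y : V) (l : ℤ) (g : κ → V)
    (h1 : ∀ z ∈ Z, lev z = l → F v z → ∃ c, g c = z)
    (h2 : ∀ z ∈ Z, lev z = l → ¬ F z y)
    (h3 : 2 * Fintype.card κ ≤ (Z.filter (fun z => lev z = l ∧ Adj v z ∧ Adj z y)).card)
    (hv : v ∈ U) : y ∈ U := by
  by_contra hy
  have h4 := hU.fan hv hy (Z.filter (fun z => lev z = l ∧ Adj v z ∧ Adj z y) \ univ.image g) (by
    intro z hz
    obtain ⟨z1, z2⟩ := mem_sdiff.1 hz
    obtain ⟨z3, z4, z5, z6⟩ := mem_filter.1 z1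
    refine ⟨fun h' => hirr v (h' ▸ z5), ⟨z5, fun h' => ?_⟩, z6, h2 z z3 z4⟩
    obtain ⟨c, hc⟩ := h1 z z3 z4 h'
    exact z2 (mem_image.2 ⟨c, mem_univ _, hc⟩))
  have h5 := le_card_sdiff (univ.image g) (Z.filter (fun z => lev z = l ∧ Adj v z ∧ Adj z y))
  have h6 : (univ.image g).card ≤ Fintype.card κ := card_image_le
  omega

open Classical in
theorem half_rob2 (Adj F : V → V → Prop) (Z : Finset V) (lev : V → ℤ) (T : ℕ)
    (hU : Few (fun x y => Adj x y ∧ ¬ F x y) U k) (x y : V) (hx : x ∈ Z)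
    (hZ : ∀ l, lev x < l → l < lev y → 2 * T + 3 * k ≤ (Z.filter (fun z => lev z = l)).card)
    (NC1 : ∀ x ∈ Z, (Z.filter (fun z => lev x < lev z ∧ ¬ Adj x z)).card ≤ T)
    (NC2 : (Z.filter (fun z => lev z < lev y ∧ ¬ Adj z y)).card ≤ T)
    (h3 : ∀ x ∈ Z, ∀ y ∈ Z, lev y = lev x + 1 → ¬ F x y)
    (h4 : (Z.filter (fun z => lev z + 1 = lev y ∧ F z y)).card ≤ k)
    (hxy : lev x + 2 ≤ lev y) (hxU : x ∈ U) : y ∈ U := by
  have step : ∀ u ∈ Z, u ∈ U → (Z.filter (fun z => lev z = lev u + 1 ∧ z ∉ U)).card < T + k := by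
    intro u hu huU
    have a1 := hU.out huU (Z.filter (fun z => lev z = lev u + 1 ∧ z ∉ U ∧ Adj u z)) (by
      intro z hz
      obtain ⟨z1, z2, z3, z4⟩ := mem_filter.1 hz
      exact ⟨⟨z4, h3 u hu z z1 z2⟩, z3⟩)
    have a2 : Z.filter (fun z => lev z = lev u + 1 ∧ z ∉ U) ⊆
        Z.filter (fun z => lev z = lev u + 1 ∧ z ∉ U ∧ Adj u z) ∪
          Z.filter (fun z => lev u < lev z ∧ ¬ Adj u z) := by
      intro z hz
      obtain ⟨z1, z2, z3⟩ := mem_filter.1 hz
      by_cases h : Adj u z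
      · exact mem_union_left _ (mem_filter.2 ⟨z1, z2, z3, h⟩)
      · exact mem_union_right _ (mem_filter.2 ⟨z1, by omega, h⟩)
    have a3 := (card_le_card a2).trans (card_union_le _ _)
    have a4 := NC1 u hu
    omega
  have ind : ∀ n : ℕ, lev x + n < lev y → ∃ u ∈ Z, u ∈ U ∧ lev u = lev x + n := by
    intro n
    induction n with
    | zero => exact fun _ => ⟨x, hx, hxU, by simp⟩
    | succ n ih =>
      intro hn
      obtain ⟨u, u1, u2, u3⟩ := ih (by push_cast at hn; omega)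
      have a1 := step u u1 u2
      have a2 := hZ (lev u + 1) (by omega) (by push_cast at hn; omega)
      by_contra hno
      push Not at hno
      have a3 : Z.filter (fun z => lev z = lev u + 1) ⊆
          Z.filter (fun z => lev z = lev u + 1 ∧ z ∉ U) := by
        intro z hz
        obtain ⟨z1, z2⟩ := mem_filter.1 hz
        exact mem_filter.2 ⟨z1, z2, fun h => hno z z1 h (by push_cast; omega)⟩
      have a4 := card_le_card a3
      omega
  obtain ⟨u, u1, u2, u3⟩ := ind (lev y - lev x - 2).toNat (by omega)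
  have a1 := step u u1 u2
  have a2 := hZ (lev u + 1) (by omega) (by omega)
  by_contra hy
  have a3 := hU.inn hy (Z.filter (fun z => z ∈ U ∧ Adj z y ∧ ¬ F z y)) (by
    intro z hz
    obtain ⟨-, z2, z3⟩ := mem_filter.1 hz
    exact ⟨z3, z2⟩)
  have a4 : Z.filter (fun z => lev z = lev u + 1) ⊆
      (Z.filter (fun z => lev z = lev u + 1 ∧ z ∉ U) ∪
        Z.filter (fun z => z ∈ U ∧ Adj z y ∧ ¬ F z y)) ∪
      (Z.filter (fun z => lev z < lev y ∧ ¬ Adj z y) ∪
        Z.filter (fun z => lev z + 1 = lev y ∧ F z y)) := by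
    intro z hz
    obtain ⟨z1, z2⟩ := mem_filter.1 hz
    simp only [mem_union, mem_filter]
    have b1 : lev z < lev y := by omega
    have b2 : lev z + 1 = lev y := by omega
    tauto
  have a5 := (card_le_card a4).trans ((card_union_le _ _).trans
    (Nat.add_le_add (card_union_le _ _) (card_union_le _ _)))
  omega

end Pool.Agent.Lib.MP_44ed1d_co
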