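import Mathlib
import Pool.Agent.Lib.MP_44ed1d_co.Half

set_option autoImplicit false
set_option linter.unusedSectionVars false

namespace Pool.Agent.Lib.MP_44ed1d_co

open Finset

variable {V : Type} [DecidableEq V] [Fintype V]

lemma one_site {G : Type} [Fintype G] (y : G → ℝ) (h0 : ∑ g, y g = 0) (h1 : ∀ g, |y g| ≤ 1)
    (t : ℝ) (ht : |t| ≤ 1) :
    ∑ g, Real.exp (t * y g) ≤ Fintype.card G * Real.exp (t ^ 2) := by
  have a1 : ∀ g, Real.exp (t * y g) ≤ Real.exp (t ^ 2) + t * y g := by
    intro g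
    have b1 : |t * y g| ≤ 1 := by
      rw [abs_mul]
      exact mul_le_one₀ ht (abs_nonneg _) (h1 g)
    have b2 := (abs_le.1 (Real.abs_exp_sub_one_sub_id_le b1)).2
    have b3 : (t * y g) ^ 2 ≤ t ^ 2 := by
      rw [mul_pow]
      exact mul_le_of_le_one_right (sq_nonneg _) ((sq_le_one_iff_abs_le_one _).2 (h1 g))
    have b4 := Real.add_one_le_exp (t ^ 2)
    linarith
  calc _ ≤ ∑ g, (Real.exp (t ^ 2) + t * y g) := sum_le_sum fun g _ => a1 g
    _ = _ := by
      rw [sum_add_distrib, ← mul_sum, h0]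
      simp

theorem partition {G ι : Type} [Fintype G] [DecidableEq G] [Nonempty G] [Fintype ι]
    (Fam : ι → Finset V) (u : ℕ) (hu0 : 0 < u) (hu : u ≤ 2 * Fintype.card V)
    (hbig : (Fintype.card ι * Fintype.card G : ℝ) <
      Real.exp ((u : ℝ) ^ 2 / (4 * Fintype.card V))) :
    ∃ lam : V → G, ∀ i p (x : ℕ), Fintype.card G * (x + u) ≤ (Fam i).card →
      x ≤ ((Fam i).filter (fun v => lam v = p)).card := by
  classical
  set n : ℝ := (Fintype.card V : ℝ) with hn
  set L : ℝ := (Fintype.card G : ℝ) with hL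
  have n0 : 0 < n := by
    have : 0 < Fintype.card V := by omega
    rw [hn]; exact_mod_cast this
  have L1 : 1 ≤ L := by
    rw [hL]; exact_mod_cast Fintype.card_pos
  have u0 : (0 : ℝ) < u := by exact_mod_cast hu0
  have un : (u : ℝ) ≤ 2 * n := by rw [hn]; exact_mod_cast hu
  set t : ℝ := u / (2 * n) with ht
  have t0 : 0 < t := by positivity
  have t1 : |t| ≤ 1 := by
    rw [abs_of_pos t0, ht, div_le_one (by positivity)]
    exact un
  let y : ι × G → V → G → ℝ := fun j v g =>
    if v ∈ Fam j.1 then 1 / L - (if g = j.2 then 1 else 0) else 0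
  have y0 : ∀ j v, ∑ g, y j v g = 0 := by
    intro j v
    simp only [y]
    split_ifs
    · rw [sum_sub_distrib]
      simp only [sum_const, card_univ, nsmul_eq_mul, sum_ite_eq', mem_univ, if_true, ← hL]
      field_simp
      ring
    · simp
  have iL : 1 / L ≤ 1 := by rw [div_le_one (by linarith)]; exact L1
  have iL0 : 0 < 1 / L := by positivity
  have y1 : ∀ j v g, |y j v g| ≤ 1 := by
    intro j v g
    simp only [y]
    split_ifs <;> rw [abs_le] <;> constructor <;> linarith
  let W : ι × G → (V → G) → ℝ := fun j lam => Real.exp (t * (∑ v, y j v (lam v)) - t * u)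
  have hW : ∀ j, ∑ lam, W j lam ≤ L ^ Fintype.card V * Real.exp (-((u : ℝ) ^ 2 / (4 * n))) := by
    intro j
    have a1 : ∀ lam, W j lam = (∏ v, Real.exp (t * y j v (lam v))) * Real.exp (-(t * u)) := by
      intro lam
      simp only [W]
      rw [← Real.exp_sum, ← Real.exp_add, mul_sum, sub_eq_add_neg]
    have a2 : ∑ lam : V → G, ∏ v, Real.exp (t * y j v (lam v)) =
        ∏ v, ∑ g, Real.exp (t * y j v g) := by
      rw [Finset.prod_univ_sum]
      simp
    have a3 : ∏ v, ∑ g, Real.exp (t * y j v g) ≤ ∏ _v : V, (L * Real.exp (t ^ 2)) :=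
      prod_le_prod (fun v _ => sum_nonneg fun g _ => (Real.exp_pos _).le)
        (fun v _ => one_site _ (y0 j v) (y1 j v) t t1)
    simp only [a1]
    rw [← sum_mul, a2]
    refine (mul_le_mul_of_nonneg_right a3 (Real.exp_pos _).le).trans (le_of_eq ?_)
    rw [prod_const, card_univ, mul_pow, ← Real.exp_nat_mul, mul_assoc, ← Real.exp_add, ← hn]
    congr 2
    rw [ht]
    field_simp
    ring
  obtain ⟨lam, -, hlam⟩ : ∃ lam ∈ (univ : Finset (V → G)), ∑ j, W j lam < 1 := by
    apply exists_lt_of_sum_lt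
    rw [sum_comm]
    refine (sum_le_sum fun j _ => hW j).trans_lt ?_
    simp only [sum_const, card_univ, nsmul_eq_mul, Fintype.card_prod, Fintype.card_fun,
      Nat.cast_mul, Nat.cast_pow, mul_one, ← hL]
    have p1 : 0 < L ^ Fintype.card V := by positivity
    rw [Real.exp_neg, mul_left_comm, mul_lt_iff_lt_one_right p1, ← div_eq_mul_inv,
      div_lt_one (Real.exp_pos _)]
    exact hbig
  refine ⟨lam, fun i p x hx => ?_⟩
  have b1 : W (i, p) lam < 1 :=
    (single_le_sum (f := fun j => W j lam) (fun j _ => (Real.exp_pos _).le)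
      (mem_univ (i, p))).trans_lt hlam
  have b2 : ∑ v, y (i, p) v (lam v) =
      (Fam i).card / L - ((Fam i).filter (fun v => lam v = p)).card := by
    simp only [y]
    rw [← sum_filter, filter_mem_eq_inter, univ_inter, sum_sub_distrib, sum_boole]
    simp [div_eq_mul_inv]
  simp only [W] at b1
  rw [Real.exp_lt_one_iff, b2, ← mul_sub, mul_neg_iff] at b1
  have b3 : L * (x + u) ≤ (Fam i).card := by rw [hL]; exact_mod_cast hx
  have b4 : (x + u : ℝ) ≤ (Fam i).card / L := by
    rw [le_div_iff₀ (by linarith)]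
    linarith
  have b5 : (x : ℝ) ≤ ((Fam i).filter (fun v => lam v = p)).card := by
    rcases b1 with b1 | b1
    · linarith [b1.2]
    · linarith [b1.1]
  exact_mod_cast b5

lemma two_pow_sum {a b c d : ℕ} (h1 : a ≤ b) (h2 : c ≤ d) (h : 2 ^ a + 2 ^ b = 2 ^ c + 2 ^ d) :
    a = c ∧ b = d := by
  have key : ∀ {a b c d : ℕ}, c ≤ d → 2 ^ a + 2 ^ b = 2 ^ c + 2 ^ d → b ≤ d := by
    intro a b c d h2 h
    by_contra hn
    have e1 : 2 ^ (d + 1) ≤ 2 ^ b := Nat.pow_le_pow_right (by omega) (by omega)
    have e2 : 2 ^ c ≤ 2 ^ d := Nat.pow_le_pow_right (by omega) h2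
    have e3 : 0 < 2 ^ a := Nat.two_pow_pos a
    rw [pow_succ] at e1
    omega
  have hbd : b = d := le_antisymm (key h2 h) (key h1 h.symm)
  subst hbd
  exact ⟨Nat.pow_right_injective le_rfl (Nat.add_right_cancel h), rfl⟩

lemma sidon (L r : ℕ) (hL : 2 ^ (r + 1) ≤ L) {i j i' j' : ℕ} (hi : i < r) (hj : j < r)
    (hi' : i' < r) (hj' : j' < r) (hne : i ≠ j)
    (h : (2 : ZMod L) ^ i - 2 ^ j = 2 ^ i' - 2 ^ j') : i = i' := by
  have h1 : ((2 ^ i + 2 ^ j' : ℕ) : ZMod L) = ((2 ^ i' + 2 ^ j : ℕ) : ZMod L) := by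
    push_cast
    linear_combination h
  have b : ∀ x, x < r → 2 ^ x < 2 ^ r := fun x hx => Nat.pow_lt_pow_right (by omega) hx
  have := b i hi
  have := b j hj
  have := b i' hi'
  have := b j' hj'
  rw [pow_succ] at hL
  rw [ZMod.natCast_eq_natCast_iff', Nat.mod_eq_of_lt (by omega), Nat.mod_eq_of_lt (by omega)] at h1
  rcases le_total i j' with a | a <;> rcases le_total i' j with b | b
  · exact (two_pow_sum a b h1).1
  · exact absurd (two_pow_sum a b (by omega)).1 hne
  · exact absurd (two_pow_sum a b (by omega)).2 hne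
  · exact (two_pow_sum a b (by omega)).2

open Classical in
/-- there are at least `g` two-arc paths from `a` to `y` -/
def Good (Adj : V → V → Prop) (g : ℕ) (a y : V) : Prop :=
  g ≤ (univ.filter (fun u => Adj a u ∧ Adj u y)).card

open Classical in
theorem roots (Adj : V → V → Prop)
    (hsc : ∀ u v, u ≠ v → Adj u v ∨ Adj v u) (k g : ℕ) (hk : k ≤ Fintype.card V)
    (hd : ∀ v, k + 5 * g + 6 ≤ (univ.filter (fun y => Adj y v)).card) :
    ∃ A0 : Finset V, A0.card = k ∧ ∀ a ∈ A0, ∀ v,
      g ≤ (univ.filter (fun y => Adj y v ∧ Good Adj g a y)).card := by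
  let D : V → ℕ := fun v => (univ.filter (fun y => Adj v y)).card
  obtain ⟨B, -, hB⟩ := exists_subset_card_eq (s := (univ : Finset V)) (n := k) (by simpa using hk)
  obtain ⟨A0, h1, h2⟩ := exists_max_image (powersetCard k (univ : Finset V))
    (fun S => ∑ v ∈ S, D v) ⟨B, mem_powersetCard.2 ⟨subset_univ _, hB⟩⟩
  have h3 := (mem_powersetCard.1 h1).2
  have top : ∀ a ∈ A0, ∀ y, y ∉ A0 → D y ≤ D a := by
    intro a ha y hy
    have hy' : y ∉ A0.erase a := fun hh => hy (mem_of_mem_erase hh)
    have := h2 (insert y (A0.erase a)) (mem_powersetCard.2 ⟨subset_univ _, by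
      have := card_pos.2 ⟨a, ha⟩
      rw [card_insert_of_notMem hy', card_erase_of_mem ha]
      omega⟩)
    rw [sum_insert hy', ← add_sum_erase A0 D ha] at this
    omega
  refine ⟨A0, h3, fun a ha v => ?_⟩
  let O := univ.filter (fun y => Adj a y)
  have c1 := low_count Adj hsc O g
  have c2 := low_count (fun x y => Adj y x) (fun u v h => (hsc u v h).symm) Oᶜ (g + 1)
  have sub : univ.filter (fun y => Adj y v) ⊆
      univ.filter (fun y => Adj y v ∧ Good Adj g a y) ∪ A0 ∪
      O.filter (fun z => (O.filter (fun y => Adj y z)).card < g) ∪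
      Oᶜ.filter (fun z => (Oᶜ.filter (fun y => Adj z y)).card < g + 1) := by
    intro y hy
    by_cases g1 : Good Adj g a y
    · simp [(mem_filter.1 hy).2, g1]
    by_cases g2 : y ∈ A0
    · simp [g2]
    have g3 : (O.filter (fun u => Adj u y)).card < g := by
      unfold Good at g1
      simp only [O, filter_filter]
      omega
    by_cases g4 : y ∈ O
    · exact mem_union_left _ (mem_union_right _ (mem_filter.2 ⟨g4, g3⟩))
    refine mem_union_right _ (mem_filter.2 ⟨mem_compl.2 g4, ?_⟩)
    have g5 := top a ha y g2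
    have g6 := card_filter_add_card_filter_not (s := O) (fun u => Adj u y)
    have g7 : (O.filter (fun u => ¬ Adj u y)).card + (Oᶜ.filter (fun u => Adj y u)).card ≤ D y := by
      rw [← card_union_of_disjoint (disjoint_filter_filter disjoint_compl_right)]
      apply card_le_card
      intro w hw
      refine mem_filter.2 ⟨mem_univ _, ?_⟩
      rcases mem_union.1 hw with hw | hw
      · exact (hsc w y (fun hh => g4 (hh ▸ (mem_filter.1 hw).1))).resolve_left (mem_filter.1 hw).2
      · exact (mem_filter.1 hw).2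
    have g8 : D a = O.card := rfl
    omega
  have s1 := (card_le_card sub).trans ((card_union_le _ _).trans (add_le_add
    ((card_union_le _ _).trans (add_le_add (card_union_le _ _) c1)) c2))
  have := hd v
  omega

end Pool.Agent.Lib.MP_44ed1d_co
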