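import Mathlib
import Pool.Agent.Lib.MP_44ed1d_co.Heavy
import Pool.Agent.Lib.MP_44ed1d_co.Rand
import Pool.Agent.Lib.MP_44ed1d_co.Pieces

set_option autoImplicit false
set_option linter.unusedSectionVars false

namespace Pool.Agent.Lib.MP_44ed1d_co

open Finset Relation

variable {V : Type} [DecidableEq V] [Fintype V]
variable {κ : Type} [Fintype κ] [DecidableEq κ] [Nonempty κ]

lemma walk {L : ℕ} [Fact L.Prime] (lam : V → ZMod L) (s : ZMod L) (hs : s ≠ 0) (p : V → Prop)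
    (step : ∀ v, p v → ∃ y, p y ∧ lam y = lam v + s) (v : V) (hv : p v) (g : ZMod L) :
    ∃ y, p y ∧ lam y = g := by
  have key : ∀ n : ℕ, ∃ y, p y ∧ lam y = lam v + n * s := by
    intro n
    induction n with
    | zero => exact ⟨v, hv, by simp⟩
    | succ n ih =>
      obtain ⟨y, y1, y2⟩ := ih
      obtain ⟨w, w1, w2⟩ := step y y1
      exact ⟨w, w1, by rw [w2, y2]; push_cast; ring⟩
  obtain ⟨y, y1, y2⟩ := key ((g - lam v) / s).val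
  refine ⟨y, y1, ?_⟩
  rw [y2, ZMod.natCast_zmod_val, div_mul_cancel₀ _ hs]
  ring

theorem combine (Adj : V → V → Prop) {L : ℕ} [Fact L.Prime] (lam : V → ZMod L) {ι : Type}
    (σ1 σ2 : ι → ZMod L) (i0 : ι) (X : Finset V) (z a : κ → V) (P : κ → Finset (V × V))
    (hP : ∀ c, (∀ e ∈ P c, Adj e.1 e.2) ∧ IsPath (P c) (z c) (a c))
    (hdis : ∀ c d, c ≠ d → Disjoint (P c) (P d)) (ha : ∀ c, a c ∉ X)
    (B : V → V → Prop) (hB : ∀ x y, B x y → Adj x y ∧ x ∉ X ∧ y ∉ X ∧ ¬ ∃ c, (x, y) ∈ P c)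
    (S : Finset (ZMod L)) (hS : ∀ s ∈ S, ∀ i j, s ≠ σ1 j - σ1 i ∧ s ≠ σ2 j - σ2 i)
    (h12 : ∀ i j i' j', i ≠ j → σ1 j - σ1 i ≠ σ2 i' - σ2 j')
    (f1 f2 f3 f4 f5 : V → V → κ) (sh : κ → ZMod L)
    (h1 : ∀ x c, (∃ y, (x, y) ∈ P c) ∨
      ∃ y, y ∉ X ∧ Adj x y ∧ (¬ ∃ d, (x, y) ∈ P d) ∧ f1 x y = c)
    (h2 : ∀ x c, (∃ y, (y, x) ∈ P c) ∨
      ∃ y, y ∉ X ∧ Adj y x ∧ (¬ ∃ d, (y, x) ∈ P d) ∧ f2 x y = c)
    (h3 : ∀ c, sh c ∈ S ∧ ∀ v, v ∉ X →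
      (∃ y, B v y ∧ lam y - lam v = sh c ∧ f3 v y = c) ∧
      ∃ y, B y v ∧ lam v - lam y = sh c ∧ f3 y v = c)
    (h4 : ∀ c (U : Finset V), U.Nonempty →
      (∀ v ∈ U, v ∉ X ∧ ∃ i, lam v = lam (a c) - σ1 i0 + σ1 i) → a c ∉ U →
      ∃ x y, B x y ∧ (∃ i j, i ≠ j ∧ lam y - lam x = σ1 j - σ1 i) ∧ f4 x y = c ∧ y ∈ U ∧ x ∉ U ∧
        ∃ i, lam x = lam (a c) - σ1 i0 + σ1 i)
    (h5 : ∀ c (U : Finset V), U.Nonempty →
      (∀ v ∈ U, v ∉ X ∧ ∃ i, lam v = lam (z c) - σ2 i0 + σ2 i) → z c ∉ U →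
      ∃ x y, B y x ∧ (∃ i j, i ≠ j ∧ lam y - lam x = σ2 j - σ2 i) ∧ f5 x y = c ∧ y ∈ U ∧ x ∉ U ∧
        ∃ i, lam x = lam (z c) - σ2 i0 + σ2 i) : Dec Adj κ := by
  classical
  let φ : V → V → κ := fun x y =>
    if h : ∃ c, (x, y) ∈ P c then h.choose else if x ∈ X then f1 x y else if y ∈ X then f2 y x
    else if lam y - lam x ∈ S then f3 x y
    else if ∃ i j, i ≠ j ∧ lam y - lam x = σ1 j - σ1 i then f4 x y else f5 y x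
  refine ⟨φ, fun c Z hZ hcl => ?_⟩
  have cP : ∀ x y, ReflTransGen (fun a b => (a, b) ∈ P c) x y → x ∈ Z → y ∈ Z := by
    intro x y hxy hx
    induction hxy with
    | refl => exact hx
    | @tail b d _ hbd ih =>
      refine hcl b d ((hP c).1 _ hbd) ?_ ih
      have hh : ∃ c, (b, d) ∈ P c := ⟨c, hbd⟩
      simp only [φ, dif_pos hh]
      by_contra hne
      exact disjoint_left.1 (hdis _ _ hne) hh.choose_spec hbd
  have c3 : ∀ x y, B x y → lam y - lam x = sh c → f3 x y = c → x ∈ Z → y ∈ Z := by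
    intro x y b1 b2 b3
    obtain ⟨p1, p2, p3, p4⟩ := hB x y b1
    refine hcl x y p1 ?_
    simp only [φ, dif_neg p4, if_neg p2, if_neg p3, if_pos (b2 ▸ (h3 c).1 : lam y - lam x ∈ S), b3]
  have hs0 : sh c ≠ 0 := fun hh => (hS _ (h3 c).1 i0 i0).1 (by rw [hh, sub_self])
  have s0 : ∃ v, v ∈ Z ∧ v ∉ X := by
    obtain ⟨x, hx⟩ := hZ
    by_cases hxX : x ∈ X
    · rcases h1 x c with ⟨y, hy⟩ | ⟨y, y1, y2, y3, y4⟩
      · exact ⟨a c, cP _ _ ((hP c).2.tow _ hy) hx, ha c⟩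
      · exact ⟨y, hcl x y y2 (by simp only [φ, dif_neg y3, if_pos hxX, y4]) hx, y1⟩
    · exact ⟨x, hx, hxX⟩
  obtain ⟨v, hv⟩ := s0
  have s2 : z c ∈ Z := by
    obtain ⟨y, y1, y2⟩ := walk lam (sh c) hs0 (fun v => v ∈ Z ∧ v ∉ X) (fun v hv => by
      obtain ⟨y, b1, b2, b3⟩ := ((h3 c).2 v hv.2).1
      exact ⟨y, ⟨c3 v y b1 b2 b3 hv.1, (hB _ _ b1).2.2.1⟩, by rw [← b2]; ring⟩) v hv
      (lam (z c) - σ2 i0 + σ2 i0)
    by_contra hz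
    obtain ⟨x, w, b1, ⟨i, j, hij, b2⟩, b3, b4, b5, b6⟩ := h5 c
      (Z.filter (fun v => v ∉ X ∧ ∃ i, lam v = lam (z c) - σ2 i0 + σ2 i))
      ⟨y, mem_filter.2 ⟨y1.1, y1.2, i0, y2⟩⟩ (fun v hv => (mem_filter.1 hv).2)
      (fun hh => hz (mem_filter.1 hh).1)
    obtain ⟨p1, p2, p3, p4⟩ := hB w x b1
    have e : lam x - lam w = σ2 i - σ2 j := by rw [← neg_sub, b2]; ring
    have n1 : lam x - lam w ∉ S := fun hh => (hS _ hh j i).2 e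
    have n2 : ¬ ∃ i j, i ≠ j ∧ lam x - lam w = σ1 j - σ1 i :=
      fun ⟨i', j', q1, q2⟩ => h12 i' j' i j q1 (q2.symm.trans e)
    refine b5 (mem_filter.2 ⟨hcl w x p1 ?_ (mem_filter.1 b4).1, p3, b6⟩)
    simp only [φ, dif_neg p4, if_neg p2, if_neg p3, if_neg n1, if_neg n2, b3]
  have s3 : a c ∈ Z := cP _ _ (hP c).2.all s2
  have s4 : ∀ y, y ∉ X → lam y = lam (a c) - σ1 i0 + σ1 i0 → y ∈ Z := by
    intro y y1 y2
    by_contra hy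
    obtain ⟨x, w, b1, b2, b3, b4, b5, b6⟩ := h4 c
      (Zᶜ.filter (fun v => v ∉ X ∧ ∃ i, lam v = lam (a c) - σ1 i0 + σ1 i))
      ⟨y, mem_filter.2 ⟨mem_compl.2 hy, y1, i0, y2⟩⟩ (fun v hv => (mem_filter.1 hv).2)
      (fun hh => mem_compl.1 (mem_filter.1 hh).1 s3)
    obtain ⟨p1, p2, p3, p4⟩ := hB x w b1
    have n1 : lam w - lam x ∉ S := fun hh => by
      obtain ⟨i, j, -, e⟩ := b2
      exact (hS _ hh i j).1 e
    have hx : x ∈ Z := by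
      by_contra hx
      exact b5 (mem_filter.2 ⟨mem_compl.2 hx, p2, b6⟩)
    refine mem_compl.1 (mem_filter.1 b4).1 (hcl x w p1 ?_ hx)
    simp only [φ, dif_neg p4, if_neg p2, if_neg p3, if_neg n1, if_pos b2, b3]
  have s5 : ∀ y, y ∉ X → y ∈ Z := by
    intro y y1
    by_contra hy
    obtain ⟨w, w1, w2⟩ := walk lam (- sh c) (neg_ne_zero.2 hs0) (fun v => v ∉ Z ∧ v ∉ X)
      (fun v hv => by
        obtain ⟨y, b1, b2, b3⟩ := ((h3 c).2 v hv.2).2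
        exact ⟨y, ⟨fun hh => hv.1 (c3 y v b1 b2 b3 hh), (hB _ _ b1).2.1⟩, by rw [← b2]; ring⟩)
      y ⟨hy, y1⟩ (lam (a c) - σ1 i0 + σ1 i0)
    exact w1.1 (s4 w w1.2 w2)
  intro x
  by_cases hx : x ∈ X
  · rcases h2 x c with ⟨y, hy⟩ | ⟨y, y1, y2, y3, y4⟩
    · exact cP _ _ ((hP c).2.fr _ hy) s2
    · exact hcl y x y2 (by simp only [φ, dif_neg y3, if_neg y1, if_pos hx, y4]) (s5 y y1)
  · exact s5 x hx

end Pool.Agent.Lib.MP_44ed1d_co
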