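import Mathlib
import Pool.Agent.Lib.MP_44ed1d_co.Combine

set_option autoImplicit false
set_option linter.unusedSectionVars false

namespace Pool.Agent.Lib.MP_44ed1d_co

open Finset Relation

variable {V : Type} [DecidableEq V] [Fintype V]
variable {κ : Type} [Fintype κ] [DecidableEq κ] [Nonempty κ]

theorem window_full {G : Type} [AddCommGroup G] [Fintype G] [DecidableEq G]
    (Adj Q B : V → V → Prop) (lam : V → G) {q : ℕ} (σ : Fin q → G)
    (hσ : ∀ i j i' j', i ≠ j → σ i - σ j = σ i' - σ j' → i = i') (i0 : Fin q) (X : Finset V)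
    (root : κ → V) (A0 : Finset V) (Gd : V → V → Prop) (u x x0 : ℕ) (hX : X.card ≤ u)
    (hB : ∀ a b, Adj a b → a ∉ X → b ∉ X → ¬ Q a b → B a b)
    (hroot : ∀ c, root c ∈ A0 ∧ root c ∉ X)
    (hcount : ∀ S : Finset V, (univ.filter (fun c => root c ∈ S)).card ≤ (A0 ∩ S).card + u)
    (hQ : ∀ v, v ∉ X → AtMost (2 * u) (Q v) ∧ AtMost (2 * u) (fun y => Q y v))
    (l1 : ∀ a y, Gd a y → ∃ F : Finset V, (∀ w ∈ F, Adj a w ∧ Adj w y) ∧
      ∀ p, x ≤ (F.filter (fun v => lam v = p)).card)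
    (l2 : ∀ a ∈ A0, ∀ v, ∃ F : Finset V, (∀ y ∈ F, Adj y v ∧ Gd a y) ∧
      ∀ p, x ≤ (F.filter (fun v => lam v = p)).card)
    (l3 : ∀ p, x0 ≤ (A0.filter (fun v => lam v = p)).card)
    (n7 : A0.card + 6 * u ≤ (q - 2) * x + (Fintype.card G - 1) * x0) (n8 : 5 * u ≤ (q - 2) * x) :
    ∃ f : V → V → κ, ∀ c (U : Finset V), U.Nonempty →
      (∀ v ∈ U, v ∉ X ∧ ∃ i, lam v = lam (root c) - σ i0 + σ i) → root c ∉ U →
      ∃ a b, B a b ∧ (∃ i j, i ≠ j ∧ lam b - lam a = σ j - σ i) ∧ f a b = c ∧ b ∈ U ∧ a ∉ U ∧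
        ∃ i, lam a = lam (root c) - σ i0 + σ i := by
  have inj : Function.Injective σ := fun i j h => by
    by_contra hne
    exact hne (hσ i j j i hne (by rw [h]))
  apply window_piece B lam σ hσ i0 X root Gd ((q - 2) * x - 5 * u)
  · intro p
    have a1 := hcount (univ.filter (fun v => lam v = p))
    have a2 := layer_upper lam A0 x0 l3 p
    simp only [mem_filter, mem_univ, true_and] at a1
    rw [inter_filter, inter_univ] at a1
    omega
  · intro c y hy hg g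
    obtain ⟨F, f1, f2⟩ := l1 _ _ hg
    have a1 := (many_window σ inj lam F x f2 g (lam (root c)) (lam y)).mono
      (r' := (q - 2) * x - 5 * u + 2 * u + 2 * u + u) (by omega) (fun _ h => h)
    refine (((a1.diff (atMost_mem X hX)).diff (hQ _ (hroot c).2).1).diff (hQ y hy).2).mono le_rfl ?_
    rintro w ⟨⟨⟨⟨w1, w2, w3, w4⟩, w5⟩, w6⟩, w7⟩
    exact ⟨hB _ _ (f1 w w1).1 (hroot c).2 w5 w6, hB _ _ (f1 w w1).2 w5 hy w7, w2, w3, w4⟩
  · intro c v hv g
    obtain ⟨F, f1, f2⟩ := l2 _ (hroot c).1 v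
    have a1 := (many_window σ inj lam F x f2 g (lam v) (lam v)).mono
      (r' := (q - 2) * x - 5 * u + 2 * u + u) (by omega) (fun _ h => h)
    refine ((a1.diff (atMost_mem X hX)).diff (hQ v hv).2).mono le_rfl ?_
    rintro w ⟨⟨⟨w1, w2, w3, -⟩, w5⟩, w6⟩
    exact ⟨hB _ _ (f1 w w1).1 w5 hv w6, (f1 w w1).2, w2, w3⟩

open Classical in
theorem assemble (Adj : V → V → Prop) (A : Finset (V × V)) (hA : ∀ a b, (a, b) ∈ A ↔ Adj a b)
    (hsc : ∀ u v, u ≠ v → Adj u v ∨ Adj v u) (hcut : KCut A (Fintype.card κ))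
    (L q : ℕ) [Fact L.Prime] (hq : 0 < q) (hL : 2 ^ (2 * q + 1) ≤ L) (u g r x x0 d : ℕ)
    (hu : 0 < u) (huk : u < Fintype.card κ) (hkn : Fintype.card κ ≤ Fintype.card V)
    (hbig : 16 * Fintype.card κ * Fintype.card V ≤ u ^ 3)
    (hexp : (8 * (Fintype.card V * Fintype.card V) * L : ℝ) <
      Real.exp ((u : ℝ) ^ 2 / (4 * Fintype.card V)))
    (hdo : ∀ v, d ≤ (univ.filter (fun y => Adj v y)).card)
    (hdi : ∀ v, d ≤ (univ.filter (fun y => Adj y v)).card)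
    (n1 : Fintype.card κ + 5 * g + 6 ≤ d) (n2 : Fintype.card κ + u ≤ d)
    (n3 : L * (r + 2 * u + u + u) ≤ d) (n4 : Fintype.card κ ≤ (L - 2 * (q * q)) * r)
    (n5 : L * (x + u) ≤ g) (n6 : L * (x0 + u) ≤ Fintype.card κ)
    (n7 : Fintype.card κ + 6 * u ≤ (q - 2) * x + (L - 1) * x0) (n8 : 5 * u ≤ (q - 2) * x) :
    Dec Adj κ := by
  let Ad : V → V → Prop := fun a b => Adj b a
  obtain ⟨A0, a1, a2⟩ := roots Adj hsc (Fintype.card κ) g hkn (fun v => n1.trans (hdi v))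
  obtain ⟨Z0, z1, z2⟩ := roots Ad (fun u v h => (hsc u v h).symm) (Fintype.card κ) g hkn
    (fun v => n1.trans (hdo v))
  obtain ⟨X, z, a, P, hX, hz, ha, cz, ca, hP, hdis, hdeg⟩ :=
    good_flow A hcut A0 Z0 a1 z1 u hu huk hbig
  let Fam : Fin 8 × V × V → Finset V := fun j =>
    ![univ.filter (fun y => Adj j.2.1 y), univ.filter (fun y => Adj y j.2.1),
      univ.filter (fun w => Adj j.2.1 w ∧ Adj w j.2.2),
      univ.filter (fun w => Ad j.2.1 w ∧ Ad w j.2.2),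
      univ.filter (fun y => Adj y j.2.2 ∧ Good Adj g j.2.1 y),
      univ.filter (fun y => Ad y j.2.2 ∧ Good Ad g j.2.1 y), A0, Z0] j.1
  obtain ⟨lam, hlam⟩ := partition (G := ZMod L) Fam u hu (by omega) (by
    simpa [ZMod.card] using hexp)
  rw [ZMod.card] at hlam
  obtain ⟨v0⟩ : Nonempty V := Fintype.card_pos_iff.1 (by omega)
  let σ1 : Fin q → ZMod L := fun i => 2 ^ (i : ℕ)
  let σ2 : Fin q → ZMod L := fun i => 2 ^ (q + i)
  have s1 : ∀ i j i' j', i ≠ j → σ1 i - σ1 j = σ1 i' - σ1 j' → i = i' := fun i j i' j' h1 h2 =>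
    Fin.ext (sidon L (2 * q) hL (by omega) (by omega) (by omega) (by omega)
      (fun hh => h1 (Fin.ext hh)) h2)
  have s2 : ∀ i j i' j', i ≠ j → σ2 i - σ2 j = σ2 i' - σ2 j' → i = i' := fun i j i' j' h1 h2 =>
    Fin.ext (Nat.add_left_cancel (sidon L (2 * q) hL (by omega) (by omega) (by omega) (by omega)
      (fun hh => h1 (Fin.ext (Nat.add_left_cancel hh))) h2))
  have s12 : ∀ i j i' j', i ≠ j → σ1 j - σ1 i ≠ σ2 i' - σ2 j' := fun i j i' j' h1 h2 => by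
    have := sidon L (2 * q) hL (i := j) (j := i) (i' := q + i') (j' := q + j') (by omega)
      (by omega) (by omega) (by omega) (fun hh => h1 (Fin.ext hh.symm)) h2
    omega
  let S : Finset (ZMod L) := (univ.image (fun p : Fin q × Fin q => σ1 p.2 - σ1 p.1) ∪
    univ.image (fun p : Fin q × Fin q => σ2 p.2 - σ2 p.1))ᶜ
  have hS : ∀ s ∈ S, ∀ i j, s ≠ σ1 j - σ1 i ∧ s ≠ σ2 j - σ2 i := fun s hs i j =>
    ⟨fun hh => mem_compl.1 hs (mem_union_left _ (mem_image.2 ⟨(i, j), mem_univ _, hh.symm⟩)),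
      fun hh => mem_compl.1 hs (mem_union_right _ (mem_image.2 ⟨(i, j), mem_univ _, hh.symm⟩))⟩
  have hSc : L - 2 * (q * q) ≤ S.card := by
    have b1 : ∀ f : Fin q × Fin q → ZMod L, (univ.image f).card ≤ q * q := fun f =>
      card_image_le.trans (by simp)
    have b2 := (card_union_le _ _).trans (add_le_add (b1 fun p => σ1 p.2 - σ1 p.1)
      (b1 fun p => σ2 p.2 - σ2 p.1))
    simp only [S]
    rw [card_compl, ZMod.card]
    omega
  let Q : V → V → Prop := fun x y => ∃ c, (x, y) ∈ P c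
  let B : V → V → Prop := fun x y => Adj x y ∧ x ∉ X ∧ y ∉ X ∧ ¬ Q x y
  have hQ : ∀ v, v ∉ X → AtMost (2 * u) (Q v) ∧ AtMost (2 * u) (fun y => Q y v) := fun v hv =>
    ⟨atMost_filter (hdeg v hv).1, atMost_filter (hdeg v hv).2⟩
  obtain ⟨f1, h1⟩ := attach Adj (fun c x y => (x, y) ∈ P c) X
    (fun c x y y' p1 p2 => (Prod.mk.inj ((hP c).2.inj1 _ p1 _ p2 rfl)).2)
    (fun x => ⟨_, le_trans (by omega) (hdo x), fun y hy => (mem_filter.1 hy).2⟩)
  obtain ⟨f2, h2⟩ := attach Ad (fun c x y => (y, x) ∈ P c) X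
    (fun c x y y' p1 p2 => (Prod.mk.inj ((hP c).2.inj2 _ p1 _ p2 rfl)).1)
    (fun x => ⟨_, le_trans (by omega) (hdi x), fun y hy => (mem_filter.1 hy).2⟩)
  obtain ⟨f3, sh, h3⟩ := main_piece (κ := κ) B lam X S r (n4.trans (Nat.mul_le_mul_right _ hSc))
    (fun v hv p => by
      have b1 : Many (r + 2 * u + u) (fun y => Adj v y ∧ lam y = p) :=
        ⟨_, hlam (0, v, v) p _ (n3.trans (hdo v)),
          fun y hy => ⟨(mem_filter.1 (mem_filter.1 hy).1).2, (mem_filter.1 hy).2⟩⟩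
      refine ((b1.diff (atMost_mem X hX)).diff (hQ v hv).1).mono le_rfl ?_
      rintro w ⟨⟨⟨w1, w2⟩, w3⟩, w4⟩
      exact ⟨⟨w1, hv, w3, w4⟩, w2⟩)
    (fun v hv p => by
      have b1 : Many (r + 2 * u + u) (fun y => Adj y v ∧ lam y = p) :=
        ⟨_, hlam (1, v, v) p _ (n3.trans (hdi v)),
          fun y hy => ⟨(mem_filter.1 (mem_filter.1 hy).1).2, (mem_filter.1 hy).2⟩⟩
      refine ((b1.diff (atMost_mem X hX)).diff (hQ v hv).2).mono le_rfl ?_
      rintro w ⟨⟨⟨w1, w2⟩, w3⟩, w4⟩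
      exact ⟨⟨w1, w3, hv, w4⟩, w2⟩)
  obtain ⟨f4, h4⟩ := window_full Adj Q B lam σ1 s1 ⟨0, hq⟩ X a A0 (Good Adj g) u x x0 hX
    (fun _ _ p1 p2 p3 p4 => ⟨p1, p2, p3, p4⟩) ha ca hQ
    (fun b y hg => ⟨Fam (2, b, y), fun w hw => (mem_filter.1 hw).2,
      fun p => hlam _ p _ (n5.trans hg)⟩)
    (fun b hb v => ⟨Fam (4, b, v), fun w hw => (mem_filter.1 hw).2,
      fun p => hlam _ p _ (n5.trans (a2 b hb v))⟩)
    (fun p => hlam (6, v0, v0) p _ (n6.trans a1.ge)) (by rw [a1, ZMod.card]; exact n7) n8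
  obtain ⟨f5, h5⟩ := window_full Ad (fun x y => Q y x) (fun x y => B y x) lam σ2 s2 ⟨0, hq⟩ X z Z0
    (Good Ad g) u x x0 hX (fun _ _ p1 p2 p3 p4 => ⟨p1, p3, p2, p4⟩) hz cz
    (fun v hv => (hQ v hv).symm)
    (fun b y hg => ⟨Fam (3, b, y), fun w hw => (mem_filter.1 hw).2,
      fun p => hlam _ p _ (n5.trans hg)⟩)
    (fun b hb v => ⟨Fam (5, b, v), fun w hw => (mem_filter.1 hw).2,
      fun p => hlam _ p _ (n5.trans (z2 b hb v))⟩)
    (fun p => hlam (7, v0, v0) p _ (n6.trans z1.ge)) (by rw [z1, ZMod.card]; exact n7) n8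
  exact combine Adj lam σ1 σ2 ⟨0, hq⟩ X z a P
    (fun c => ⟨fun e he => (hA _ _).1 ((hP c).1 he), (hP c).2⟩) hdis (fun c => (ha c).2) B
    (fun _ _ h => h) S hS s12 f1 f2 f3 f4 f5 sh h1 h2 h3 h4 h5

end Pool.Agent.Lib.MP_44ed1d_co
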