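import Mathlib
import Pool.Agent.Lib.MP_44ed1d_co.Back

set_option autoImplicit false
set_option linter.unusedSectionVars false

namespace Pool.Agent.Lib.MP_44ed1d_co

open Finset

variable {V E : Type} [DecidableEq V] [DecidableEq E] [Fintype V]
variable {κ : Type} [Fintype κ] [DecidableEq κ] [Nonempty κ]

/-- the nontrivial closed sets of a source-sink connected relation -/
structure Fam (C : Finset V → Prop) : Prop where
  ne : ∀ U, C U → U.Nonempty
  pr : ∀ U, C U → ∃ x, x ∉ U
  inter : ∀ U X, C U → C X → (U ∩ X).Nonempty → C (U ∩ X)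
  union : ∀ U X, C U → C X → (∃ x, x ∉ U ∧ x ∉ X) → C (U ∪ X)
  ss : ∀ P U X, C P → C U → C X → Disjoint P U → ∃ x, x ∉ U ∧ x ∉ X

def Atom (C : Finset V → Prop) (P : Finset V) : Prop := C P ∧ ∀ U, C U → U ⊆ P → U = P

def Co (C : Finset V → Prop) (X : Finset V) : Prop := C X ∧ ∀ U, C U → X ⊆ U → U = X

def Cov (t h : E → V) (A : Finset E) (C : Finset V → Prop) (ψ : E → κ) : Prop :=
  ∀ U, C U → ∀ c, ∃ e ∈ A, ψ e = c ∧ t e ∈ U ∧ h e ∉ U

def Cut (t h : E → V) (A : Finset E) (C : Finset V → Prop) (k : ℕ) : Prop :=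
  ∀ U, C U → k ≤ (ent h t A U).card

def Inner (C : Finset V → Prop) (x : V) : Prop :=
  (∀ P, Atom C P → x ∉ P) ∧ ∀ X, Co C X → x ∈ X

variable {C : Finset V → Prop}

lemma exists_atom {U : Finset V} (hU : C U) : ∃ P, Atom C P ∧ P ⊆ U := by
  classical
  obtain ⟨P, hP, hmin⟩ := exists_min_image (univ.filter (fun P => C P ∧ P ⊆ U)) card
    ⟨U, by simpa using hU⟩
  have hP' := (mem_filter.1 hP).2
  refine ⟨P, ⟨hP'.1, fun W hW hWP => ?_⟩, hP'.2⟩
  exact eq_of_subset_of_card_le hWP (hmin W (by simpa using ⟨hW, hWP.trans hP'.2⟩))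

lemma exists_co {U : Finset V} (hU : C U) : ∃ X, Co C X ∧ U ⊆ X := by
  classical
  obtain ⟨P, hP, hmax⟩ := exists_max_image (univ.filter (fun P => C P ∧ U ⊆ P)) card
    ⟨U, by simpa using hU⟩
  have hP' := (mem_filter.1 hP).2
  refine ⟨P, ⟨hP'.1, fun W hW hWP => ?_⟩, hP'.2⟩
  exact (eq_of_subset_of_card_le hWP (hmax W (by simpa using ⟨hW, hP'.2.trans hWP⟩))).symm

lemma Atom.sub (hC : Fam C) {P U : Finset V} (hP : Atom C P) (hU : C U) {x : V}
    (h1 : x ∈ P) (h2 : x ∈ U) : P ⊆ U := by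
  have := hP.2 _ (hC.inter P U hP.1 hU ⟨x, mem_inter.2 ⟨h1, h2⟩⟩) inter_subset_left
  rw [← this]
  exact inter_subset_right

lemma Co.sup (hC : Fam C) {X U : Finset V} (hX : Co C X) (hU : C U) {x : V}
    (h1 : x ∉ X) (h2 : x ∉ U) : U ⊆ X := by
  have := hX.2 _ (hC.union X U hX.1 hU ⟨x, h1, h2⟩) subset_union_left
  rw [← this]
  exact subset_union_right

lemma Atom.sub_co (hC : Fam C) {P X : Finset V} (hP : Atom C P) (hX : Co C X) : P ⊆ X := by
  by_cases hd : Disjoint X P
  · obtain ⟨z, z1, z2⟩ := hC.ss X P X hX.1 hP.1 hX.1 hd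
    exact hX.sup hC hP.1 z2 z1
  · obtain ⟨z, z1, z2⟩ := not_disjoint_iff.1 hd
    exact hP.sub hC hX.1 z2 z1

lemma Atom.eq (hC : Fam C) {P Q : Finset V} (hP : Atom C P) (hQ : Atom C Q) {x : V}
    (h1 : x ∈ P) (h2 : x ∈ Q) : P = Q := hQ.2 P hP.1 (hP.sub hC hQ.1 h1 h2)

lemma Co.eq (hC : Fam C) {X Y : Finset V} (hX : Co C X) (hY : Co C Y) {x : V}
    (h1 : x ∉ X) (h2 : x ∉ Y) : X = Y := hY.2 X hX.1 (hX.sup hC hY.1 h1 h2)

theorem conn_split (hC : Fam C) (t h : E → V) (A : Finset E) (U0 : Finset V) (hU0 : C U0)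
    (ht : (ent h t A U0).card ≤ Fintype.card κ) (ψ1 ψ2 : E → κ)
    (h1 : Cov t h A (fun U => C U ∧ (Disjoint U U0 ∨ U0 ⊆ U)) ψ1)
    (h2 : Cov t h A (fun U => C U ∧ (U ⊆ U0 ∨ ∀ x, x ∈ U ∨ x ∈ U0)) ψ2) :
    ∃ ψ : E → κ, Cov t h A C ψ := by
  classical
  have inj : ∀ ψ : E → κ, (∀ c, ∃ e ∈ A, ψ e = c ∧ t e ∈ U0 ∧ h e ∉ U0) →
      Set.InjOn ψ (ent h t A U0 : Set E) := by
    intro ψ hψ
    apply injOn_of_surjOn_of_card_le (t := univ) _ (fun _ _ => mem_coe.2 (mem_univ _))
    · intro c _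
      obtain ⟨e, e1, e2, e3, e4⟩ := hψ c
      exact ⟨e, mem_coe.2 (mem_ent.2 ⟨e1, e3, e4⟩), e2⟩
    · simpa using ht
  have s1 := h1 U0 ⟨hU0, Or.inr (Subset.refl _)⟩
  have s2 := h2 U0 ⟨hU0, Or.inl (Subset.refl _)⟩
  have i1 := inj ψ1 s1
  have i2 := inj ψ2 s2
  choose e2 a1 a2 a3 a4 using s2
  let σ : κ → κ := fun c => ψ1 (e2 c)
  have hσ : ∀ e ∈ A, t e ∈ U0 → h e ∉ U0 → σ (ψ2 e) = ψ1 e := by
    intro e b1 b2 b3
    have : e2 (ψ2 e) = e := i2 (mem_coe.2 (mem_ent.2 ⟨a1 _, a3 _, a4 _⟩))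
      (mem_coe.2 (mem_ent.2 ⟨b1, b2, b3⟩)) (a2 _)
    simp only [σ, this]
  have hsur : ∀ c, ∃ d, σ d = c := by
    intro c
    obtain ⟨e, b1, b2, b3, b4⟩ := s1 c
    exact ⟨ψ2 e, by rw [hσ e b1 b3 b4, b2]⟩
  let Q : Prop := ¬ ∃ P, C P ∧ Disjoint P U0
  let ψ : E → κ := fun e => if h e ∈ U0 ∧ (t e ∈ U0 ∨ Q) then σ (ψ2 e) else ψ1 e
  have c1 : ∀ U, C U → (Disjoint U U0 ∨ U0 ⊆ U) → ∀ c, ∃ e ∈ A, ψ e = c ∧ t e ∈ U ∧ h e ∉ U := by
    intro U hU hU' c
    obtain ⟨e, b1, b2, b3, b4⟩ := h1 U ⟨hU, hU'⟩ c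
    refine ⟨e, b1, ?_, b3, b4⟩
    have : ¬ (h e ∈ U0 ∧ (t e ∈ U0 ∨ Q)) := by
      rintro ⟨d1, d2⟩
      rcases hU' with hd | hd
      · rcases d2 with d2 | d2
        · exact disjoint_left.1 hd b3 d2
        · exact d2 ⟨U, hU, hd⟩
      · exact b4 (hd d1)
    simp only [ψ, if_neg this, b2]
  have c2 : ∀ U, C U → (U ⊆ U0 ∨ ∀ x, x ∈ U ∨ x ∈ U0) → ∀ c,
      ∃ e ∈ A, ψ e = c ∧ t e ∈ U ∧ h e ∉ U := by
    intro U hU hU' c
    obtain ⟨d, rfl⟩ := hsur c
    obtain ⟨e, b1, b2, b3, b4⟩ := h2 U ⟨hU, hU'⟩ d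
    refine ⟨e, b1, ?_, b3, b4⟩
    by_cases hh : h e ∈ U0
    · have : h e ∈ U0 ∧ (t e ∈ U0 ∨ Q) := by
        refine ⟨hh, ?_⟩
        rcases hU' with hd | hd
        · exact Or.inl (hd b3)
        · right
          rintro ⟨P, p1, p2⟩
          obtain ⟨x, x1, x2⟩ := hC.ss P U0 U p1 hU0 hU p2
          rcases hd x with h' | h'
          · exact x2 h'
          · exact x1 h'
      simp only [ψ, if_pos this, b2]
    · have h3 : t e ∈ U0 := by
        rcases hU' with hd | hd
        · exact hd b3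
        · rcases hd (h e) with h' | h'
          · exact absurd h' b4
          · exact absurd h' hh
      have : ¬ (h e ∈ U0 ∧ (t e ∈ U0 ∨ Q)) := fun h' => hh h'.1
      simp only [ψ, if_neg this]
      rw [← hσ e b1 h3 hh, b2]
  refine ⟨ψ, fun U hU c => ?_⟩
  by_cases d1 : Disjoint U U0
  · exact c1 U hU (Or.inl d1) c
  by_cases d2 : ∀ x, x ∈ U ∨ x ∈ U0
  · exact c2 U hU (Or.inr d2) c
  push Not at d2
  obtain ⟨e, b1, b2, b3, b4⟩ := c1 (U ∪ U0) (hC.union U U0 hU hU0 d2) (Or.inr subset_union_right) c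
  obtain ⟨e', b1', b2', b3', b4'⟩ := c2 (U ∩ U0)
    (hC.inter U U0 hU hU0 (not_disjoint_iff_nonempty_inter.1 d1)) (Or.inl inter_subset_right) c
  simp only [mem_union, mem_inter, not_or, not_and] at b3 b4 b3' b4'
  by_cases g1 : t e ∈ U
  · exact ⟨e, b1, b2, g1, b4.1⟩
  by_cases g2 : h e' ∈ U
  · have g3 : t e ∈ U0 := b3.resolve_left g1
    have g4 : h e' ∉ U0 := b4' g2
    have k1 : ψ e = ψ1 e := by
      have : ¬ (h e ∈ U0 ∧ (t e ∈ U0 ∨ Q)) := fun h' => b4.2 h'.1
      simp only [ψ, if_neg this]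
    have k2 : ψ e' = ψ1 e' := by
      have : ¬ (h e' ∈ U0 ∧ (t e' ∈ U0 ∨ Q)) := fun h' => g4 h'.1
      simp only [ψ, if_neg this]
    have : e = e' := i1 (mem_coe.2 (mem_ent.2 ⟨b1, g3, b4.2⟩))
      (mem_coe.2 (mem_ent.2 ⟨b1', b3'.2, g4⟩)) (by rw [← k1, ← k2, b2, b2'])
    exact absurd (this ▸ b3'.1) g1
  · exact ⟨e', b1', b2', b3'.1, g2⟩

theorem conn_final (hC : Fam C) (t h : E → V) (A : Finset E)
    (hcut : Cut t h A C (Fintype.card κ))
    (hh : ∀ e ∈ A, ¬ Inner C (h e)) (ht : ∀ e ∈ A, ¬ Inner C (t e)) :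
    ∃ ψ : E → κ, Cov t h A C ψ := by
  classical
  let cls : V → Finset V := fun x =>
    if hx : ∃ P, Atom C P ∧ x ∈ P then hx.choose
    else if hx : ∃ X, Co C X ∧ x ∉ X then hx.chooseᶜ else ∅
  have hA : ∀ P x, Atom C P → (cls x = P ↔ x ∈ P) := by
    intro P x hP
    constructor
    · intro hx
      by_cases g1 : ∃ P, Atom C P ∧ x ∈ P
      · simp only [cls, dif_pos g1] at hx
        exact hx ▸ g1.choose_spec.2
      · by_cases g2 : ∃ X, Co C X ∧ x ∉ X
        · simp only [cls, dif_neg g1, dif_pos g2] at hx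
          obtain ⟨y, hy⟩ := hC.ne P hP.1
          have h1 := hP.sub_co hC g2.choose_spec.1 hy
          rw [← hx] at hy
          exact absurd h1 (mem_compl.1 hy)
        · simp only [cls, dif_neg g1, dif_neg g2] at hx
          exact absurd hx.symm (hC.ne P hP.1).ne_empty
    · intro hx
      have g1 : ∃ P, Atom C P ∧ x ∈ P := ⟨P, hP, hx⟩
      simp only [cls, dif_pos g1]
      exact g1.choose_spec.1.eq hC hP g1.choose_spec.2 hx
  have hX : ∀ X x, Co C X → (cls x = Xᶜ ↔ x ∉ X) := by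
    intro X x hX
    constructor
    · intro hx
      by_cases g1 : ∃ P, Atom C P ∧ x ∈ P
      · simp only [cls, dif_pos g1] at hx
        have h1 := g1.choose_spec.2
        rw [hx] at h1
        exact mem_compl.1 h1
      · by_cases g2 : ∃ X, Co C X ∧ x ∉ X
        · simp only [cls, dif_neg g1, dif_pos g2] at hx
          have := compl_injective hx
          rw [← this]
          exact g2.choose_spec.2
        · simp only [cls, dif_neg g1, dif_neg g2] at hx
          obtain ⟨y, hy⟩ := hC.pr X hX.1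
          have h1 := mem_compl.2 hy
          rw [← hx] at h1
          exact absurd h1 (notMem_empty _)
    · intro hx
      have g1 : ¬ ∃ P, Atom C P ∧ x ∈ P := fun ⟨P, p1, p2⟩ => hx (p1.sub_co hC hX p2)
      have g2 : ∃ X, Co C X ∧ x ∉ X := ⟨X, hX, hx⟩
      simp only [cls, dif_neg g1, dif_pos g2]
      rw [g2.choose_spec.1.eq hC hX g2.choose_spec.2 hx]
  let R : Finset (Finset V) := univ.filter (fun P => Atom C P)
  let S : Finset (Finset V) := univ.filter (fun Y => Co C Yᶜ)
  have hR : ∀ P, P ∈ R ↔ Atom C P := fun P => by simp [R]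
  have hS : ∀ Y, Y ∈ S ↔ Co C Yᶜ := fun P => by simp [S]
  obtain ⟨ψ, v1, v2⟩ := bibranch (κ := κ) (fun e => cls (t e)) (fun e => cls (h e)) A R S
    (by
      rw [disjoint_left]
      intro P p1 p2
      obtain ⟨y, hy⟩ := hC.ne P ((hR P).1 p1).1
      exact mem_compl.1 (((hR P).1 p1).sub_co hC ((hS P).1 p2) hy) hy)
    (by
      rintro U ⟨Y0, hY0⟩ hUS
      have y0 := (hS _).1 (hUS hY0)
      obtain ⟨W, hW, hmin⟩ := exists_min_image
        (univ.filter (fun W => C W ∧ ∀ x, x ∉ W → ∃ Y ∈ U, x ∈ Y)) card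
        ⟨Y0ᶜ, by
          simp only [mem_filter, mem_univ, true_and]
          exact ⟨y0.1, fun x hx => ⟨Y0, hY0, by simpa using hx⟩⟩⟩
      obtain ⟨w1, w2⟩ := (mem_filter.1 hW).2
      have w3 : ∀ Y ∈ U, W ⊆ Yᶜ := by
        intro Y hY
        have y1 := (hS _).1 (hUS hY)
        obtain ⟨P, p1, p2⟩ := exists_atom w1
        obtain ⟨z, hz⟩ := hC.ne P p1.1
        have hI := hC.inter W Yᶜ w1 y1.1 ⟨z, mem_inter.2 ⟨p2 hz, p1.sub_co hC y1 hz⟩⟩
        have := hmin (W ∩ Yᶜ) (by
          simp only [mem_filter, mem_univ, true_and]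
          refine ⟨hI, fun x hx => ?_⟩
          by_cases hxW : x ∈ W
          · exact ⟨Y, hY, by simpa [hxW] using hx⟩
          · exact w2 x hxW)
        rw [← eq_of_subset_of_card_le inter_subset_left this]
        exact inter_subset_right
      have w4 : ∀ x, cls x ∈ U ↔ x ∉ W := by
        intro x
        constructor
        · intro hx hxW
          have y1 := (hS _).1 (hUS hx)
          exact (hX _ x y1).1 (compl_compl _).symm (w3 _ hx hxW)
        · intro hx
          obtain ⟨Y, hY, hxY⟩ := w2 x hx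
          have y1 := (hS _).1 (hUS hY)
          have := (hX _ x y1).2 (by simpa using hxY)
          rw [this, compl_compl]
          exact hY
      refine (hcut W w1).trans (card_le_card ?_)
      intro e he
      rw [mem_ent] at he ⊢
      exact ⟨he.1, (w4 _).2 he.2.2, fun hh => (w4 _).1 hh he.2.1⟩)
    (by
      rintro U ⟨P0, hP0⟩ hUR
      have p0 := (hR _).1 (hUR hP0)
      obtain ⟨W, hW, hmax⟩ := exists_max_image
        (univ.filter (fun W => C W ∧ ∀ x ∈ W, ∃ P ∈ U, x ∈ P)) card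
        ⟨P0, by
          simp only [mem_filter, mem_univ, true_and]
          exact ⟨p0.1, fun x hx => ⟨P0, hP0, hx⟩⟩⟩
      obtain ⟨w1, w2⟩ := (mem_filter.1 hW).2
      have w3 : ∀ P ∈ U, P ⊆ W := by
        intro P hP
        have p1 := (hR _).1 (hUR hP)
        obtain ⟨X, x1, x2⟩ := exists_co w1
        obtain ⟨z, hz⟩ := hC.pr X x1.1
        have hI := hC.union W P w1 p1.1 ⟨z, fun h' => hz (x2 h'), fun h' => hz (p1.sub_co hC x1 h')⟩
        have := hmax (W ∪ P) (by
          simp only [mem_filter, mem_univ, true_and]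
          refine ⟨hI, fun x hx => ?_⟩
          rcases mem_union.1 hx with hxW | hxW
          · exact w2 x hxW
          · exact ⟨P, hP, hxW⟩)
        rw [eq_of_subset_of_card_le subset_union_left this]
        exact subset_union_right
      have w4 : ∀ x, cls x ∈ U ↔ x ∈ W := by
        intro x
        constructor
        · intro hx
          exact w3 _ hx ((hA _ x ((hR _).1 (hUR hx))).1 rfl)
        · intro hx
          obtain ⟨P, hP, hxP⟩ := w2 x hx
          rw [(hA _ x ((hR _).1 (hUR hP))).2 hxP]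
          exact hP
      refine (hcut W w1).trans (card_le_card ?_)
      intro e he
      rw [mem_ent] at he ⊢
      exact ⟨he.1, (w4 _).2 he.2.1, fun hh => he.2.2 ((w4 _).1 hh)⟩)
  have hni : ∀ x, ¬ Inner C x → (∃ P, Atom C P ∧ x ∈ P) ∨ ∃ X, Co C X ∧ x ∉ X := by
    intro x hx
    by_contra hn
    push Not at hn
    exact hx hn
  refine ⟨ψ, fun U hU c => ?_⟩
  by_cases hco : ∀ X, Co C X → U ⊆ X
  · obtain ⟨P0, p1, p2⟩ := exists_atom hU
    obtain ⟨e, e1, e2, e3, e4⟩ := v2 c (R.filter (fun P => P ⊆ U))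
      ⟨P0, mem_filter.2 ⟨(hR _).2 p1, p2⟩⟩ (filter_subset _ _)
    obtain ⟨e5, e6⟩ := mem_filter.1 e3
    refine ⟨e, e1, e2, e6 ((hA _ _ ((hR _).1 e5)).1 rfl), fun hU' => ?_⟩
    rcases hni _ (hh e e1) with ⟨P, q1, q2⟩ | ⟨X, q1, q2⟩
    · apply e4
      simp only
      rw [(hA _ _ q1).2 q2]
      exact mem_filter.2 ⟨(hR _).2 q1, q1.sub hC hU q2 hU'⟩
    · exact q2 (hco X q1 hU')
  · push Not at hco
    obtain ⟨X0, x1, x2⟩ := hco
    obtain ⟨X1, x3, x4⟩ := exists_co hU
    obtain ⟨e, e1, e2, e3, e4⟩ := v1 c (S.filter (fun Y => U ⊆ Yᶜ))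
      ⟨X1ᶜ, mem_filter.2 ⟨(hS _).2 (by rwa [compl_compl]), by rwa [compl_compl]⟩⟩
      (filter_subset _ _)
    obtain ⟨e5, e6⟩ := mem_filter.1 e3
    refine ⟨e, e1, e2, ?_, fun hU' =>
      (hX _ _ ((hS _).1 e5)).1 (compl_compl _).symm (e6 hU')⟩
    by_contra hU'
    rcases hni _ (ht e e1) with ⟨P, q1, q2⟩ | ⟨X, q1, q2⟩
    · by_cases hd : Disjoint P U
      · obtain ⟨z, z1, z2⟩ := hC.ss P U X0 q1.1 hU x1.1 hd
        exact x2 (x1.sup hC hU z2 z1)
      · obtain ⟨z, z1, z2⟩ := not_disjoint_iff.1 hd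
        exact hU' (q1.sub hC hU z1 z2 q2)
    · apply e4
      simp only
      rw [(hX _ _ q1).2 q2]
      exact mem_filter.2 ⟨(hS _).2 (by rwa [compl_compl]), by
        rw [compl_compl]; exact q1.sup hC hU q2 hU'⟩

open Classical in
/-- the measure for the inner induction -/
noncomputable def mu (C : Finset V → Prop) (t h : E → V) (A : Finset E) : ℕ :=
  ∑ e ∈ A, (1 + (if Inner C (h e) then 1 else 0) + (if Inner C (t e) then 1 else 0))

lemma mu_erase (t h : E → V) (A : Finset E) (e : E) (he : e ∈ A) :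
    mu C t h (A.erase e) < mu C t h A := by
  unfold mu
  rw [← add_sum_erase A _ he]
  omega

lemma mu_head (t h : E → V) (A : Finset E) (f : E) (hf : f ∈ A) (y : V) (h1 : Inner C (h f))
    (h2 : ¬ Inner C y) : mu C t (Function.update h f y) A < mu C t h A := by
  unfold mu
  apply sum_lt_sum
  · intro e _
    by_cases he : e = f
    · subst he
      simp [h1, h2]
    · rw [Function.update_of_ne he]
  · exact ⟨f, hf, by simp [h1, h2]⟩

lemma mu_tail (t h : E → V) (A : Finset E) (f : E) (hf : f ∈ A) (y : V) (h1 : Inner C (t f))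
    (h2 : ¬ Inner C y) : mu C (Function.update t f y) h A < mu C t h A := by
  unfold mu
  apply sum_lt_sum
  · intro e _
    by_cases he : e = f
    · subst he
      simp [h1, h2]
    · rw [Function.update_of_ne he]
  · exact ⟨f, hf, by simp [h1, h2]⟩

lemma cut_step {t h t' h' : E → V} {A A' : Finset E} {k : ℕ} (hcut : Cut t h A C k)
    (h1 : ∀ U, C U → ∃ e, ent h t A U ⊆ insert e (ent h' t' A' U))
    (h2 : ∀ U, C U → (ent h t A U).card ≤ k → (ent h t A U).card ≤ (ent h' t' A' U).card) :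
    Cut t' h' A' C k := by
  intro U hU
  have h3 := hcut U hU
  by_cases h4 : (ent h t A U).card ≤ k
  · exact h3.trans (h2 U hU h4)
  · obtain ⟨e, he⟩ := h1 U hU
    have h5 := card_le_card he
    have h6 := card_insert_le e (ent h' t' A' U)
    omega

theorem conn_inner (hC : Fam C)
    (hsp : ∀ (t h : E → V) (A : Finset E) (U0 : Finset V), Cut t h A C (Fintype.card κ) → C U0 →
      (ent h t A U0).card ≤ Fintype.card κ → ¬ Atom C U0 → ¬ Co C U0 →
      ∃ ψ : E → κ, Cov t h A C ψ) (n : ℕ) :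
    ∀ (t h : E → V) (A : Finset E), mu C t h A = n → Cut t h A C (Fintype.card κ) →
      ∃ ψ : E → κ, Cov t h A C ψ := by
  classical
  induction n using Nat.strong_induction_on with
  | _ n ih =>
  intro t h A hn hcut
  by_cases htight : ∃ U0, C U0 ∧ (ent h t A U0).card ≤ Fintype.card κ ∧ ¬ Atom C U0 ∧ ¬ Co C U0
  · obtain ⟨U0, u1, u2, u3, u4⟩ := htight
    exact hsp t h A U0 hcut u1 u2 u3 u4
  have tight : ∀ U, C U → (ent h t A U).card ≤ Fintype.card κ → Atom C U ∨ Co C U := by
    intro U u1 u2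
    by_contra hn
    push Not at hn
    exact htight ⟨U, u1, u2, hn⟩
  by_cases hdel : ∃ e ∈ A, ∀ U, C U → (ent h t A U).card ≤ Fintype.card κ → e ∉ ent h t A U
  · obtain ⟨e, he, hd⟩ := hdel
    obtain ⟨ψ, hψ⟩ := ih _ (hn ▸ mu_erase t h A e he) t h (A.erase e) rfl
      (cut_step hcut (fun U _ => ⟨e, fun x hx => by
          rw [mem_insert, mem_ent, mem_erase]
          rw [mem_ent] at hx
          tauto⟩)
        (fun U hU hle => card_le_card (fun x hx => by
          have : x ≠ e := fun h' => hd U hU hle (h' ▸ hx)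
          rw [mem_ent, mem_erase]
          rw [mem_ent] at hx
          tauto)))
    refine ⟨ψ, fun U hU c => ?_⟩
    obtain ⟨x, x1, x2⟩ := hψ U hU c
    exact ⟨x, mem_of_mem_erase x1, x2⟩
  push Not at hdel
  have crit : ∀ e ∈ A, (∃ P, Atom C P ∧ (ent h t A P).card ≤ Fintype.card κ ∧ t e ∈ P ∧ h e ∉ P) ∨
      ∃ X, Co C X ∧ (ent h t A X).card ≤ Fintype.card κ ∧ t e ∈ X ∧ h e ∉ X := by
    intro e he
    obtain ⟨U, u1, u2, u3⟩ := hdel e he
    rcases tight U u1 u2 with h' | h'
    · exact Or.inl ⟨U, h', u2, (mem_ent.1 u3).2⟩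
    · exact Or.inr ⟨U, h', u2, (mem_ent.1 u3).2⟩
  by_cases hhead : ∃ f ∈ A, Inner C (h f)
  · obtain ⟨f, hf, hy⟩ := hhead
    obtain ⟨P, p1, p2, p3, p4⟩ : ∃ P, Atom C P ∧ (ent h t A P).card ≤ Fintype.card κ ∧
        t f ∈ P ∧ h f ∉ P := by
      rcases crit f hf with h' | ⟨X, x1, -, -, x4⟩
      · exact h'
      · exact absurd (hy.2 X x1) x4
    obtain ⟨X0, x1, -⟩ := exists_co p1.1
    obtain ⟨Y, hY, hmin⟩ := exists_min_image (univ.filter (fun Y => C Y ∧ h f ∈ Y)) card
      ⟨X0, by simpa using ⟨x1.1, hy.2 X0 x1⟩⟩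
    obtain ⟨y1, y2⟩ := (mem_filter.1 hY).2
    have y3 : ∀ U, C U → h f ∈ U → Y ⊆ U := by
      intro U hU hfU
      have := hmin (Y ∩ U) (by
        simpa using ⟨hC.inter Y U y1 hU ⟨_, mem_inter.2 ⟨y2, hfU⟩⟩, y2, hfU⟩)
      rw [← eq_of_subset_of_card_le inter_subset_left this]
      exact inter_subset_right
    by_cases hm : ∃ l ∈ A, t l ∈ Y ∧ ∀ Q, Atom C Q → t l ∉ Q
    · obtain ⟨l, hl, l1, l2⟩ := hm
      obtain ⟨X, z1, z2, z3, z4⟩ : ∃ X, Co C X ∧ (ent h t A X).card ≤ Fintype.card κ ∧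
          t l ∈ X ∧ h l ∉ X := by
        rcases crit l hl with ⟨Q, q1, -, q3, -⟩ | h'
        · exact absurd q3 (l2 Q q1)
        · exact h'
      have hfl : f ≠ l := fun h' => l2 P p1 (h' ▸ p3)
      have hni : ¬ Inner C (h l) := fun h' => z4 (h'.2 X z1)
      have hmem : ∀ U x, x ≠ f → x ≠ l → x ∈ ent h t A U →
          x ∈ ent (Function.update h f (h l)) t (A.erase l) U := by
        intro U x g1 g2 hx
        rw [mem_ent] at hx ⊢
        rw [Function.update_of_ne g1, mem_erase]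
        tauto
      have hmf : ∀ U, t f ∈ U → h l ∉ U →
          f ∈ ent (Function.update h f (h l)) t (A.erase l) U := by
        intro U g1 g2
        rw [mem_ent, Function.update_self, mem_erase]
        exact ⟨⟨hfl, hf⟩, g1, g2⟩
      obtain ⟨ψ, hψ⟩ := ih _ (hn ▸ (mu_erase t _ A l hl).trans (mu_head t h A f hf (h l) hy hni))
        t (Function.update h f (h l)) (A.erase l) rfl
        (cut_step hcut
          (fun U _ => by
            by_cases g : l ∈ ent h t A U
            · refine ⟨l, fun x hx => ?_⟩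
              rw [mem_insert]
              by_cases g1 : x = l
              · exact Or.inl g1
              by_cases g2 : x = f
              · subst g2
                exact Or.inr (hmf U (mem_ent.1 hx).2.1 (mem_ent.1 g).2.2)
              · exact Or.inr (hmem U x g2 g1 hx)
            · refine ⟨f, fun x hx => ?_⟩
              rw [mem_insert]
              by_cases g2 : x = f
              · exact Or.inl g2
              · exact Or.inr (hmem U x g2 (fun h' => g (h' ▸ hx)) hx))
          (fun U hU hle => by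
            rcases tight U hU hle with hA | hA
            · apply card_le_card
              intro x hx
              have g1 : x ≠ l := fun h' => l2 U hA (h' ▸ (mem_ent.1 hx).2.1)
              by_cases g2 : x = f
              · subst g2
                exact hmf U (mem_ent.1 hx).2.1 (fun h' => z4 (hA.sub_co hC z1 h'))
              · exact hmem U x g2 g1 hx
            · have g0 : f ∉ ent h t A U := fun h' => (mem_ent.1 h').2.2 (hy.2 U hA)
              by_cases g : l ∈ ent h t A U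
              · have g3 : insert f ((ent h t A U).erase l) ⊆
                    ent (Function.update h f (h l)) t (A.erase l) U := by
                  intro x hx
                  rcases mem_insert.1 hx with g2 | g2
                  · subst g2
                    exact hmf U (p1.sub_co hC hA p3) (mem_ent.1 g).2.2
                  · obtain ⟨g4, g5⟩ := mem_erase.1 g2
                    exact hmem U x (fun h' => g0 (h' ▸ g5)) g4 g5
                have g4 := card_le_card g3
                rw [card_insert_of_notMem (fun h' => g0 (mem_of_mem_erase h')),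
                  card_erase_add_one g] at g4
                exact g4
              · apply card_le_card
                intro x hx
                exact hmem U x (fun h' => g0 (h' ▸ hx)) (fun h' => g (h' ▸ hx)) hx))
      refine ⟨Function.update ψ l (ψ f), fun U hU c => ?_⟩
      obtain ⟨x, g1, g2, g3, g4⟩ := hψ U hU c
      obtain ⟨g5, g6⟩ := mem_erase.1 g1
      by_cases g7 : x = f
      · subst g7
        rw [Function.update_self] at g4
        by_cases g8 : h x ∈ U
        · exact ⟨l, hl, by rw [Function.update_self, g2], y3 U hU g8 l1, g4⟩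
        · exact ⟨x, g6, by rw [Function.update_of_ne g5, g2], g3, g8⟩
      · rw [Function.update_of_ne g7] at g4
        exact ⟨x, g6, by rw [Function.update_of_ne g5, g2], g3, g4⟩
    by_cases hs : ∃ Q, Atom C Q ∧ Q ⊆ Y ∧ Q ≠ P
    · obtain ⟨Q, q1, q2, q3⟩ := hs
      obtain ⟨y, hyQ⟩ := hC.ne Q q1.1
      have hni : ¬ Inner C y := fun h' => h'.1 Q q1 hyQ
      have hmem : ∀ U x, x ≠ f → x ∈ ent h t A U → x ∈ ent (Function.update h f y) t A U := by
        intro U x g1 hx
        rw [mem_ent] at hx ⊢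
        rwa [Function.update_of_ne g1]
      obtain ⟨ψ, hψ⟩ := ih _ (hn ▸ mu_head t h A f hf y hy hni)
        t (Function.update h f y) A rfl
        (cut_step hcut
          (fun U _ => ⟨f, fun x hx => by
            rw [mem_insert]
            by_cases g2 : x = f
            · exact Or.inl g2
            · exact Or.inr (hmem U x g2 hx)⟩)
          (fun U hU hle => card_le_card (fun x hx => by
            by_cases g2 : x = f
            · subst g2
              obtain ⟨g3, g4, g5⟩ := mem_ent.1 hx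
              rcases tight U hU hle with hA | hA
              · rw [mem_ent, Function.update_self]
                refine ⟨g3, g4, fun h' => q3 ?_⟩
                rw [q1.eq hC hA hyQ h', hA.eq hC p1 g4 p3]
              · exact absurd (hy.2 U hA) g5
            · exact hmem U x g2 hx)))
      refine ⟨ψ, fun U hU c => ?_⟩
      obtain ⟨x, g1, g2, g3, g4⟩ := hψ U hU c
      refine ⟨x, g1, g2, g3, ?_⟩
      by_cases g7 : x = f
      · subst g7
        rw [Function.update_self] at g4
        exact fun h' => g4 (y3 U hU h' (q2 hyQ))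
      · rwa [Function.update_of_ne g7] at g4
    exfalso
    push Not at hm hs
    obtain ⟨Q0, r1, r2⟩ := exists_atom y1
    have r3 : P ⊆ Y := hs Q0 r1 r2 ▸ r2
    have r4 : ent h t A Y ⊆ (ent h t A P).erase f := by
      intro x hx
      obtain ⟨g1, g2, g3⟩ := mem_ent.1 hx
      obtain ⟨Q, q1, q2⟩ := hm x g1 g2
      have := hs Q q1 (q1.sub hC y1 q2 g2)
      exact mem_erase.2 ⟨fun h' => g3 (h' ▸ y2),
        mem_ent.2 ⟨g1, this ▸ q2, fun h' => g3 (r3 h')⟩⟩
    have r5 := card_le_card r4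
    have r6 := card_erase_add_one (mem_ent.2 ⟨hf, p3, p4⟩ : f ∈ ent h t A P)
    have r7 := hcut Y y1
    omega
  push Not at hhead
  by_cases htail : ∃ l ∈ A, Inner C (t l)
  · obtain ⟨l, hl, hy⟩ := htail
    obtain ⟨X, p1, p2, p3, p4⟩ : ∃ X, Co C X ∧ (ent h t A X).card ≤ Fintype.card κ ∧
        t l ∈ X ∧ h l ∉ X := by
      rcases crit l hl with ⟨P, x1, -, x3, -⟩ | h'
      · exact absurd x3 (hy.1 P x1)
      · exact h'
    obtain ⟨P0, x1, -⟩ := exists_atom p1.1
    obtain ⟨Y, hY, hmax⟩ := exists_max_image (univ.filter (fun Y => C Y ∧ t l ∉ Y)) card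
      ⟨P0, by simpa using ⟨x1.1, hy.1 P0 x1⟩⟩
    obtain ⟨y1, y2⟩ := (mem_filter.1 hY).2
    have y3 : ∀ U, C U → t l ∉ U → U ⊆ Y := by
      intro U hU hfU
      have := hmax (Y ∪ U) (by
        simpa using ⟨hC.union Y U y1 hU ⟨_, y2, hfU⟩, y2, hfU⟩)
      rw [eq_of_subset_of_card_le subset_union_left this]
      exact subset_union_right
    by_cases hs : ∃ Q, Co C Q ∧ Y ⊆ Q ∧ Q ≠ X
    · obtain ⟨Q, q1, q2, q3⟩ := hs
      obtain ⟨y, hyQ⟩ := hC.pr Q q1.1
      have hni : ¬ Inner C y := fun h' => hyQ (h'.2 Q q1)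
      have hmem : ∀ U x, x ≠ l → x ∈ ent h t A U → x ∈ ent h (Function.update t l y) A U := by
        intro U x g1 hx
        rw [mem_ent] at hx ⊢
        rwa [Function.update_of_ne g1]
      obtain ⟨ψ, hψ⟩ := ih _ (hn ▸ mu_tail t h A l hl y hy hni)
        (Function.update t l y) h A rfl
        (cut_step hcut
          (fun U _ => ⟨l, fun x hx => by
            rw [mem_insert]
            by_cases g2 : x = l
            · exact Or.inl g2
            · exact Or.inr (hmem U x g2 hx)⟩)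
          (fun U hU hle => card_le_card (fun x hx => by
            by_cases g2 : x = l
            · subst g2
              obtain ⟨g3, g4, g5⟩ := mem_ent.1 hx
              rcases tight U hU hle with hA | hA
              · exact absurd g4 (hy.1 U hA)
              · rw [mem_ent, Function.update_self]
                refine ⟨g3, ?_, g5⟩
                by_contra h'
                apply q3
                rw [q1.eq hC hA hyQ h', hA.eq hC p1 g5 p4]
            · exact hmem U x g2 hx)))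
      refine ⟨ψ, fun U hU c => ?_⟩
      obtain ⟨x, g1, g2, g3, g4⟩ := hψ U hU c
      refine ⟨x, g1, g2, ?_, g4⟩
      by_cases g7 : x = l
      · subst g7
        rw [Function.update_self] at g3
        by_contra h'
        exact hyQ (q2 (y3 U hU h' g3))
      · rwa [Function.update_of_ne g7] at g3
    exfalso
    push Not at hs
    obtain ⟨Q0, r1, r2⟩ := exists_co y1
    have r3 : Y ⊆ X := hs Q0 r1 r2 ▸ r2
    have r4 : ent h t A Y ⊆ (ent h t A X).erase l := by
      intro x hx
      obtain ⟨g1, g2, g3⟩ := mem_ent.1 hx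
      have g4 : ∃ Q, Co C Q ∧ h x ∉ Q := by
        by_contra hn'
        push Not at hn'
        exact hhead x g1 ⟨fun P q1 q2 => g3 (y3 P q1.1 (hy.1 P q1) q2), hn'⟩
      obtain ⟨Q, q1, q2⟩ := g4
      have := hs Q q1 (q1.sup hC y1 q2 g3)
      exact mem_erase.2 ⟨fun h' => y2 (h' ▸ g2), mem_ent.2 ⟨g1, r3 g2, this ▸ q2⟩⟩
    have r5 := card_le_card r4
    have r6 := card_erase_add_one (mem_ent.2 ⟨hl, p3, p4⟩ : l ∈ ent h t A X)
    have r7 := hcut Y y1
    omega
  push Not at htail
  exact conn_final hC t h A hcut hhead htail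

open Classical in
theorem conn_aux (n : ℕ) : ∀ C : Finset V → Prop, (univ.filter C).card = n → Fam C →
    ∀ (t h : E → V) (A : Finset E), Cut t h A C (Fintype.card κ) →
      ∃ ψ : E → κ, Cov t h A C ψ := by
  induction n using Nat.strong_induction_on with
  | _ n ih =>
  intro C hn hC t h A hcut
  refine conn_inner hC ?_ _ t h A rfl hcut
  intro t h A U0 hcut u1 u2 u3 u4
  have lt : ∀ (D : Finset V → Prop) (W : Finset V), C W → ¬ D W →
      (univ.filter (fun U => C U ∧ D U)).card < n := by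
    intro D W w1 w2
    rw [← hn]
    apply card_lt_card
    refine ⟨fun U hU => ?_, fun hh => ?_⟩
    · simp only [mem_filter, mem_univ, true_and] at hU ⊢
      exact hU.1
    · have := hh (mem_filter.2 ⟨mem_univ W, w1⟩)
      exact w2 (mem_filter.1 this).2.2
  have g1 : ∃ W, C W ∧ W ⊆ U0 ∧ W ≠ U0 := by
    by_contra hh
    push Not at hh
    exact u3 ⟨u1, hh⟩
  have g2 : ∃ W, C W ∧ U0 ⊆ W ∧ W ≠ U0 := by
    by_contra hh
    push Not at hh
    exact u4 ⟨u1, hh⟩
  obtain ⟨W1, a1, a2, a3⟩ := g1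
  obtain ⟨W2, b1, b2, b3⟩ := g2
  obtain ⟨ψ1, h1⟩ := ih _ (lt (fun U => Disjoint U U0 ∨ U0 ⊆ U) W1 a1 (by
      rintro (h' | h')
      · obtain ⟨x, hx⟩ := hC.ne W1 a1
        exact disjoint_left.1 h' hx (a2 hx)
      · exact a3 (Subset.antisymm a2 h')))
    (fun U => C U ∧ (Disjoint U U0 ∨ U0 ⊆ U)) (by congr)
    ⟨fun U hU => hC.ne U hU.1, fun U hU => hC.pr U hU.1,
      fun U X hU hX hI => ⟨hC.inter U X hU.1 hX.1 hI, by
        rcases hU.2 with h' | h'
        · exact Or.inl (h'.mono_left inter_subset_left)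
        rcases hX.2 with h'' | h''
        · exact Or.inl (h''.mono_left inter_subset_right)
        · exact Or.inr (subset_inter h' h'')⟩,
      fun U X hU hX hI => ⟨hC.union U X hU.1 hX.1 hI, by
        rcases hU.2 with h' | h'
        · rcases hX.2 with h'' | h''
          · exact Or.inl (disjoint_union_left.2 ⟨h', h''⟩)
          · exact Or.inr (h''.trans subset_union_right)
        · exact Or.inr (h'.trans subset_union_left)⟩,
      fun P U X hP hU hX => hC.ss P U X hP.1 hU.1 hX.1⟩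
    t h A (fun U hU => hcut U hU.1)
  obtain ⟨ψ2, h2⟩ := ih _ (lt (fun U => U ⊆ U0 ∨ ∀ x, x ∈ U ∨ x ∈ U0) W2 b1 (by
      rintro (h' | h')
      · exact b3 (Subset.antisymm h' b2)
      · obtain ⟨x, hx⟩ := hC.pr W2 b1
        rcases h' x with h'' | h''
        · exact hx h''
        · exact hx (b2 h'')))
    (fun U => C U ∧ (U ⊆ U0 ∨ ∀ x, x ∈ U ∨ x ∈ U0)) (by congr)
    ⟨fun U hU => hC.ne U hU.1, fun U hU => hC.pr U hU.1,
      fun U X hU hX hI => ⟨hC.inter U X hU.1 hX.1 hI, by
        rcases hU.2 with h' | h'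
        · exact Or.inl (inter_subset_left.trans h')
        rcases hX.2 with h'' | h''
        · exact Or.inl (inter_subset_right.trans h'')
        · refine Or.inr (fun x => ?_)
          rw [mem_inter]
          have := h' x
          have := h'' x
          tauto⟩,
      fun U X hU hX hI => ⟨hC.union U X hU.1 hX.1 hI, by
        rcases hU.2 with h' | h'
        · rcases hX.2 with h'' | h''
          · exact Or.inl (union_subset h' h'')
          · refine Or.inr (fun x => ?_)
            rw [mem_union]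
            have := h'' x
            tauto
        · refine Or.inr (fun x => ?_)
          rw [mem_union]
          have := h' x
          tauto⟩,
      fun P U X hP hU hX => hC.ss P U X hP.1 hU.1 hX.1⟩
    t h A (fun U hU => hcut U hU.1)
  exact conn_split hC t h A U0 u1 u2 ψ1 ψ2 h1 h2

/-- disjoint connectors for a source-sink connected family -/
theorem conn (hC : Fam C) (t h : E → V) (A : Finset E) (hcut : Cut t h A C (Fintype.card κ)) :
    ∃ ψ : E → κ, Cov t h A C ψ := by
  classical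
  exact conn_aux _ C rfl hC t h A hcut

end Pool.Agent.Lib.MP_44ed1d_co
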