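import Mathlib
import Pool.Agent.Lib.MP_44ed1d_co.Conn
import Pool.Agent.Lib.MP_44ed1d_co.Half

set_option autoImplicit false
set_option linter.unusedSectionVars false

namespace Pool.Agent.Lib.MP_44ed1d_co

open Finset

variable {V : Type} [DecidableEq V] [Fintype V]
variable {κ : Type} [Fintype κ] [DecidableEq κ] [Nonempty κ]

open Classical in
theorem ladder_abs (Adj : V → V → Prop) (A : Finset (V × V))
    (hA : ∀ a b, (a, b) ∈ A ↔ Adj a b) (hirr : ∀ v, ¬ Adj v v)
    (hsc : ∀ u v, u ≠ v → Adj u v ∨ Adj v u) (hcut : KCut A (Fintype.card κ))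
    (Z : Finset V) (lev : V → ℤ) (w : Fin 3 → κ → V) (col : V → κ) (T : ℕ) (a b : V → ℤ)
    (hcol : ∀ i c, col (w i c) = c) (hwZ : ∀ i c, w i c ∉ Z)
    (hwl : ∀ i c, lev (w i c) = 4 + 8 * ((i : ℕ) : ℤ))
    (hZr : ∀ z ∈ Z, 0 ≤ lev z ∧ lev z ≤ 25)
    (hZ : ∀ l, 0 ≤ l → l ≤ 25 →
      2 * T + 3 * Fintype.card κ ≤ (Z.filter (fun z => lev z = l)).card)
    (N1 : ∀ x ∈ Z, (Z.filter (fun z => lev x < lev z ∧ ¬ Adj x z)).card ≤ T)
    (N2 : ∀ x ∈ Z, (Z.filter (fun z => lev z < lev x ∧ ¬ Adj z x)).card ≤ T)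
    (N3 : ∀ i c, (Z.filter (fun z => lev (w i c) < lev z ∧ ¬ Adj (w i c) z)).card ≤ T)
    (N4 : ∀ i c, (Z.filter (fun z => lev z < lev (w i c) ∧ ¬ Adj z (w i c))).card ≤ T)
    (aZ : ∀ z ∈ Z, a z = lev z + 2) (bZ : ∀ z ∈ Z, b z = lev z - 3)
    (aw : ∀ i c, a (w i c) = lev (w i c) + 1) (bw : ∀ i c, b (w i c) = lev (w i c) - 1)
    (ab : ∀ v, a v ≤ b v + 5)
    (ha : ∀ v, a v ≤ 25 →
      3 * T + 6 * Fintype.card κ ≤ (Z.filter (fun z => lev z = a v ∧ Adj v z)).card)
    (hb : ∀ v, 0 ≤ b v →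
      3 * T + 6 * Fintype.card κ ≤ (Z.filter (fun z => lev z = b v ∧ Adj z v)).card) :
    Dec Adj κ := by
  have hk : 0 < Fintype.card κ := Fintype.card_pos
  have hi3 : ∀ i : Fin 3, ((i : ℕ) : ℤ) ≤ 2 := fun i => by have := i.2; omega
  obtain ⟨g, hg⟩ := half_select Adj hsc Z lev w T N4 a (fun v => a v ≤ 25) ha
  obtain ⟨g', hg'⟩ := half_select (fun x y => Adj y x) (fun u v h => (hsc u v h).symm) Z
    (fun x => - lev x) w T (fun i c => by simpa only [neg_lt_neg_iff] using N3 i c)
    (fun v => - b v) (fun v => 0 ≤ b v) (fun v hv => by simpa only [neg_inj] using hb v hv)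
  simp only [neg_inj, neg_lt_neg_iff] at hg'
  let F1 : V → V → Prop := fun x y => a x ≤ 25 ∧ ∃ c, g x c = y
  let F4 : V → V → Prop := fun x y => 0 ≤ b y ∧ ∃ c, g' y c = x
  let F2 : V → V → Prop := fun x y => x ∈ Z ∧ (∃ i c, w i c = y) ∧ lev x + 2 ≤ lev y
  let F3 : V → V → Prop := fun x y => y ∈ Z ∧ (∃ i c, w i c = x) ∧ lev x + 2 ≤ lev y
  let F : V → V → Prop := fun x y => F1 x y ∨ F4 x y ∨ F2 x y ∨ F3 x y
  have f1 : ∀ x y, F1 x y → y ∈ Z ∧ lev y = a x := by
    rintro x y ⟨h1, c, rfl⟩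
    exact ⟨((hg x h1).2 c).1, ((hg x h1).2 c).2.1⟩
  have f4 : ∀ x y, F4 x y → x ∈ Z ∧ lev x = b y := by
    rintro x y ⟨h1, c, rfl⟩
    exact ⟨((hg' y h1).2 c).1, ((hg' y h1).2 c).2.1⟩
  have fZ : ∀ x ∈ Z, ∀ y ∈ Z, F x y → lev x + 2 ≤ lev y := by
    intro x hx y hy h
    rcases h with h | h | h | h
    · have := (f1 x y h).2
      have := aZ x hx
      omega
    · have := (f4 x y h).2
      have := bZ y hy
      omega
    · exact h.2.2
    · exact h.2.2
  have rob : ∀ U : Finset V, Few (fun x y => Adj x y ∧ ¬ F x y) U (Fintype.card κ) →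
      ∀ x y, F x y → x ∈ U → y ∈ U := by
    intro U hU x y h hx
    rcases h with h | h | h | h
    · obtain ⟨h1, c, rfl⟩ := h
      obtain ⟨b1, b2, b3, b4, -⟩ := (hg x h1).2 c
      refine half_rob1 Adj F hirr Z lev hU x (g x c) (a x) (g x) ?_ ?_ b4 hx
      · intro z z1 z2 h
        rcases h with h | h | h | h
        · exact h.2
        · obtain ⟨c1, c2⟩ := f4 x z h
          have := aZ x c1
          have := bZ z z1
          omega
        · obtain ⟨-, ⟨i, c, rfl⟩, -⟩ := h
          exact absurd z1 (hwZ i c)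
        · obtain ⟨-, ⟨i, c, rfl⟩, h⟩ := h
          have := aw i c
          omega
      · intro z z1 z2 h
        have := fZ z z1 _ b1 h
        omega
    · obtain ⟨h1, c, rfl⟩ := h
      obtain ⟨b1, b2, b3, b4, -⟩ := (hg' y h1).2 c
      by_contra hy
      refine mem_compl.1 (half_rob1 (fun x y => Adj y x) (fun x y => F y x) hirr Z lev hU.dual
        y (g' y c) (b y) (g' y) ?_ ?_ b4 (mem_compl.2 hy)) hx
      · intro z z1 z2 h
        rcases h with h | h | h | h
        · obtain ⟨c1, c2⟩ := f1 z y h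
          have := aZ z z1
          have := bZ y c1
          omega
        · exact h.2
        · obtain ⟨-, ⟨i, c, rfl⟩, h⟩ := h
          have := bw i c
          omega
        · obtain ⟨-, ⟨i, c, rfl⟩, -⟩ := h
          exact absurd z1 (hwZ i c)
      · intro z z1 z2 h
        have := fZ _ b1 z z1 h
        omega
    · obtain ⟨h1, ⟨i, c, rfl⟩, h2⟩ := h
      refine half_rob2 Adj F Z lev T hU x (w i c) h1 (fun l l1 l2 => hZ l ?_ ?_) N1 (N4 i c)
        (fun u hu z hz h h' => by have := fZ u hu z hz h'; omega) ?_ h2 hx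
      · have := hZr x h1
        omega
      · have := hwl i c
        have := hi3 i
        omega
      · refine le_trans (card_le_card (t := univ.image (g' (w i c))) (fun z hz => ?_)) card_image_le
        obtain ⟨z1, z2, h⟩ := (@mem_filter _ _ (_) _ _).1 hz
        rcases h with h | h | h | h
        · exact absurd (f1 _ _ h).1 (hwZ i c)
        · obtain ⟨-, d, hd⟩ := h
          exact mem_image.2 ⟨d, mem_univ _, hd⟩
        · have := h.2.2
          omega
        · exact absurd h.1 (hwZ i c)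
    · obtain ⟨h1, ⟨i, c, rfl⟩, h2⟩ := h
      by_contra hy
      refine mem_compl.1 (half_rob2 (fun x y => Adj y x) (fun x y => F y x) Z (fun x => - lev x) T
        hU.dual y (w i c) h1 (fun l l1 l2 => ?_)
        (fun u hu => by simpa only [neg_lt_neg_iff] using N2 u hu)
        (by simpa only [neg_lt_neg_iff] using N3 i c)
        (fun u hu z hz h h' => by have := fZ z hz u hu h'; omega) ?_ (by omega)
        (mem_compl.2 hy)) hx
      · have e1 := hZr y h1
        have e2 := hwl i c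
        refine (hZ (-l) (by omega) (by omega)).trans (card_le_card (fun z hz => ?_))
        obtain ⟨z1, z2⟩ := mem_filter.1 hz
        exact mem_filter.2 ⟨z1, by omega⟩
      · refine le_trans (card_le_card (t := univ.image (g (w i c))) (fun z hz => ?_)) card_image_le
        obtain ⟨z1, z2, h⟩ := (@mem_filter _ _ (_) _ _).1 hz
        rcases h with h | h | h | h
        · obtain ⟨-, d, hd⟩ := h
          exact mem_image.2 ⟨d, mem_univ _, hd⟩
        · exact absurd (f4 _ _ h).1 (hwZ i c)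
        · exact absurd h.1 (hwZ i c)
        · have := h.2.2
          omega
  let C : Finset V → Prop := fun U => U.Nonempty ∧ (∃ x, x ∉ U) ∧
    ∀ x y (i : Fin 3), a x + 2 ≤ 4 + 8 * ((i : ℕ) : ℤ) → 4 + 8 * ((i : ℕ) : ℤ) + 2 ≤ b y →
      x ∈ U → y ∈ U
  obtain ⟨top, htop⟩ : (Z.filter (fun z => lev z = 25)).Nonempty := by
    have := hZ 25 (by omega) le_rfl
    exact card_pos.1 (by omega)
  obtain ⟨bot, hbot⟩ : (Z.filter (fun z => lev z = 0)).Nonempty := by
    have := hZ 0 le_rfl (by omega)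
    exact card_pos.1 (by omega)
  have btop : b top = 22 := by
    have := bZ top (mem_filter.1 htop).1
    have := (mem_filter.1 htop).2
    omega
  have abot : a bot = 2 := by
    have := aZ bot (mem_filter.1 hbot).1
    have := (mem_filter.1 hbot).2
    omega
  have hC : Fam C := by
    refine ⟨fun U hU => hU.1, fun U hU => hU.2.1, fun U X hU hX hI => ⟨hI, ?_, ?_⟩,
      fun U X hU hX hI => ⟨hU.1.mono subset_union_left, ?_, ?_⟩, ?_⟩
    · obtain ⟨x, hx⟩ := hU.2.1
      exact ⟨x, fun h => hx (mem_inter.1 h).1⟩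
    · intro x y i h1 h2 hx
      exact mem_inter.2 ⟨hU.2.2 x y i h1 h2 (mem_inter.1 hx).1,
        hX.2.2 x y i h1 h2 (mem_inter.1 hx).2⟩
    · obtain ⟨x, h1, h2⟩ := hI
      exact ⟨x, fun h => (mem_union.1 h).elim h1 h2⟩
    · intro x y i h1 h2 hx
      rcases mem_union.1 hx with h | h
      · exact mem_union_left _ (hU.2.2 x y i h1 h2 h)
      · exact mem_union_right _ (hX.2.2 x y i h1 h2 h)
    · intro P U X hP hU hX hd
      by_contra hn
      push Not at hn
      have e1 : ∃ x ∈ P, 14 ≤ b x := by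
        obtain ⟨x, hx⟩ := hP.1
        by_cases h : a x + 2 ≤ 20
        · exact ⟨top, hP.2.2 x top 2 (by simpa using h) (by simp [btop]) hx, by omega⟩
        · have := ab x
          exact ⟨x, hx, by omega⟩
      have e2 : ∃ y, y ∉ X ∧ a y ≤ 10 := by
        obtain ⟨y, hy⟩ := hX.2.1
        by_cases h : 6 ≤ b y
        · exact ⟨bot, fun h' => hy (hX.2.2 bot y 0 (by simp [abot]) (by simpa using h) h'),
            by omega⟩
        · have := ab y
          exact ⟨y, hy, by omega⟩
      obtain ⟨x, x1, x2⟩ := e1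
      obtain ⟨y, y1, y2⟩ := e2
      have y3 : y ∈ U := by
        by_contra h
        exact y1 (hn y h)
      exact disjoint_left.1 hd x1 (hU.2.2 y x 1 (by simp; omega) (by simp; omega) y3)
  obtain ⟨ψ, hψ⟩ := conn (κ := κ) hC Prod.fst Prod.snd (A.filter (fun e => ¬ F e.1 e.2)) (by
    intro U hU
    by_contra hlt
    have hF : Few (fun x y => Adj x y ∧ ¬ F x y) U (Fintype.card κ) := by
      intro I hI
      refine lt_of_le_of_lt (card_le_card (fun e he => ?_)) (not_le.1 hlt)
      obtain ⟨⟨e1, e2⟩, e3⟩ := hI e he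
      exact mem_ent.2 ⟨mem_filter.2 ⟨(hA _ _).2 e1, e2⟩, e3⟩
    obtain ⟨x, hx⟩ := hU.2.1
    refine hlt ((hcut.out hU.1 hx).trans (card_le_card (fun e he => ?_)))
    obtain ⟨e1, e2, e3⟩ := mem_ent.1 he
    exact mem_ent.2 ⟨mem_filter.2 ⟨e1, fun h => e3 (rob U hF _ _ h e2)⟩, e2, e3⟩)
  let f : V → V → κ := fun x y =>
    if F1 x y then Function.invFun (g x) y
    else if F4 x y then Function.invFun (g' y) x
    else if F2 x y then col y else if F3 x y then col x else ψ (x, y)
  refine ⟨f, fun c U hU hcl => ?_⟩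
  by_contra hn
  push Not at hn
  obtain ⟨⟨x, y⟩, e1, e2, e3, e4⟩ := hψ U ⟨hU, hn, by
    intro x y i h1 h2 hx
    have i3 := hi3 i
    have l1 := hwl i c
    have ax : a x ≤ 25 := by omega
    have bx : 0 ≤ b y := by omega
    obtain ⟨b1, b2, b3, -, b5⟩ := (hg x ax).2 c
    obtain ⟨d1, d2, d3, -, d5⟩ := (hg' y bx).2 c
    have s1 : g x c ∈ U := by
      refine hcl _ _ b3 ?_ hx
      have : F1 x (g x c) := ⟨ax, c, rfl⟩
      simp only [f, if_pos this]
      exact Function.leftInverse_invFun (hg x ax).1 c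
    have s2 : w i c ∈ U := by
      refine hcl _ _ (b5 i (by omega)) ?_ s1
      have n1 : ¬ F1 (g x c) (w i c) := fun h => hwZ i c (f1 _ _ h).1
      have n4 : ¬ F4 (g x c) (w i c) := fun h => by
        have := (f4 _ _ h).2
        have := bw i c
        omega
      have n2 : F2 (g x c) (w i c) := ⟨b1, ⟨i, c, rfl⟩, by omega⟩
      simp only [f, if_neg n1, if_neg n4, if_pos n2, hcol]
    have s3 : g' y c ∈ U := by
      refine hcl _ _ (d5 i (by omega)) ?_ s2
      have n1 : ¬ F1 (w i c) (g' y c) := fun h => by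
        have := (f1 _ _ h).2
        have := aw i c
        omega
      have n4 : ¬ F4 (w i c) (g' y c) := fun h => hwZ i c (f4 _ _ h).1
      have n2 : ¬ F2 (w i c) (g' y c) := fun h => hwZ i c h.1
      have n3 : F3 (w i c) (g' y c) := ⟨d1, ⟨i, c, rfl⟩, by omega⟩
      simp only [f, if_neg n1, if_neg n4, if_neg n2, if_pos n3, hcol]
    refine hcl _ _ d3 ?_ s3
    have n1 : ¬ F1 (g' y c) y := fun h => by
      obtain ⟨c1, c2⟩ := f1 _ _ h
      have := aZ _ d1
      have := bZ _ c1
      omega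
    have n4 : F4 (g' y c) y := ⟨bx, c, rfl⟩
    simp only [f, if_neg n1, if_pos n4]
    exact Function.leftInverse_invFun (hg' y bx).1 c⟩ c
  obtain ⟨e5, e6⟩ := mem_filter.1 e1
  refine e4 (hcl x y ((hA _ _).1 e5) ?_ e3)
  simp only [F, not_or] at e6
  simp only [f, if_neg e6.1, if_neg e6.2.1, if_neg e6.2.2.1, if_neg e6.2.2.2, e2]

open Classical in
theorem ladder (Adj : V → V → Prop) (A : Finset (V × V))
    (hA : ∀ a b, (a, b) ∈ A ↔ Adj a b) (hirr : ∀ v, ¬ Adj v v)
    (hsc : ∀ u v, u ≠ v → Adj u v ∨ Adj v u) (hcut : KCut A (Fintype.card κ))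
    (G : Finset V) (lv : V → ℕ) (s T : ℕ) (hs : 6 * T + 15 * Fintype.card κ ≤ s)
    (h0 : ∀ x ∈ G, lv x < 26) (h1 : ∀ j, j < 26 → s ≤ (G.filter (fun x => lv x = j)).card)
    (h2 : ∀ x ∈ G, (G.filter (fun y => lv x < lv y ∧ ¬ Adj x y)).card ≤ T)
    (h3 : ∀ y ∈ G, (G.filter (fun x => lv x < lv y ∧ ¬ Adj x y)).card ≤ T) : Dec Adj κ := by
  have hw : ∀ i : Fin 3, ∃ g : κ → V, Function.Injective g ∧
      ∀ c, g c ∈ G.filter (fun x => lv x = 4 + 8 * (i : ℕ)) := by
    intro i
    refine exists_inj _ (fun _ => le_trans (by omega) (h1 _ ?_))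
    have := i.2
    omega
  choose w w1 w2 using hw
  have wG : ∀ i c, w i c ∈ G := fun i c => (mem_filter.1 (w2 i c)).1
  have wl : ∀ i c, lv (w i c) = 4 + 8 * (i : ℕ) := fun i c => (mem_filter.1 (w2 i c)).2
  let W : Fin 3 × κ → V := fun p => w p.1 p.2
  have hW : Function.Injective W := by
    rintro ⟨i, c⟩ ⟨j, d⟩ h
    have e1 : i = j := by
      have e2 := wl i c
      have e3 := wl j d
      simp only [W] at h
      rw [h] at e2
      exact Fin.ext (by omega)
    subst e1
    exact Prod.ext rfl (w1 i h)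
  have : Nonempty (Fin 3 × κ) := inferInstance
  let Z : Finset V := G \ univ.image W
  have hZG : ∀ z ∈ Z, z ∈ G := fun z hz => (mem_sdiff.1 hz).1
  have hwZ : ∀ i c, w i c ∉ Z := fun i c h =>
    (mem_sdiff.1 h).2 (mem_image.2 ⟨(i, c), mem_univ _, rfl⟩)
  let lev : V → ℤ := fun x => (lv x : ℤ)
  have hZ : ∀ l : ℤ, 0 ≤ l → l ≤ 25 →
      6 * T + 12 * Fintype.card κ ≤ (Z.filter (fun z => lev z = l)).card := by
    intro l l1 l2
    have a1 := h1 l.toNat (by omega)
    have a2 : G.filter (fun x => lv x = l.toNat) ⊆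
        Z.filter (fun z => lev z = l) ∪ univ.image W := by
      intro x hx
      obtain ⟨x1, x2⟩ := mem_filter.1 hx
      by_cases h : x ∈ univ.image W
      · exact mem_union_right _ h
      · exact mem_union_left _ (mem_filter.2 ⟨mem_sdiff.2 ⟨x1, h⟩, by simp only [lev]; omega⟩)
    have a3 := (card_le_card a2).trans (card_union_le _ _)
    have a4 : (univ.image W).card ≤ 3 * Fintype.card κ := card_image_le.trans (by simp)
    omega
  have N1 : ∀ x ∈ G, (Z.filter (fun z => lev x < lev z ∧ ¬ Adj x z)).card ≤ T := by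
    intro x hx
    refine le_trans (card_le_card (fun z hz => ?_)) (h2 x hx)
    obtain ⟨z1, z2, z3⟩ := mem_filter.1 hz
    exact mem_filter.2 ⟨hZG z z1, by simpa [lev] using z2, z3⟩
  have N2 : ∀ x ∈ G, (Z.filter (fun z => lev z < lev x ∧ ¬ Adj z x)).card ≤ T := by
    intro x hx
    refine le_trans (card_le_card (fun z hz => ?_)) (h3 x hx)
    obtain ⟨z1, z2, z3⟩ := mem_filter.1 hz
    exact mem_filter.2 ⟨hZG z z1, by simpa [lev] using z2, z3⟩
  have up : ∀ x ∈ G, ∀ l, lev x < l → l ≤ 25 →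
      3 * T + 6 * Fintype.card κ ≤ (Z.filter (fun z => lev z = l ∧ Adj x z)).card := by
    intro x hx l l1 l2
    have a1 := hZ l (by simp only [lev] at l1; omega) l2
    have a2 : Z.filter (fun z => lev z = l) ⊆ Z.filter (fun z => lev z = l ∧ Adj x z) ∪
        Z.filter (fun z => lev x < lev z ∧ ¬ Adj x z) := by
      intro z hz
      obtain ⟨z1, z2⟩ := mem_filter.1 hz
      by_cases h : Adj x z
      · exact mem_union_left _ (mem_filter.2 ⟨z1, z2, h⟩)
      · exact mem_union_right _ (mem_filter.2 ⟨z1, z2 ▸ l1, h⟩)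
    have a3 := (card_le_card a2).trans (card_union_le _ _)
    have a4 := N1 x hx
    omega
  have down : ∀ x ∈ G, ∀ l, l < lev x → 0 ≤ l →
      3 * T + 6 * Fintype.card κ ≤ (Z.filter (fun z => lev z = l ∧ Adj z x)).card := by
    intro x hx l l1 l2
    have a1 := hZ l l2 (by have := h0 x hx; simp only [lev] at l1; omega)
    have a2 : Z.filter (fun z => lev z = l) ⊆ Z.filter (fun z => lev z = l ∧ Adj z x) ∪
        Z.filter (fun z => lev z < lev x ∧ ¬ Adj z x) := by
      intro z hz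
      obtain ⟨z1, z2⟩ := mem_filter.1 hz
      by_cases h : Adj z x
      · exact mem_union_left _ (mem_filter.2 ⟨z1, z2, h⟩)
      · exact mem_union_right _ (mem_filter.2 ⟨z1, z2 ▸ l1, h⟩)
    have a3 := (card_le_card a2).trans (card_union_le _ _)
    have a4 := N2 x hx
    omega
  have hex : ∀ v, ∃ n : ℕ, n = 26 ∨
      3 * T + 6 * Fintype.card κ ≤ (Z.filter (fun z => lev z = n ∧ Adj v z)).card :=
    fun v => ⟨26, Or.inl rfl⟩
  let a : V → ℤ := fun v =>
    if v ∈ Z then lev v + 2 else if v ∈ G then lev v + 1 else (Nat.find (hex v) : ℕ)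
  let b : V → ℤ := fun v =>
    if v ∈ Z then lev v - 3 else if v ∈ G then lev v - 1 else ((Nat.find (hex v) : ℕ) : ℤ) - 1
  refine ladder_abs Adj A hA hirr hsc hcut Z lev w (fun x => (Function.invFun W x).2) T a b
    (fun i c => ?_) hwZ (fun i c => ?_) (fun z hz => ?_)
    (fun l l1 l2 => le_trans (by omega) (hZ l l1 l2))
    (fun x hx => N1 x (hZG x hx)) (fun x hx => N2 x (hZG x hx))
    (fun i c => N1 _ (wG i c)) (fun i c => N2 _ (wG i c))
    (fun z hz => if_pos hz) (fun z hz => if_pos hz) (fun i c => ?_) (fun i c => ?_)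
    (fun v => ?_) (fun v hv => ?_) (fun v hv => ?_)
  · exact congrArg Prod.snd (Function.leftInverse_invFun hW (i, c))
  · simp only [lev, wl]
    push_cast
    rfl
  · have := h0 z (hZG z hz)
    simp only [lev]
    omega
  · simp only [a, if_neg (hwZ i c), if_pos (wG i c)]
  · simp only [b, if_neg (hwZ i c), if_pos (wG i c)]
  · simp only [a, b]
    split_ifs <;> omega
  · by_cases c1 : v ∈ Z
    · have : a v = lev v + 2 := if_pos c1
      exact up v (hZG v c1) _ (by omega) hv
    by_cases c2 : v ∈ G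
    · have : a v = lev v + 1 := by simp only [a, if_neg c1, if_pos c2]
      exact up v c2 _ (by omega) hv
    · have e : a v = (Nat.find (hex v) : ℕ) := by simp only [a, if_neg c1, if_neg c2]
      rw [e] at hv ⊢
      exact (Nat.find_spec (hex v)).resolve_left (by omega)
  · by_cases c1 : v ∈ Z
    · have : b v = lev v - 3 := if_pos c1
      exact down v (hZG v c1) _ (by omega) hv
    by_cases c2 : v ∈ G
    · have : b v = lev v - 1 := by simp only [b, if_neg c1, if_pos c2]
      exact down v c2 _ (by omega) hv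
    · have e : b v = ((Nat.find (hex v) : ℕ) : ℤ) - 1 := by simp only [b, if_neg c1, if_neg c2]
      have e1 : Nat.find (hex v) ≤ 26 := Nat.find_min' (hex v) (Or.inl rfl)
      obtain ⟨n, hn⟩ : ∃ n : ℕ, Nat.find (hex v) = n + 1 := ⟨Nat.find (hex v) - 1, by omega⟩
      have e2 := Nat.find_min (hex v) (m := n) (by omega)
      have e3 : b v = n := by omega
      rw [e3]
      have a1 := hZ n (by omega) (by omega)
      have a2 : Z.filter (fun z => lev z = n) ⊆ Z.filter (fun z => lev z = n ∧ Adj z v) ∪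
          Z.filter (fun z => lev z = n ∧ Adj v z) := by
        intro z hz
        obtain ⟨z1, z2⟩ := mem_filter.1 hz
        rcases hsc z v (fun h => c1 (h ▸ z1)) with h | h
        · exact mem_union_left _ (mem_filter.2 ⟨z1, z2, h⟩)
        · exact mem_union_right _ (mem_filter.2 ⟨z1, z2, h⟩)
      have a3 := (card_le_card a2).trans (card_union_le _ _)
      push Not at e2
      have a4 := e2.2
      omega

end Pool.Agent.Lib.MP_44ed1d_co
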