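import Mathlib
import Pool.Agent.Lib.MP_44ed1d_co.Back

set_option autoImplicit false
set_option linter.unusedSectionVars false

namespace Pool.Agent.Lib.MP_44ed1d_co

open Finset

variable {V : Type} [DecidableEq V] [Fintype V]

open Classical in
/-- pairs in increasing order without the forward arc -/
noncomputable def badp (Adj : V → V → Prop) (l : V → ℕ) (P : Finset V) : Finset (V × V) :=
  univ.filter (fun e => e.1 ∈ P ∧ e.2 ∈ P ∧ l e.1 < l e.2 ∧ ¬ Adj e.1 e.2)

lemma mem_badp {Adj : V → V → Prop} {l : V → ℕ} {P : Finset V} {e : V × V} :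
    e ∈ badp Adj l P ↔ e.1 ∈ P ∧ e.2 ∈ P ∧ l e.1 < l e.2 ∧ ¬ Adj e.1 e.2 := by
  simp [badp]

theorem split_lemma (Adj : V → V → Prop) (A : Finset (V × V))
    (hA : ∀ a b, (a, b) ∈ A ↔ Adj a b) (hsc : ∀ u v, u ≠ v → Adj u v ∨ Adj v u) (s lam : ℕ)
    (hno : ∀ M : Finset V, s ≤ M.card → ∃ U : Finset V, U.Nonempty ∧ U ⊆ M ∧ U ≠ M ∧
      lam * (outc (A.filter (fun e => e.1 ∈ M ∧ e.2 ∈ M)) U).card <
        M.card * min U.card (M.card - U.card)) (n : ℕ) :
    ∀ P : Finset V, P.card = n → ∃ l : V → ℕ, (∀ j, (P.filter (fun x => l x = j)).card ≤ s) ∧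
      lam * (badp Adj l P).card ≤ P.card ^ 2 := by
  induction n using Nat.strong_induction_on with
  | _ n ih =>
  intro P hn
  by_cases hs : P.card < s
  · refine ⟨fun _ => 0, fun j => (card_filter_le _ _).trans hs.le, ?_⟩
    have : badp Adj (fun _ => 0) P = ∅ := by
      rw [eq_empty_iff_forall_notMem]
      intro e he
      exact lt_irrefl _ (mem_badp.1 he).2.2.1
    simp [this]
  obtain ⟨U, u1, u2, u3, u4⟩ := hno P (by omega)
  have u5 := card_lt_card (Finset.ssubset_iff_subset_ne.2 ⟨u2, u3⟩)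
  have u6 := card_pos.2 u1
  have u7 := card_sdiff_of_subset u2
  obtain ⟨l1, a1, a2⟩ := ih _ (hn ▸ u5) U rfl
  obtain ⟨l2, b1, b2⟩ := ih _ (by omega) (P \ U) rfl
  let B := univ.sup l2 + 1
  have hB : ∀ x, l2 x < B := fun x => Nat.lt_succ_of_le (le_sup (mem_univ x))
  let l : V → ℕ := fun x => if x ∈ U then l1 x + B else l2 x
  have e1 : ∀ x ∈ U, l x = l1 x + B := fun x hx => if_pos hx
  have e2 : ∀ x, x ∉ U → l x = l2 x := fun x hx => if_neg hx
  refine ⟨l, fun j => ?_, ?_⟩
  · by_cases hj : j < B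
    · refine le_trans (card_le_card (fun x hx => ?_)) (b1 j)
      obtain ⟨x1, x2⟩ := mem_filter.1 hx
      have x3 : x ∉ U := fun h' => by rw [e1 x h'] at x2; omega
      exact mem_filter.2 ⟨mem_sdiff.2 ⟨x1, x3⟩, by rw [← e2 x x3, x2]⟩
    · refine le_trans (card_le_card (fun x hx => ?_)) (a1 (j - B))
      obtain ⟨x1, x2⟩ := mem_filter.1 hx
      have x3 : x ∈ U := by
        by_contra h'
        rw [e2 x h'] at x2
        have := hB x
        omega
      exact mem_filter.2 ⟨x3, by rw [e1 x x3] at x2; omega⟩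
  · have c1 : badp Adj l P ⊆ badp Adj l1 U ∪ badp Adj l2 (P \ U) ∪
        (outc (A.filter (fun e => e.1 ∈ P ∧ e.2 ∈ P)) U).image Prod.swap := by
      rintro ⟨x, y⟩ he
      obtain ⟨g1, g2, g3, g4⟩ := mem_badp.1 he
      simp only at g1 g2 g3 g4
      rw [mem_union, mem_union]
      by_cases hx : x ∈ U <;> by_cases hy : y ∈ U
      · rw [e1 x hx, e1 y hy] at g3
        exact Or.inl (Or.inl (mem_badp.2 ⟨hx, hy, by simp only; omega, g4⟩))
      · rw [e1 x hx, e2 y hy] at g3
        have := hB y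
        omega
      · refine Or.inr (mem_image.2 ⟨(y, x), mem_ent.2 ⟨mem_filter.2 ⟨(hA _ _).2 ?_, g2, g1⟩, hy, hx⟩, rfl⟩)
        exact (hsc x y (fun h' => hx (h' ▸ hy))).resolve_left g4
      · rw [e2 x hx, e2 y hy] at g3
        exact Or.inl (Or.inr (mem_badp.2 ⟨mem_sdiff.2 ⟨g1, hx⟩, mem_sdiff.2 ⟨g2, hy⟩, g3, g4⟩))
    have c2 := (card_le_card c1).trans ((card_union_le _ _).trans
      (Nat.add_le_add (card_union_le _ _) card_image_le))
    rw [← u7] at u4
    have c3 : P.card = U.card + (P \ U).card := by omega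
    rw [c3] at u4 ⊢
    generalize U.card = u at *
    generalize (P \ U).card = w at *
    have c4 : (u + w) * min u w ≤ 2 * (u * w) := by
      rcases le_total u w with h | h
      · rw [min_eq_left h]
        nlinarith
      · rw [min_eq_right h]
        nlinarith
    have c5 := Nat.mul_le_mul_left lam c2
    nlinarith

theorem blocks (l : V → ℕ) (s H q : ℕ) (G : Finset V)
    (hf : ∀ j, (G.filter (fun x => l x = j)).card ≤ s) (hG : q * (H + s) ≤ G.card) :
    ∃ lev : V → ℕ, (∀ x y, lev x < lev y → l x < l y) ∧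
      ∀ j, j < q → H ≤ (G.filter (fun x => lev x = j)).card := by
  let pos : V → ℕ := fun x => (G.filter (fun y => l y < l x)).card
  have a1 : ∀ t, t ≤ G.card → t ≤ (G.filter (fun x => pos x < t)).card := by
    intro t ht
    by_contra hn
    have h1 : (G.filter (fun x => ¬ pos x < t)).Nonempty := by
      have := card_filter_add_card_filter_not (s := G) (fun x => pos x < t)
      exact card_pos.1 (by omega)
    obtain ⟨x, hx, hmin⟩ := exists_min_image _ l h1
    have h2 : pos x ≤ (G.filter (fun x => pos x < t)).card := by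
      apply card_le_card
      intro y hy
      obtain ⟨y1, y2⟩ := mem_filter.1 hy
      refine mem_filter.2 ⟨y1, ?_⟩
      by_contra h'
      have := hmin y (mem_filter.2 ⟨y1, h'⟩)
      omega
    have h3 := (mem_filter.1 hx).2
    omega
  have a2 : ∀ t, (G.filter (fun x => pos x < t)).card ≤ t + s := by
    intro t
    rcases (G.filter (fun x => pos x < t)).eq_empty_or_nonempty with h0 | h1
    · rw [h0]
      simp
    obtain ⟨x, hx, hmax⟩ := exists_max_image _ l h1
    have h2 : G.filter (fun x => pos x < t) ⊆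
        G.filter (fun y => l y < l x) ∪ G.filter (fun y => l y = l x) := by
      intro y hy
      have := hmax y hy
      have y1 := (mem_filter.1 hy).1
      rw [mem_union, mem_filter, mem_filter]
      rcases lt_or_eq_of_le this with h | h
      · exact Or.inl ⟨y1, h⟩
      · exact Or.inr ⟨y1, h⟩
    have h3 := (card_le_card h2).trans (card_union_le _ _)
    have h4 := (mem_filter.1 hx).2
    have h5 := hf (l x)
    simp only [pos] at h4 h3 ⊢
    omega
  refine ⟨fun x => pos x / (H + s), fun x y hxy => ?_, fun j hj => ?_⟩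
  · by_contra hn
    have : pos y ≤ pos x := by
      apply card_le_card
      intro z hz
      obtain ⟨z1, z2⟩ := mem_filter.1 hz
      exact mem_filter.2 ⟨z1, by omega⟩
    have := Nat.div_le_div_right (c := H + s) this
    simp only at hxy
    omega
  · have h1 := a1 ((j + 1) * (H + s)) (le_trans (Nat.mul_le_mul_right _ hj) hG)
    have h2 := a2 (j * (H + s))
    have h3 : G.filter (fun x => pos x < (j + 1) * (H + s)) ⊆
        G.filter (fun x => pos x < j * (H + s)) ∪ G.filter (fun x => pos x / (H + s) = j) := by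
      intro x hx
      obtain ⟨x1, x2⟩ := mem_filter.1 hx
      rw [mem_union, mem_filter, mem_filter]
      by_cases h : pos x < j * (H + s)
      · exact Or.inl ⟨x1, h⟩
      · exact Or.inr ⟨x1, Nat.div_eq_of_lt_le (by omega) x2⟩
    have h4 := (card_le_card h3).trans (card_union_le _ _)
    rw [Nat.succ_mul] at h1 h4
    show H ≤ (G.filter (fun x => pos x / (H + s) = j)).card
    omega

lemma few_heavy {α : Type} [DecidableEq α] (B : Finset α) (g : α → V) (T : ℕ) (Y : Finset V) :
    (Y.filter (fun x => ¬ (B.filter (fun e => g e = x)).card ≤ T)).card * T ≤ B.card := by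
  set L := Y.filter (fun x => ¬ (B.filter (fun e => g e = x)).card ≤ T) with hL
  have h1 : L.card * T ≤ ∑ x ∈ L, (B.filter (fun e => g e = x)).card := by
    rw [← smul_eq_mul]
    apply card_nsmul_le_sum
    intro x hx
    have := (mem_filter.1 hx).2
    omega
  refine h1.trans ?_
  rw [← card_biUnion]
  · apply card_le_card
    intro e he
    obtain ⟨x, -, hx⟩ := mem_biUnion.1 he
    exact (mem_filter.1 hx).1
  · intro x _ y _ hxy
    exact disjoint_left.2 (fun e h1 h2 => hxy ((mem_filter.1 h1).2.symm.trans (mem_filter.1 h2).2))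

open Classical in
theorem hubs (Adj : V → V → Prop) (l : V → ℕ) (Y : Finset V) (s lam T q : ℕ) (hs : 0 < s)
    (hT : 0 < T) (hY : Y.card = 4 * (q * s)) (hlam : lam * T = 4 * Y.card) (hq : 0 < q)
    (hf : ∀ j, (Y.filter (fun x => l x = j)).card ≤ s)
    (hb : lam * (badp Adj l Y).card ≤ Y.card ^ 2) :
    ∃ (G : Finset V) (lev : V → ℕ), (∀ x ∈ G, lev x < q) ∧
      (∀ j, j < q → s ≤ (G.filter (fun x => lev x = j)).card) ∧
      (∀ x ∈ G, (G.filter (fun y => lev x < lev y ∧ ¬ Adj x y)).card ≤ T) ∧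
      (∀ y ∈ G, (G.filter (fun x => lev x < lev y ∧ ¬ Adj x y)).card ≤ T) := by
  let G0 := Y.filter (fun x => ((badp Adj l Y).filter (fun e => e.1 = x)).card ≤ T ∧
    ((badp Adj l Y).filter (fun e => e.2 = x)).card ≤ T)
  have h1 := few_heavy (badp Adj l Y) Prod.fst T Y
  have h2 := few_heavy (badp Adj l Y) Prod.snd T Y
  have h3 : Y ⊆ G0 ∪ (Y.filter (fun x => ¬ ((badp Adj l Y).filter (fun e => e.1 = x)).card ≤ T) ∪
      Y.filter (fun x => ¬ ((badp Adj l Y).filter (fun e => e.2 = x)).card ≤ T)) := by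
    intro x hx
    simp only [G0, mem_union, mem_filter]
    tauto
  have h4 := (card_le_card h3).trans ((card_union_le _ _).trans
    (Nat.add_le_add_left (card_union_le _ _) _))
  have hpos : 0 < Y.card := by
    rw [hY]
    positivity
  have key : ∀ a : ℕ, a * T ≤ (badp Adj l Y).card → 4 * a ≤ Y.card := by
    intro a ha
    have h5 := Nat.mul_le_mul_left lam ha
    have h6 : Y.card * (4 * a) ≤ Y.card * Y.card := by nlinarith
    exact Nat.le_of_mul_le_mul_left h6 hpos
  have h5 := key _ h1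
  have h6 := key _ h2
  obtain ⟨lev, a1, a2⟩ := blocks l s s q G0
    (fun j => le_trans (card_le_card (fun x hx => by
      obtain ⟨x1, x2⟩ := mem_filter.1 hx
      exact mem_filter.2 ⟨(mem_filter.1 x1).1, x2⟩)) (hf j))
    (by rw [mul_add]; omega)
  refine ⟨G0.filter (fun x => lev x < q), lev, fun x hx => (mem_filter.1 hx).2, fun j hj => ?_,
    fun x hx => ?_, fun y hy => ?_⟩
  · refine (a2 j hj).trans (card_le_card (fun x hx => ?_))
    obtain ⟨x1, x2⟩ := mem_filter.1 hx
    exact mem_filter.2 ⟨mem_filter.2 ⟨x1, x2 ▸ hj⟩, x2⟩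
  · obtain ⟨x1, x2, -⟩ := mem_filter.1 (mem_filter.1 hx).1
    refine le_trans ?_ x2
    apply card_le_card_of_injOn (fun y => (x, y))
    · intro y hy
      obtain ⟨y1, y2, y3⟩ := mem_filter.1 (mem_coe.1 hy)
      exact mem_coe.2 (mem_filter.2 ⟨mem_badp.2
        ⟨x1, (mem_filter.1 (mem_filter.1 y1).1).1, a1 _ _ y2, y3⟩, rfl⟩)
    · intro y _ z _ h
      exact (Prod.mk.inj h).2
  · obtain ⟨x1, -, x2⟩ := mem_filter.1 (mem_filter.1 hy).1
    refine le_trans ?_ x2
    apply card_le_card_of_injOn (fun x => (x, y))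
    · intro x hx
      obtain ⟨y1, y2, y3⟩ := mem_filter.1 (mem_coe.1 hx)
      exact mem_coe.2 (mem_filter.2 ⟨mem_badp.2
        ⟨(mem_filter.1 (mem_filter.1 y1).1).1, x1, a1 _ _ y2, y3⟩, rfl⟩)
    · intro x _ z _ h
      exact (Prod.mk.inj h).1

end Pool.Agent.Lib.MP_44ed1d_co
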