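import Mathlib
import Pool.Agent.Lib.MP_44ed1d_co.Dense
import Pool.Agent.Lib.MP_44ed1d_co.Split
import Pool.Agent.Lib.MP_44ed1d_co.Ladder

set_option autoImplicit false
set_option linter.unusedSectionVars false

namespace Pool.Agent.Lib.MP_44ed1d_co

open Finset

variable {V : Type} [DecidableEq V] [Fintype V]
variable {κ : Type} [Fintype κ] [DecidableEq κ] [Nonempty κ]

theorem linear_dec (Adj : V → V → Prop) (A : Finset (V × V))
    (hA : ∀ a b, (a, b) ∈ A ↔ Adj a b) (hirr : ∀ v, ¬ Adj v v)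
    (hsc : ∀ u v, u ≠ v → Adj u v ∨ Adj v u) (hcut : KCut A (Fintype.card κ))
    (hV : 3000000000000 * Fintype.card κ ≤ Fintype.card V) : Dec Adj κ := by
  classical
  have hk : 0 < Fintype.card κ := Fintype.card_pos
  set k := Fintype.card κ with hkk
  by_cases hno : ∀ M : Finset V, 24743919200 * k ≤ M.card → ∃ U : Finset V, U.Nonempty ∧ U ⊆ M ∧
      U ≠ M ∧ 2912 * (outc (A.filter (fun e => e.1 ∈ M ∧ e.2 ∈ M)) U).card <
        M.card * min U.card (M.card - U.card)
  · obtain ⟨Y, -, hY⟩ := exists_subset_card_eq (s := (univ : Finset V))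
      (n := 4 * (26 * (24743919200 * k))) (by rw [card_univ]; omega)
    obtain ⟨l, l1, l2⟩ := split_lemma Adj A hA hsc _ _ hno _ Y rfl
    obtain ⟨G, lv, g1, g2, g3, g4⟩ := hubs Adj l Y (24743919200 * k) 2912 (3534845600 * k) 26
      (by omega) (by omega) hY (by omega) (by omega) l1 l2
    exact ladder Adj A hA hirr hsc hcut G lv _ _ (by omega) g1 g2 g3 g4
  · push Not at hno
    obtain ⟨M, m1, m2⟩ := hno
    have h1 := Nat.div_add_mod M.card 2912
    have h2 := Nat.mod_lt M.card (show 2912 > 0 by omega)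
    obtain ⟨φ, hφ⟩ := dense (κ := κ) (A.filter (fun e => e.1 ∈ M ∧ e.2 ∈ M)) M
      (fun e he => (mem_filter.1 he).2) (M.card / 2912) 2913 (by norm_num; omega) (by omega)
      (by omega) (by
        intro U u1 u2 u3
        have h3 := m2 U u1 u2 u3
        have h4 : 2912 * (M.card / 2912) * min U.card (M.card - U.card) ≤
            M.card * min U.card (M.card - U.card) := Nat.mul_le_mul_right _ (by omega)
        rw [mul_assoc] at h4
        omega)
    refine core Adj A hA hsc hcut M (by omega) φ (fun c U u1 u2 u3 => ?_)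
    obtain ⟨e, e1, e2⟩ := hφ c U u1 u2 u3
    exact ⟨e, (mem_filter.1 e1).1, (mem_filter.1 e1).2.2, e2⟩

theorem linear (k : ℕ) (hk : 1 ≤ k) (V : Type) [Fintype V] (Adj : V → V → Prop)
    (hV : 3000000000000 * k ≤ Fintype.card V) (hirr : ∀ v, ¬ Adj v v)
    (hsc : ∀ u v, u ≠ v → Adj u v ∨ Adj v u)
    (hs : ∀ S : Finset (V × V), (∀ e ∈ S, Adj e.1 e.2) → S.card ≤ k - 1 →
        ∀ u v, Relation.ReflTransGen (fun a b => Adj a b ∧ (a, b) ∉ S) u v) :
    ∃ f : V → V → Fin k, ∀ i : Fin k, ∀ u v,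
        Relation.ReflTransGen (fun a b => Adj a b ∧ f a b = i) u v := by
  classical
  have : NeZero k := ⟨by omega⟩
  let A : Finset (V × V) := univ.filter (fun e => Adj e.1 e.2)
  have hA : ∀ a b, (a, b) ∈ A ↔ Adj a b := fun a b => by simp [A]
  have hcut : KCut A (Fintype.card (Fin k)) := by
    rw [Fintype.card_fin]
    rintro X ⟨x, hx⟩ ⟨y, hy⟩
    by_contra hlt
    have h1 := hs (outc A X) (fun e he => (hA e.1 e.2).1 (mem_ent.1 he).1) (by omega) x y
    have h2 : ∀ z, Relation.ReflTransGen (fun a b => Adj a b ∧ (a, b) ∉ outc A X) x z → z ∈ X := by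
      intro z hz
      induction hz with
      | refl => exact hx
      | tail _ hbc ih =>
        by_contra hc
        exact hbc.2 (mem_ent.2 ⟨(hA _ _).2 hbc.1, ih, hc⟩)
    exact (mem_compl.1 hy) (h2 y h1)
  obtain ⟨f, hf⟩ := linear_dec (κ := Fin k) Adj A hA hirr hsc hcut
    (by rw [Fintype.card_fin]; exact hV)
  refine ⟨f, fun i u v => ?_⟩
  have := hf i (univ.filter (fun z =>
    Relation.ReflTransGen (fun a b => Adj a b ∧ f a b = i) u z))
    ⟨u, mem_filter.2 ⟨mem_univ _, Relation.ReflTransGen.refl⟩⟩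
    (fun a b h1 h2 ha => mem_filter.2 ⟨mem_univ _, (mem_filter.1 ha).2.tail ⟨h1, h2⟩⟩) v
  exact (mem_filter.1 this).2

end Pool.Agent.Lib.MP_44ed1d_co
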