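import Mathlib
import Pool.Agent.Lib.MP_44ed1d_co.Back

set_option autoImplicit false
set_option linter.unusedSectionVars false

namespace Pool.Agent.Lib.MP_44ed1d_co

open Finset

lemma exists_mono_seq (s : Finset ℕ) (n : ℕ) (h : n ≤ s.card) :
    ∃ a : ℕ → ℕ, (∀ i, i < n → a i ∈ s) ∧ ∀ i j, i < j → j < n → a i < a j := by
  let e := s.orderEmbOfCardLe h
  refine ⟨fun i => if hi : i < n then e ⟨i, hi⟩ else 0, fun i hi => ?_, fun i j hij hj => ?_⟩
  · simp only [dif_pos hi]
    exact orderEmbOfCardLe_mem s h _
  · have hi : i < n := by omega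
    simp only [dif_pos hi, dif_pos hj]
    exact e.strictMono (Fin.mk_lt_mk.2 hij)

lemma pick {α : Type} [Fintype α] (W T : ℕ) (hW : 2 * T < W) (P Q : α × Fin W → Prop)
    [DecidablePred P] [DecidablePred Q]
    (hP : (univ.filter (fun i => ¬ P i)).card ≤ T) (hQ : (univ.filter (fun i => ¬ Q i)).card ≤ T)
    (a : α) : ∃ w, P (a, w) ∧ Q (a, w) := by
  classical
  by_contra hno
  push Not at hno
  have h1 : (univ : Finset (Fin W)).card ≤
      (univ.filter (fun i => ¬ P i) ∪ univ.filter (fun i => ¬ Q i)).card := by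
    apply card_le_card_of_injOn (fun w => (a, w))
    · intro w _
      simp only [coe_union, coe_filter, mem_univ, true_and, Set.mem_union, Set.mem_ofPred_eq]
      by_cases h : P (a, w)
      · exact Or.inr (hno w h)
      · exact Or.inl h
    · intro w _ w' _ h
      exact (Prod.mk.inj h).2
  have h2 := card_union_le (univ.filter (fun i => ¬ P i)) (univ.filter (fun i => ¬ Q i))
  simp only [card_univ, Fintype.card_fin] at h1
  omega

variable {V : Type} [DecidableEq V] [Fintype V]
variable {κ : Type} [Fintype κ] [DecidableEq κ] [AddCommGroup κ]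

open Classical in
theorem ladder_dec (Adj : V → V → Prop) (A : Finset (V × V))
    (hA : ∀ a b, (a, b) ∈ A ↔ Adj a b) (hsc : ∀ u v, u ≠ v → Adj u v ∨ Adj v u)
    (k : ℕ) (hk : Fintype.card κ = k) (hcut : KCut A k)
    (p : ℕ) (hp : 2 * (k * 2 ^ (k + 2)) + 4 ≤ p) (β : V → ℕ) (hβ : ∀ v, β v ≤ p)
    (T W : ℕ) (hW : 2 * T + k < W) (n : ℕ → (κ × κ) × Fin W → V)
    (hn : ∀ a, a ≤ p → ∀ i, β (n a i) = a) (hinj : ∀ a, a ≤ p → Function.Injective (n a))
    (hdown : ∀ v b, β v < b → b ≤ p → (univ.filter (fun i => ¬ Adj v (n b i))).card ≤ T)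
    (hup : ∀ v b, b < β v → (univ.filter (fun i => ¬ Adj (n b i) v)).card ≤ T) :
    Dec Adj κ := by
  have : Nonempty (Fin W) := ⟨⟨0, by omega⟩⟩
  let idx : V → (κ × κ) × Fin W := fun v => Function.invFun (n (β v)) v
  have hidx : ∀ a, a ≤ p → ∀ i, idx (n a i) = i := by
    intro a ha i
    simp only [idx, hn a ha i]
    exact Function.leftInverse_invFun (hinj a ha) i
  let χ : V → V → κ := fun u w => (idx u).1.2 + (idx w).1.1
  refine ladder_core Adj A hA hsc k hk hcut p hp β hβ χ ?_ ?_ ?_ ?_ ?_
  · intro b hb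
    exact ⟨n b (Classical.arbitrary _), hn b hb _⟩
  · intro x b hx hb c
    obtain ⟨w, hw, -⟩ := pick W T (by omega) _ _ (hdown x b hx hb) (hdown x b hx hb)
      (c - (idx x).1.2, 0)
    refine ⟨_, hn b hb _, hw, ?_⟩
    simp only [χ, hidx b hb]
    abel
  · intro y b hy c
    have hb : b ≤ p := by have := hβ y; omega
    obtain ⟨w, hw, -⟩ := pick W T (by omega) _ _ (hup y b hy) (hup y b hy)
      (0, c - (idx y).1.1)
    refine ⟨_, hn b hb _, hw, ?_⟩
    simp only [χ, hidx b hb]
    abel
  · intro x y b hx hy c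
    have hb : b ≤ p := by have := hβ y; omega
    obtain ⟨w, hw, hw'⟩ := pick W T (by omega) _ _ (hdown x b hx hb) (hup y b hy)
      (c - (idx x).1.2, c - (idx y).1.1)
    refine ⟨_, hn b hb _, hw, hw', ?_, ?_⟩
    · simp only [χ, hidx b hb]
      abel
    · simp only [χ, hidx b hb]
      abel
  · intro B hB X x w hx hw hlt
    have hb : β x + 1 ≤ p := by have := hβ w; omega
    have h1 := hdown x (β x + 1) (by omega) hb
    have h2 := hup w (β x + 1) (by omega)
    have h3 := fan B X x w hx hw
      (univ.filter (fun i => Adj x (n (β x + 1) i) ∧ Adj (n (β x + 1) i) w)) (n (β x + 1))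
      (hinj _ hb).injOn
      (fun i _ h => by have := hn _ hb i; rw [h] at this; omega)
      (fun i hi => hB _ _ (mem_filter.1 hi).2.1 (by rw [hn _ hb i]; omega))
      (fun i hi => hB _ _ (mem_filter.1 hi).2.2 (by rw [hn _ hb i]; omega))
    have h4 := card_filter_add_card_filter_not (s := univ)
      (fun i => Adj x (n (β x + 1) i) ∧ Adj (n (β x + 1) i) w)
    have h5 : (univ.filter (fun i => ¬ (Adj x (n (β x + 1) i) ∧ Adj (n (β x + 1) i) w))).card ≤
        (univ.filter (fun i => ¬ Adj x (n (β x + 1) i)) ∪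
          univ.filter (fun i => ¬ Adj (n (β x + 1) i) w)).card := by
      apply card_le_card
      intro i hi
      simp only [mem_filter, mem_univ, true_and, mem_union] at hi ⊢
      tauto
    have h6 := card_union_le (univ.filter (fun i => ¬ Adj x (n (β x + 1) i)))
      (univ.filter (fun i => ¬ Adj (n (β x + 1) i) w))
    have h7 : W ≤ (univ : Finset ((κ × κ) × Fin W)).card := by
      simp only [card_univ, Fintype.card_prod, Fintype.card_fin]
      exact Nat.le_mul_of_pos_left _ (Nat.mul_pos Fintype.card_pos Fintype.card_pos)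
    omega

/-- length of the transitive sequence that is needed -/
def bigN (k : ℕ) : ℕ := (2 * (k * 2 ^ (k + 2)) + 4 + 1) * (k * k * (7 * k + 1) + 8 * k + 2)

theorem main_dec (Adj : V → V → Prop) (A : Finset (V × V))
    (hA : ∀ a b, (a, b) ∈ A ↔ Adj a b) (hirr : ∀ v, ¬ Adj v v)
    (hsc : ∀ u v, u ≠ v → Adj u v ∨ Adj v u)
    (k : ℕ) (hk : Fintype.card κ = k) (hcut : KCut A k)
    (hV : 2 ^ bigN k ≤ Fintype.card V) : Dec Adj κ := by
  classical
  obtain ⟨m, -, hm⟩ := trans_seq Adj (bigN k) univ (fun u _ v _ h => hsc u v h) (by simpa using hV)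
  set N := bigN k with hN
  have hmne : ∀ i j, i < N → j < N → m i = m j → i = j := by
    intro i j hi hj h
    by_contra hne
    rcases lt_or_gt_of_ne hne with h1 | h1
    · exact (hm i j h1 hj).2 h
    · exact (hm j i h1 hi).2 h.symm
  let O : V → ℕ → Finset ℕ := fun v t => (range t).filter (fun i => Adj v (m i))
  let I : V → ℕ → Finset ℕ := fun v t => (Ico t N).filter (fun i => Adj (m i) v)
  have hO : ∀ v t i, i ∈ O v t ↔ i < t ∧ Adj v (m i) := fun v t i => by simp [O]
  have hI : ∀ v t i, i ∈ I v t ↔ (t ≤ i ∧ i < N) ∧ Adj (m i) v := fun v t i => by simp [I]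
  have hkpos : 0 < k := hk ▸ Fintype.card_pos
  by_cases hback : ∃ v t, 3 * k ≤ (O v t).card ∧ 3 * k ≤ (I v (t + (2 * k + 1))).card
  · obtain ⟨v, t, h1, h2⟩ := hback
    obtain ⟨a, a1, a2⟩ := exists_mono_seq _ _ h1
    obtain ⟨b, b1, b2⟩ := exists_mono_seq _ _ h2
    simp only [hO] at a1
    simp only [hI] at b1
    have htN : t + (2 * k + 1) < N := by have := b1 0 (by omega); omega
    let q : κ → ℕ := fun c => (Fintype.equivFinOfCardEq hk c : ℕ)
    have hq : ∀ c, q c < k := fun c => (Fintype.equivFinOfCardEq hk c).2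
    have hqi : ∀ c d, q c = q d → c = d :=
      fun c d h => (Fintype.equivFinOfCardEq hk).injective (Fin.ext h)
    have ainj : ∀ i j, i < 3 * k → j < 3 * k → m (a i) = m (a j) → i = j := by
      intro i j hi hj h
      have := hmne _ _ (by have := a1 i hi; omega) (by have := a1 j hj; omega) h
      by_contra hne
      rcases lt_or_gt_of_ne hne with h1 | h1
      · have := a2 i j h1 hj; omega
      · have := a2 j i h1 hi; omega
    have binj : ∀ i j, i < 3 * k → j < 3 * k → m (b i) = m (b j) → i = j := by
      intro i j hi hj h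
      have := hmne _ _ (by have := b1 i hi; omega) (by have := b1 j hj; omega) h
      by_contra hne
      rcases lt_or_gt_of_ne hne with h1 | h1
      · have := b2 i j h1 hj; omega
      · have := b2 j i h1 hi; omega
    have aa : ∀ i j, i < j → j < 3 * k → Adj (m (a i)) (m (a j)) := fun i j hij hj =>
      (hm _ _ (a2 i j hij hj) (by have := a1 j hj; omega)).1
    have bb : ∀ i j, i < j → j < 3 * k → Adj (m (b i)) (m (b j)) := fun i j hij hj =>
      (hm _ _ (b2 i j hij hj) (by have := b1 j hj; omega)).1
    have ab : ∀ i j, i < 3 * k → j < 3 * k → Adj (m (a i)) (m (b j)) := fun i j hi hj =>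
      (hm _ _ (by have := a1 i hi; have := b1 j hj; omega) (by have := b1 j hj; omega)).1
    let M : Finset V := ((Ico t (t + (2 * k + 1))).image m).erase v
    have hMm : ∀ u ∈ M, ∃ i, t ≤ i ∧ i < t + (2 * k + 1) ∧ m i = u := by
      intro u hu
      obtain ⟨i, hi, rfl⟩ := mem_image.1 (mem_of_mem_erase hu)
      rw [mem_Ico] at hi
      exact ⟨i, hi.1, hi.2, rfl⟩
    have aM : ∀ i, i < 3 * k → ∀ u ∈ M, Adj (m (a i)) u := by
      intro i hi u hu
      obtain ⟨j, j1, j2, rfl⟩ := hMm u hu
      exact (hm _ _ (by have := a1 i hi; omega) (by omega)).1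
    have Mb : ∀ i, i < 3 * k → ∀ u ∈ M, Adj u (m (b i)) := by
      intro i hi u hu
      obtain ⟨j, j1, j2, rfl⟩ := hMm u hu
      exact (hm _ _ (by have := b1 i hi; omega) (by have := b1 i hi; omega)).1
    have hMc : 2 * Fintype.card κ ≤ M.card := by
      have h3 : ((Ico t (t + (2 * k + 1))).image m).card = 2 * k + 1 := by
        rw [card_image_of_injOn]
        · simp
        · intro i hi j hj h
          simp only [coe_Ico, Set.mem_Ico] at hi hj
          exact hmne i j (by omega) (by omega) h
      have h4 := pred_card_le_card_erase (s := (Ico t (t + (2 * k + 1))).image m) (a := v)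
      rw [hk]
      simp only [M]
      omega
    refine case_back Adj A hA hirr hsc (hk ▸ hcut) v (fun c => m (a (k + q c)))
      (fun c => m (a (q c))) (fun c => m (b (q c))) (fun c => m (b (k + q c)))
      (fun c => m (b (2 * k + q c))) M hMc (notMem_erase _ _) ?_ ?_ ?_ ?_ ?_ ?_ ?_ ?_ ?_ ?_
      ?_ ?_ ?_ ?_ ?_ ?_ ?_ ?_ ?_
    · intro c d h
      have := ainj _ _ (by have := hq c; omega) (by have := hq d; omega) h
      exact hqi c d (by omega)
    · intro c d h
      have := ainj _ _ (by have := hq c; omega) (by have := hq d; omega) h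
      exact hqi c d (by omega)
    · intro c d h
      have := binj _ _ (by have := hq c; omega) (by have := hq d; omega) h
      exact hqi c d (by omega)
    · intro c d h
      have := binj _ _ (by have := hq c; omega) (by have := hq d; omega) h
      exact hqi c d (by omega)
    · intro c d h
      have := binj _ _ (by have := hq c; omega) (by have := hq d; omega) h
      exact hqi c d (by omega)
    · exact fun c => (a1 _ (by have := hq c; omega)).2
    · exact fun c => (a1 _ (by have := hq c; omega)).2
    · exact fun c => (b1 _ (by have := hq c; omega)).2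
    · exact fun c => (b1 _ (by have := hq c; omega)).2
    · exact fun c => (b1 _ (by have := hq c; omega)).2
    · exact fun c d => aa _ _ (by have := hq c; omega) (by have := hq d; omega)
    · exact fun c d => bb _ _ (by have := hq c; omega) (by have := hq d; omega)
    · exact fun c d => bb _ _ (by have := hq c; omega) (by have := hq d; omega)
    · exact fun c d => bb _ _ (by have := hq c; omega) (by have := hq d; omega)
    · exact fun c d => ab _ _ (by have := hq c; omega) (by have := hq d; omega)
    · exact fun c d => ab _ _ (by have := hq c; omega) (by have := hq d; omega)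
    · exact fun c => aM _ (by have := hq c; omega)
    · exact fun c => Mb _ (by have := hq c; omega)
    · exact fun c => Mb _ (by have := hq c; omega)
  push Not at hback
  set p := 2 * (k * 2 ^ (k + 2)) + 4 with hp
  set J := k * k * (7 * k + 1) with hJ
  set L := J + 8 * k + 2 with hL
  have hNL : N = (p + 1) * L := rfl
  let pos : ℕ → ℕ := fun a => a * L
  have hpos : ∀ a b, a < b → pos a + L ≤ pos b := by
    intro a b hab
    simp only [pos]
    rw [← Nat.succ_mul]
    exact Nat.mul_le_mul_right _ hab
  have hposN : ∀ a, a ≤ p → pos a + L ≤ N := fun a ha => hpos a (p + 1) (by omega)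
  have hcardι : Fintype.card ((κ × κ) × Fin (7 * k + 1)) = J := by
    simp [hk, hJ]
  let enc : (κ × κ) × Fin (7 * k + 1) → ℕ := fun i => (Fintype.equivFinOfCardEq hcardι i : ℕ)
  have henc : ∀ i, enc i < J := fun i => (Fintype.equivFinOfCardEq hcardι i).2
  have henci : ∀ i j, enc i = enc j → i = j :=
    fun i j h => (Fintype.equivFinOfCardEq hcardι).injective (Fin.ext h)
  have hex : ∀ v, ∃ a, a = p ∨ 3 * k ≤ (O v (pos a + L)).card := fun v => ⟨p, Or.inl rfl⟩
  let β : V → ℕ := fun v => Nat.find (hex v)
  have hβ : ∀ v, β v ≤ p := fun v => Nat.find_min' (hex v) (Or.inl rfl)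
  have hβ1 : ∀ v b, b < β v → (O v (pos b + L)).card < 3 * k := by
    intro v b hb
    have := Nat.find_min (hex v) hb
    push Not at this
    exact this.2
  have hβ2 : ∀ v, β v < p → (I v (pos (β v) + L + (2 * k + 1))).card < 3 * k := by
    intro v hv
    rcases Nat.find_spec (hex v) with h | h
    · exact absurd h (ne_of_lt hv)
    · exact hback v _ h
  let n : ℕ → (κ × κ) × Fin (7 * k + 1) → V := fun a i => m (pos a + (5 * k + 1) + enc i)
  have hn : ∀ a, a ≤ p → ∀ i, β (n a i) = a := by
    intro a ha i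
    have e1 := henc i
    have e2 := hposN a ha
    apply le_antisymm
    · apply Nat.find_min' (hex _)
      right
      have : Ico (pos a + L - 3 * k) (pos a + L) ⊆ O (n a i) (pos a + L) := by
        intro j hj
        rw [mem_Ico] at hj
        exact (hO _ _ _).2 ⟨hj.2, (hm _ _ (by omega) (by omega)).1⟩
      have h2 := card_le_card this
      rw [Nat.card_Ico] at h2
      omega
    · by_contra hlt
      push Not at hlt
      have h1 := hβ2 (n a i) (by omega)
      have h3 := hpos _ _ hlt
      have : Ico (pos a + (2 * k + 1)) (pos a + (5 * k + 1)) ⊆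
          I (n a i) (pos (β (n a i)) + L + (2 * k + 1)) := by
        intro j hj
        rw [mem_Ico] at hj
        exact (hI _ _ _).2 ⟨⟨by omega, by omega⟩, (hm _ _ (by omega) (by omega)).1⟩
      have h2 := card_le_card this
      rw [Nat.card_Ico] at h2
      omega
  refine ladder_dec Adj A hA hsc k hk hcut p le_rfl β hβ (3 * k) (7 * k + 1) (by omega) n hn
    ?_ ?_ ?_
  · intro a ha i j h
    have e1 := henc i
    have e2 := henc j
    have e3 := hposN a ha
    have := hmne _ _ (by omega) (by omega) h
    exact henci i j (by omega)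
  · intro v b hv hb
    refine le_trans ?_ (hβ2 v (by omega)).le
    apply card_le_card_of_injOn (fun i => pos b + (5 * k + 1) + enc i)
    · intro i hi
      have h1 : ¬ Adj v (n b i) := (mem_filter.1 hi).2
      have e1 := henc i
      have e2 := hposN b hb
      have e3 := hpos _ _ hv
      refine mem_coe.2 ((hI _ _ _).2 ⟨⟨by simp only; omega, by simp only; omega⟩, ?_⟩)
      have hne : v ≠ n b i := fun h => by have := hn b hb i; rw [← h] at this; omega
      rcases hsc _ _ hne with h | h
      · exact absurd h h1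
      · exact h
    · intro i _ j _ h
      exact henci i j (by simp only at h; omega)
  · intro v b hv
    have hb : b ≤ p := by have := hβ v; omega
    refine le_trans ?_ (hβ1 v b hv).le
    apply card_le_card_of_injOn (fun i => pos b + (5 * k + 1) + enc i)
    · intro i hi
      have h1 : ¬ Adj (n b i) v := (mem_filter.1 hi).2
      have e1 := henc i
      refine mem_coe.2 ((hO _ _ _).2 ⟨by simp only; omega, ?_⟩)
      have hne : v ≠ n b i := fun h => by have := hn b hb i; rw [← h] at this; omega
      rcases hsc _ _ hne with h | h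
      · exact h
      · exact absurd h h1
    · intro i _ j _ h
      exact henci i j (by simp only at h; omega)

theorem q2 (k : ℕ) (hk : 1 ≤ k) (V : Type) [Fintype V] (Adj : V → V → Prop)
    (hV : 2 ^ bigN k ≤ Fintype.card V) (hirr : ∀ v, ¬ Adj v v)
    (hsc : ∀ u v, u ≠ v → Adj u v ∨ Adj v u)
    (hs : ∀ S : Finset (V × V), (∀ e ∈ S, Adj e.1 e.2) → S.card ≤ k - 1 →
        ∀ u v, Relation.ReflTransGen (fun a b => Adj a b ∧ (a, b) ∉ S) u v) :
    ∃ f : V → V → Fin k, ∀ i : Fin k, ∀ u v,
        Relation.ReflTransGen (fun a b => Adj a b ∧ f a b = i) u v := by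
  classical
  have : NeZero k := ⟨by omega⟩
  let A : Finset (V × V) := univ.filter (fun e => Adj e.1 e.2)
  have hA : ∀ a b, (a, b) ∈ A ↔ Adj a b := fun a b => by simp [A]
  have hcut : KCut A k := by
    rintro X ⟨x, hx⟩ ⟨y, hy⟩
    by_contra hlt
    have h1 := hs (outc A X) (fun e he => (hA e.1 e.2).1 (mem_ent.1 he).1) (by omega) x y
    have h2 : ∀ z, Relation.ReflTransGen (fun a b => Adj a b ∧ (a, b) ∉ outc A X) x z → z ∈ X := by
      intro z hz
      induction hz with
      | refl => exact hx
      | tail _ hbc ih =>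
        by_contra hc
        exact hbc.2 (mem_ent.2 ⟨(hA _ _).2 hbc.1, ih, hc⟩)
    exact (mem_compl.1 hy) (h2 y h1)
  obtain ⟨f, hf⟩ := main_dec (κ := Fin k) Adj A hA hirr hsc k (Fintype.card_fin k) hcut hV
  refine ⟨f, fun i u v => ?_⟩
  have := hf i (univ.filter (fun z =>
    Relation.ReflTransGen (fun a b => Adj a b ∧ f a b = i) u z))
    ⟨u, mem_filter.2 ⟨mem_univ _, Relation.ReflTransGen.refl⟩⟩
    (fun a b h1 h2 ha => mem_filter.2 ⟨mem_univ _, (mem_filter.1 ha).2.tail ⟨h1, h2⟩⟩) v
  exact (mem_filter.1 this).2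

end Pool.Agent.Lib.MP_44ed1d_co
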