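import Mathlib
import Pool.Agent.Lib.MP_44ed1d_co.Assemble
import Pool.Agent.Lib.MP_44ed1d_co.Linear

set_option autoImplicit false
set_option linter.unusedSectionVars false

namespace Pool.Agent.Lib.MP_44ed1d_co

open Finset Relation

lemma consts (m : ℕ) (hm : 1 ≤ m) : ∃ L q N : ℕ, L.Prime ∧ 0 < q ∧ 2 ^ (2 * q + 1) ≤ L ∧ 2 ≤ N ∧
    ∀ k u : ℕ, N * u ≤ k → k ≤ (N + 1) * u → 6 ≤ u → ∃ g r x x0 d : ℕ, m * d ≤ (m + 1) * k ∧
      k + 5 * g + 6 ≤ d ∧ k + u ≤ d ∧ L * (r + 2 * u + u + u) ≤ d ∧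
      k ≤ (L - 2 * (q * q)) * r ∧ L * (x + u) ≤ g ∧ L * (x0 + u) ≤ k ∧
      k + 6 * u ≤ (q - 2) * x + (L - 1) * x0 ∧ 5 * u ≤ (q - 2) * x := by
  obtain ⟨q, hq⟩ : ∃ q, q = 6 * m + 2 := ⟨_, rfl⟩
  obtain ⟨L, h1, hp⟩ := Nat.exists_infinite_primes (2 ^ (2 * q + 1) + 4 * (q * q) * (m + 1))
  have L2 := hp.two_le
  obtain ⟨n1, hn1⟩ : ∃ n1, n1 = 5 * (L + 12) + 6 := ⟨_, rfl⟩
  have e1 : n1 ≤ m * n1 := Nat.le_mul_of_pos_left _ hm
  obtain ⟨k0, hk0⟩ : ∃ k0, m * n1 = k0 + 1 := ⟨m * n1 - 1, by omega⟩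
  obtain ⟨ρ, hρ⟩ : ∃ ρ, m * n1 + n1 = ρ + 4 := ⟨m * n1 + n1 - 4, by omega⟩
  have e2 : 4 * (q * q) * (m + 1) ≤ L := le_trans (Nat.le_add_left _ _) h1
  have e3 : 2 * (q * q) ≤ L := by nlinarith [Nat.zero_le (q * q), Nat.zero_le (q * q * m)]
  obtain ⟨L', hL'⟩ := Nat.exists_eq_add_of_le e3
  obtain ⟨L1, hL1⟩ : ∃ L1, L = L1 + 1 := ⟨L - 1, by omega⟩
  have c4 : L * (m * n1) + 1 ≤ L' * ρ := by
    have a1 : 4 * (q * q) * (m + 1) * n1 ≤ L * n1 := Nat.mul_le_mul_right _ e2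
    have a2 : L * 10 ≤ L * n1 := Nat.mul_le_mul_left _ (by omega)
    have a3 : L * (m * n1 + n1) = (2 * (q * q) + L') * (ρ + 4) := by rw [hρ, ← hL']
    have a4 : 2 * (q * q) * (m * n1 + n1) = 2 * (q * q) * (ρ + 4) := by rw [hρ]
    have a5 : L' ≤ L := by omega
    nlinarith
  have c7 : L * (m * n1) + 7 ≤ 6 * m * (L + 12) + L1 * k0 := by
    have a1 : L * (m * n1) = (L1 + 1) * (k0 + 1) := by rw [hk0, ← hL1]
    have a2 : m * n1 = m * (5 * (L + 12) + 6) := by rw [hn1]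
    have a3 : L ≤ m * L := Nat.le_mul_of_pos_left _ hm
    nlinarith
  refine ⟨L, q, L * (m * n1), hp, by omega, le_trans (Nat.le_add_right _ _) h1, by nlinarith,
    fun k u h2 h3 h4 => ⟨L * ((L + 12) * u + u), ρ * u, (L + 12) * u, k0 * u, k + L * n1 * u,
      ?_, ?_, ?_, ?_, ?_, le_rfl, ?_, ?_, ?_⟩⟩
  · nlinarith
  · have : 1 * 6 ≤ L * u := Nat.mul_le_mul (by omega) h4
    rw [hn1]
    nlinarith
  · have : 1 * u ≤ L * n1 * u := Nat.mul_le_mul_right _ (by nlinarith)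
    omega
  · have : L * (ρ * u + 2 * u + u + u) = L * ((m * n1 + n1) * u) := by rw [hρ]; ring
    rw [this]
    nlinarith
  · have : L - 2 * (q * q) = L' := by omega
    rw [this, ← mul_assoc]
    exact h3.trans (Nat.mul_le_mul_right _ c4)
  · have : L * (k0 * u + u) = L * (m * n1) * u := by rw [hk0]; ring
    omega
  · have a1 : q - 2 = 6 * m := by omega
    have a2 : L - 1 = L1 := by omega
    have a3 := Nat.mul_le_mul_right u c7
    rw [a1, a2]
    nlinarith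
  · have a1 : q - 2 = 6 * m := by omega
    rw [a1, ← mul_assoc]
    exact Nat.mul_le_mul_right _ (by nlinarith)

lemma exp_big (L D n u : ℕ) (hn : 0 < n) (hD : 0 < D) (h1 : n ≤ D * u)
    (h2 : 3072 * D ^ 5 * L < u) :
    (8 * (n * n) * L : ℝ) < Real.exp ((u : ℝ) ^ 2 / (4 * n)) := by
  have n0 : (0 : ℝ) < n := by exact_mod_cast hn
  have D0 : (0 : ℝ) < D := by exact_mod_cast hD
  have u0 : (0 : ℝ) < u := by exact_mod_cast (by omega : 0 < u)
  have a1 : (n : ℝ) ≤ D * u := by exact_mod_cast h1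
  have a2 : (3072 * D ^ 5 * L : ℝ) < u := by exact_mod_cast h2
  have a3 : (u : ℝ) / (4 * D) ≤ (u : ℝ) ^ 2 / (4 * n) := by
    rw [div_le_div_iff₀ (by positivity) (by positivity)]
    nlinarith
  have a4 := Real.pow_div_factorial_le_exp ((u : ℝ) / (4 * D)) (by positivity) 3
  refine lt_of_lt_of_le ?_ (a4.trans (Real.exp_le_exp.2 a3))
  have a5 : (8 * (n * n) * L : ℝ) ≤ 8 * (D * u * (D * u)) * L := by gcongr
  refine a5.trans_lt ?_
  have a6 : ((Nat.factorial 3 : ℕ) : ℝ) = 6 := by norm_num [Nat.factorial]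
  rw [a6, div_pow, div_div, lt_div_iff₀ (by positivity)]
  have a7 := mul_lt_mul_of_pos_right a2 (by positivity : (0 : ℝ) < u ^ 2)
  nlinarith

open Classical in
theorem semi_dec (m : ℕ) (hm : 1 ≤ m) : ∃ K : ℕ, ∀ (V κ : Type) [DecidableEq V] [Fintype V]
    [Fintype κ] [DecidableEq κ] [Nonempty κ] [Nonempty V] (Adj : V → V → Prop)
    (A : Finset (V × V)), (∀ a b, (a, b) ∈ A ↔ Adj a b) → (∀ v, ¬ Adj v v) →
    (∀ u v, u ≠ v → Adj u v ∨ Adj v u) → KCut A (Fintype.card κ) →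
    (∀ v, (m + 1) * Fintype.card κ + m * K ≤ m * (univ.filter (fun y => Adj v y)).card) →
    (∀ v, (m + 1) * Fintype.card κ + m * K ≤ m * (univ.filter (fun y => Adj y v)).card) →
    Dec Adj κ := by
  obtain ⟨L, q, N, hp, hq, hL, hN, hc⟩ := consts m hm
  obtain ⟨C, hC⟩ : ∃ C : ℕ, C = 3000000000000 := ⟨_, rfl⟩
  refine ⟨C * (N * (N + 16 * C * (N + 1) ^ 2 + 3072 * (C * (N + 1)) ^ 5 * L + 7)),
    fun V κ _ _ _ _ _ _ Adj A hA hirr hsc hcut hdo hdi => ?_⟩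
  by_cases hV : 3000000000000 * Fintype.card κ ≤ Fintype.card V
  · exact linear_dec Adj A hA hirr hsc hcut hV
  have : Fact L.Prime := ⟨hp⟩
  rw [← hC] at hV
  obtain ⟨v0⟩ := ‹Nonempty V›
  set k := Fintype.card κ with hk
  set n := Fintype.card V with hn
  set U := N + 16 * C * (N + 1) ^ 2 + 3072 * (C * (N + 1)) ^ 5 * L + 7 with hU
  have a1 : (m + 1) * k + m * (C * (N * U)) ≤ m * n :=
    (hdo v0).trans (Nat.mul_le_mul_left _ (card_le_univ _))
  have a2 : C * (N * U) ≤ n := Nat.le_of_mul_le_mul_left (by omega) hm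
  have a3 : k ≤ n := Nat.le_of_mul_le_mul_left (by rw [add_mul] at a1; omega) hm
  have a4 : N * U < k := Nat.lt_of_mul_lt_mul_left (a := C) (by omega)
  have a5 : U ≤ k / N := (Nat.le_div_iff_mul_le (by omega)).2 (by rw [mul_comm]; exact a4.le)
  have a6 : N * (k / N) ≤ k := Nat.mul_div_le _ _
  have a7 : k < N * (k / N + 1) := Nat.lt_mul_div_succ _ (by omega)
  set u := k / N with hu
  have a8 : k ≤ (N + 1) * u := by
    have : N ≤ u := by omega
    nlinarith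
  have a9 : n ≤ C * (N + 1) * u := by
    rw [mul_assoc]
    exact (not_le.1 hV).le.trans (Nat.mul_le_mul_left _ a8)
  obtain ⟨g, r, x, x0, d, d0, n1, n2, n3, n4, n5, n6, n7, n8⟩ := hc k u a6 a8 (by omega)
  refine assemble Adj A hA hsc hcut L q hq hL u g r x x0 d (by omega) (by nlinarith) a3 ?_
    (exp_big L (C * (N + 1)) n u (by omega) (by rw [hC]; positivity) a9 (by omega))
    (fun v => Nat.le_of_mul_le_mul_left (d0.trans (le_trans (Nat.le_add_right _ _) (hdo v))) hm)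
    (fun v => Nat.le_of_mul_le_mul_left (d0.trans (le_trans (Nat.le_add_right _ _) (hdi v))) hm)
    n1 n2 n3 n4 n5 n6 n7 n8
  calc 16 * k * n ≤ 16 * ((N + 1) * u) * (C * (N + 1) * u) := by gcongr
    _ = 16 * C * (N + 1) ^ 2 * u ^ 2 := by ring
    _ ≤ u * u ^ 2 := Nat.mul_le_mul_right _ (by omega)
    _ = u ^ 3 := by ring

theorem semi (ε : ℝ) (hε : 0 < ε) : ∃ K : ℕ, ∀ (k : ℕ), 1 ≤ k →
    ∀ (V : Type) [Fintype V] (Adj : V → V → Prop), (∀ v, ¬ Adj v v) →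
      (∀ u v, u ≠ v → Adj u v ∨ Adj v u) →
      (∀ S : Finset (V × V), (∀ e ∈ S, Adj e.1 e.2) → S.card ≤ k - 1 →
        ∀ u v, ReflTransGen (fun a b => Adj a b ∧ (a, b) ∉ S) u v) →
      (∀ v, (1 + ε) * k + K ≤ {w | Adj v w}.ncard) →
      (∀ v, (1 + ε) * k + K ≤ {w | Adj w v}.ncard) →
      ∃ f : V → V → Fin k, ∀ i : Fin k, ∀ u v,
        ReflTransGen (fun a b => Adj a b ∧ f a b = i) u v := by
  classical
  obtain ⟨m', hm'⟩ := exists_nat_one_div_lt hε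
  obtain ⟨K, hK⟩ := semi_dec (m' + 1) (by omega)
  refine ⟨K, fun k hk V _ Adj hirr hsc hs hdo hdi => ?_⟩
  have : NeZero k := ⟨by omega⟩
  rcases isEmpty_or_nonempty V with hV | hV
  · exact ⟨fun _ _ => 0, fun _ u => isEmptyElim u⟩
  let A : Finset (V × V) := univ.filter (fun e => Adj e.1 e.2)
  have hA : ∀ a b, (a, b) ∈ A ↔ Adj a b := fun a b => by simp [A]
  have hcut : KCut A (Fintype.card (Fin k)) := by
    rw [Fintype.card_fin]
    rintro X ⟨x, hx⟩ ⟨y, hy⟩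
    by_contra hlt
    have h1 := hs (outc A X) (fun e he => (hA e.1 e.2).1 (mem_ent.1 he).1) (by omega) x y
    have h2 : ∀ z, ReflTransGen (fun a b => Adj a b ∧ (a, b) ∉ outc A X) x z → z ∈ X := by
      intro z hz
      induction hz with
      | refl => exact hx
      | tail _ hbc ih =>
        by_contra hc
        exact hbc.2 (mem_ent.2 ⟨(hA _ _).2 hbc.1, ih, hc⟩)
    exact (mem_compl.1 hy) (h2 y h1)
  have num : ∀ p : V → Prop, (1 + ε) * k + K ≤ {w | p w}.ncard →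
      (m' + 1 + 1) * Fintype.card (Fin k) + (m' + 1) * K ≤ (m' + 1) * (univ.filter p).card := by
    intro p hp
    have e : {w | p w}.ncard = (univ.filter p).card := by
      rw [← Set.ncard_coe_finset]
      congr 1
      ext w
      simp
    rw [e] at hp
    rw [div_lt_iff₀ (by positivity)] at hm'
    have k0 : (0 : ℝ) ≤ k := Nat.cast_nonneg _
    have b1 := mul_le_mul_of_nonneg_left hp (by positivity : (0 : ℝ) ≤ (m' : ℝ) + 1)
    have b2 := mul_le_mul_of_nonneg_right hm'.le k0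
    have b3 : ((m' : ℝ) + 1 + 1) * k + (m' + 1) * K ≤ (m' + 1) * (univ.filter p).card := by
      nlinarith
    rw [Fintype.card_fin]
    exact_mod_cast b3
  obtain ⟨f, hf⟩ := hK V (Fin k) Adj A hA hirr hsc hcut (fun v => num _ (hdo v))
    (fun v => num _ (hdi v))
  refine ⟨f, fun i u v => ?_⟩
  have := hf i (univ.filter (fun z => ReflTransGen (fun a b => Adj a b ∧ f a b = i) u z))
    ⟨u, mem_filter.2 ⟨mem_univ _, ReflTransGen.refl⟩⟩
    (fun a b h1 h2 ha => mem_filter.2 ⟨mem_univ _, (mem_filter.1 ha).2.tail ⟨h1, h2⟩⟩) v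
  exact (mem_filter.1 this).2

end Pool.Agent.Lib.MP_44ed1d_co
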